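import Pool.Agent.Lib.DN.C.SpecR

/-!
# THEOREM DN, Part C, module Bas: the ring `O`
-/

set_option autoImplicit false

noncomputable section

namespace Pool.Agent.DN.C

open Pool.Agent.MuZ Pool.Agent.DN

variable {n t : ℕ}

private theorem Bas_nonneg [h : SqN n t] (v : OO n t) : v.re ^ 2 + v.im ^ 2 ≤ 4 * Nm v := by
  rcases h.out with ⟨rfl, h1, -⟩ | ⟨rfl, h1, -⟩
  · have h2 : (1 : ℤ) ≤ n := by exact_mod_cast h1
    unfold Nm
    push_cast
    nlinarith [sq_nonneg (v.re + v.im), sq_nonneg v.im, sq_nonneg v.re,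
      mul_nonneg (sub_nonneg.2 h2) (sq_nonneg v.im)]
  · have h2 : (1 : ℤ) ≤ n := by exact_mod_cast h1
    unfold Nm
    push_cast
    nlinarith [sq_nonneg v.re, sq_nonneg v.im,
      mul_nonneg (sub_nonneg.2 h2) (sq_nonneg v.im)]

theorem tBas : S_Bas := by
  intro n t _
  refine ⟨fun v => (by have := Nm_norm v; exact_mod_cast this.symm), fun v => (conj_toC v).symm,
    fun v u => ⟨cjO_mul v u, cjO_add v u, cjO_cjO v⟩, Nm_mul,
    fun v => ⟨(mul_cjO v).symm, Nm_cjO v, Nm_neg v⟩, ?_, ?_, ?_, ?_, fun v => toC_eq_zero⟩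
  · intro v
    refine ⟨Nm_nonneg v, ⟨Nm_eq_zero, ?_⟩, Bas_nonneg v⟩
    rintro rfl
    exact Nm_zero
  · intro v u
    unfold Nm
    rw [re_mul, im_mul]
    simp only [cjO, QuadraticAlgebra.re_add, QuadraticAlgebra.im_add]
    ring
  · have hD : ((Dk n t : ℕ) : ℤ) = 4 * n - (t : ℤ) ^ 2 := Dk_cast
    have h2 : cjO (sD n t) = -sD n t := by
      apply ext'
      · simp only [cjO, sD, QuadraticAlgebra.re_neg]
        ring
      · simp only [cjO, sD, QuadraticAlgebra.im_neg]
    have h3 : sD n t * sD n t = -(Dk n t : OO n t) := by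
      apply ext'
      · rw [re_mul, QuadraticAlgebra.re_neg, re_nat, hD]
        simp only [sD]
        ring
      · rw [im_mul, QuadraticAlgebra.im_neg, im_nat]
        simp only [sD]
        ring
    refine ⟨?_, h2, h3⟩
    rw [h2, mul_neg, h3, neg_neg]
  · intro v
    have hD : ((Dk n t : ℕ) : ℤ) = 4 * n - (t : ℤ) ^ 2 := Dk_cast
    rw [hD, re_mul, im_mul]
    simp only [sD]
    constructor <;> ring

end Pool.Agent.DN.C
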