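import Pool.Agent.Lib.DN.C.Spec

/-! # Theorem DN, part C, module C2: transformation under `Γ_1(4 M)` -/

set_option autoImplicit false

open Filter Topology
open scoped Pointwise

noncomputable section

namespace Pool.Agent.DN.C

open Pool.Agent.MuZ Pool.Agent.FW NumberField
open Pool.Agent.DI (io ofC io_inj exists_io io_ofC ofC_io VP MP UP TP ex sqr sqr_sq kap)

/-- The symbol of an integer which is `1` modulo `4 D`. -/
private theorem C2_eps {n t : ℕ} [SqN n t] (hE : S_Ech) (d : ℤ)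
    (h : (4 * Dk n t : ℤ) ∣ d - 1) : eps n t d = 1 := by
  obtain ⟨-, h2, -, h4⟩ := hE n t
  obtain ⟨g, hg⟩ := h
  have h1 : Odd d := by
    rw [Int.odd_iff]
    have e : d = 2 * (2 * (Dk n t * g)) + 1 := by linarith
    omega
  have h3 : IsCoprime d (Dk n t : ℤ) := ⟨1, -(4 * g), by linarith⟩
  rw [h2 d 1 h1 odd_one h3 ⟨g, hg⟩, h4]

/-- Transformation under `Γ_1(4 M)`, on the upper half plane. -/
theorem tC2 (hT : S_TrS) (hV : S_Val) (hR : S_Red) (hD : S_Den) (h4 : S_C4) (hE : S_Ech) :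
    S_C2 := by
  intro n t _ f M m b hFM hFB hLv a b' c d hG hd z hz
  have hG' : G0 M a b' c d := ⟨hG.1, dvd_trans (Dvd.intro_left 4 rfl) hG.2⟩
  obtain ⟨ha0, hd0, _, _, _, hden, _⟩ := hD M a b' c d hLv.three hG'
  have hG4 : G0 ((4 * M : ℕ) : ℤ) a b' c d := ⟨hG.1, by push_cast; exact hG.2⟩
  obtain ⟨-, -, -, -, had, -, -⟩ := hD (4 * M) a b' c d (by have := hLv.three; omega) hG4
  have hMa : (4 * M : ℤ) ∣ a - 1 := by
    have h1 : a - 1 = (a * d - 1) - a * (d - 1) := by ring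
    rw [h1]
    push_cast at had
    exact dvd_sub had (Dvd.dvd.mul_left hd a)
  have hlev := hLv.dvd
  have hDM : Dk n t ∣ M := by
    refine dvd_trans ?_ hlev
    unfold lev
    rw [mul_assoc]
    exact dvd_mul_right _ _
  have hfM : f ∣ M := by
    refine dvd_trans ?_ hlev
    unfold lev
    exact Dvd.dvd.mul_right (Dvd.dvd.mul_left (dvd_pow_self f two_ne_zero) _) _
  have hmM : NI m ∣ M := by
    refine dvd_trans ?_ hlev
    unfold lev
    refine Dvd.dvd.mul_left ?_ _
    refine dvd_trans ?_ (dvd_pow_self _ three_ne_zero)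
    exact dvd_mul_right _ _
  have hfa : ((2 * f : ℕ) : ℤ) ∣ a - 1 := by
    refine dvd_trans ?_ hMa
    obtain ⟨g, hg⟩ := hfM
    refine ⟨2 * g, ?_⟩
    rw [hg]
    push_cast
    ring
  have heps : eps n t d = 1 := by
    refine C2_eps hE d (dvd_trans ?_ hd)
    obtain ⟨g, hg⟩ := hDM
    refine ⟨g, ?_⟩
    rw [hg]
    push_cast
    ring
  have hf0 : 0 < 2 * f := Nat.mul_pos two_pos hFM.odd.pos
  have hmb : m * b ≠ ⊥ := by
    intro h
    rcases Ideal.mul_eq_bot.mp h with h | h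
    · exact hFM.ne h
    · exact hFB.ne h
  have hS1 : ThS (2 * f) m b a = ThM (2 * f) m b := by
    funext w
    have e1 := (hR n t (2 * f) (m * b) hf0 hmb a).2.2.2.2.1 1 hfa w
    have e2 := (hR n t (2 * f) b hf0 hFB.ne a).2.2.2.2.1 1 hfa (NI m * w)
    unfold ThS ThM
    rw [e1, e2]
  have hS2 : ∀ r : ℚ, hS (2 * f) m b a r = hM (2 * f) m b r := by
    intro r
    unfold hS hM
    rw [hS1]
  have hval : ∀ r : ℚ, r.den.Coprime (NI m) → hM (2 * f) m b r = io (etaM (2 * f) m b r) := by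
    intro r hr
    have h5 := (h4 n t f m b hFM hFB r.num r.den r.den_pos hr).2.1
    rw [Rat.num_div_den] at h5
    exact h5.symm
  have hT1 := hT n t f M m b hFM hFB hLv a b' c d hG 1 z hz
  have hV1 := ((hV n t f M m b hFM hFB hLv).2 a b' c d hG 1).2 hd0
  rw [hV1, mul_one, heps, hS1, hS2, ThS_one, hS_one] at hT1
  have h6 : mob a b' c d z = (a * z + b') / (c * z + d) := rfl
  rw [h6] at hT1
  have h7 : (b' / d : ℚ).den.Coprime (NI m) := Nat.Coprime.coprime_dvd_right hmM hden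
  have h8 : (0 : ℚ).den.Coprime (NI m) := by
    rw [Rat.den_zero]
    exact Nat.coprime_one_left _
  rw [hT1, hval _ h7, hval _ h8, map_sub]
  push_cast
  ring

end Pool.Agent.DN.C
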