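import Pool.Agent.Lib.DN.C.Spec

/-!
# THEOREM DN, Part C, module C3: expansions at all cusps
-/

set_option autoImplicit false

noncomputable section

namespace Pool.Agent.DN.C

open Pool.Agent.DI (ex)

theorem tC3 (hC : S_CuS) : S_C3 := by
  intro n t _ f M m b hm hb hM a b' c d hdet
  obtain ⟨k0, e, C, he0, hC1, hS⟩ := hC n t f M m b hm hb hM a b' c d hdet 1
  have hC0 : 0 ≤ C := by
    have h1 := (norm_nonneg _).trans (hC1 0)
    simpa using h1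
  refine ⟨k0, fun n₁ => e (n₁ + 1), 4 * C, ?_, ?_⟩
  · intro n₁
    have h2 := hC1 (n₁ + 1)
    refine h2.trans ?_
    push_cast
    have hn : (0 : ℝ) ≤ n₁ := Nat.cast_nonneg n₁
    have h3 : ((n₁ : ℝ) + 1 + 1) ^ 2 ≤ 4 * ((n₁ : ℝ) + 1) ^ 3 := by nlinarith [mul_nonneg hn hn, mul_nonneg hn (mul_nonneg hn hn)]
    calc C * ((n₁ : ℝ) + 1 + 1) ^ 2 ≤ C * (4 * ((n₁ : ℝ) + 1) ^ 3) := mul_le_mul_of_nonneg_left h3 hC0
      _ = 4 * C * ((n₁ : ℝ) + 1) ^ 3 := by ring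
  · intro z hz
    have h4 := hS z hz
    have h5 := (hasSum_nat_add_iff' 1).2 h4
    rw [Finset.sum_range_one, he0, zero_mul, sub_zero] at h5
    have h6 : (fun n₁ : ℕ => e (n₁ + 1) * ex ((n₁ + 1) * z / (4 * M : ℕ))) =
        fun n₁ : ℕ => e (n₁ + 1) * ex (((n₁ + 1 : ℕ) : ℂ) * z / (4 * M : ℕ)) := by
      funext n₁
      push_cast
      rfl
    rw [h6]
    exact h5

end Pool.Agent.DN.C
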