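import Pool.Agent.Lib.DN.C.Spec

/-!
# THEOREM DN (MP_d0239a_nt), Part C: module C4b

The values of the theta series at the rational numbers: the limit exists, it is algebraic, and the
formula.
-/

set_option autoImplicit false

open Filter Topology
open scoped Pointwise

noncomputable section

namespace Pool.Agent.DN.C

open Pool.Agent.MuZ Pool.Agent.FW NumberField
open Pool.Agent.DI (io ofC io_inj exists_io io_ofC ofC_io VP MP UP TP ex sqr sqr_sq kap)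

private theorem ex_pow (n₁ : ℕ) (hn : 0 < n₁) : ex (1 / n₁) ^ n₁ = 1 := by
  have hn' : (n₁ : ℂ) ≠ 0 := by exact_mod_cast hn.ne'
  unfold ex
  rw [← Complex.exp_nat_mul]
  have e : (n₁ : ℂ) * (2 * Real.pi * Complex.I * (1 / n₁)) = 2 * Real.pi * Complex.I := by
    field_simp
  rw [e, Complex.exp_two_pi_mul_I]

private theorem io_zet (n₁ : ℕ) (hn : 0 < n₁) : io (zet n₁) = ex (1 / n₁) := by
  refine io_ofC _ ?_
  refine IsAlgebraic.of_pow hn ?_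
  rw [ex_pow n₁ hn]
  exact isAlgebraic_one

private theorem io_zet_zpow (n₁ : ℕ) (hn : 0 < n₁) (j : ℤ) : io (zet n₁ ^ j) = ex (j / n₁) := by
  rw [map_zpow₀, io_zet n₁ hn]
  unfold ex
  rw [← Complex.exp_int_mul]
  ring_nf

/-- Module C4b: `S_C4b`. -/
theorem tC4b (hA : S_C4a) (h3 : S_L3) (h5 : S_R1) (hC : S_Cnd) : S_C4b := by
  intro n t _ f₀ m b hm hb c n₁ hn hc
  obtain ⟨-, -, -, -, -, -, -, hm15, hG, -⟩ := hC n t f₀ m b hm hb
  have hsn : sp (n₁ : OO n t) ≠ ⊥ := by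
    intro h
    have h1 : (n₁ : OO n t) = 0 := Ideal.span_singleton_eq_bot.1 h
    have h2 : ((n₁ : OO n t)).re = 0 := by rw [h1]; rfl
    rw [re_nat] at h2
    omega
  -- the formula
  have key : ∀ U : Finset ℂ, IsSys (sp (n₁ : OO n t)) b U →
      Tendsto (fun y : ℝ => ThM (2 * f₀) m b (((c / n₁ : ℚ) : ℂ) + y * Complex.I)) (𝓝[>] 0)
        (𝓝 (io ((n₁ : Om)⁻¹ * ∑ u ∈ U, zet n₁ ^ (c * qN m b (1 + (2 * f₀ : ℕ) * n₁ * u)) *
          gO m b (1 / ((2 * f₀ : ℕ) * n₁) + u)))) := by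
    intro U hU
    obtain ⟨-, a2, a3⟩ := hA n t f₀ m b hm hb c n₁ hn hc U hU
    have e : io ((n₁ : Om)⁻¹ * ∑ u ∈ U, zet n₁ ^ (c * qN m b (1 + (2 * f₀ : ℕ) * n₁ * u)) *
          gO m b (1 / ((2 * f₀ : ℕ) * n₁) + u)) =
        (n₁ : ℂ)⁻¹ * ∑ u ∈ U, ex (c * qN m b (1 + (2 * f₀ : ℕ) * n₁ * u) / n₁) *
          gC m b (1 / ((2 * f₀ : ℕ) * n₁) + u) := by
      rw [map_mul, map_inv₀, map_natCast, map_sum]
      congr 1
      refine Finset.sum_congr rfl fun u hu => ?_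
      obtain ⟨u1, u2⟩ := a2 u hu
      rw [map_mul, io_zet_zpow n₁ hn, (h5.1 n t).2 m b hm.ne hG hm.two hm15 _ u2 u1]
      push_cast
      rfl
    rw [e]
    exact a3
  obtain ⟨-, -, U₀, hU₀, -⟩ := h3 n t (sp (n₁ : OO n t)) b hsn hb.ne
  have hlim : ∀ U : Finset ℂ, IsSys (sp (n₁ : OO n t)) b U → hM (2 * f₀) m b (c / n₁) =
      io ((n₁ : Om)⁻¹ * ∑ u ∈ U, zet n₁ ^ (c * qN m b (1 + (2 * f₀ : ℕ) * n₁ * u)) *
        gO m b (1 / ((2 * f₀ : ℕ) * n₁) + u)) := fun U hU => (key U hU).limUnder_eq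
  refine ⟨?_, ?_, fun U hU => ⟨(hA n t f₀ m b hm hb c n₁ hn hc U hU).1, ?_⟩⟩
  · rw [hlim U₀ hU₀]
    exact key U₀ hU₀
  · unfold etaM
    rw [hlim U₀ hU₀, ofC_io]
  · unfold etaM
    rw [hlim U hU, ofC_io]

end Pool.Agent.DN.C
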