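import Pool.Agent.Lib.DN.C.Spec
import Pool.Agent.Lib.DN.CV.Bas

set_option autoImplicit false

/-!
# Theorem DN, Part C, module C7b: the coefficients `cM` are algebraic and divisible by `2`
-/

open Filter Topology
open scoped Pointwise

noncomputable section

namespace Pool.Agent.DN.C

open Pool.Agent.MuZ Pool.Agent.FW NumberField
open Pool.Agent.DI (io ofC io_inj exists_io io_ofC ofC_io VP MP UP TP ex sqr sqr_sq kap)

private theorem C7b_term (hL : S_Lt) {n t : ℕ} [SqN n t] {f : ℕ} (hf : 0 < f)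
    {c : Ideal (OO n t)} (hc : c ≠ ⊥) (ho : Odd (NI c)) {v : ℂ}
    (h1 : v - 1 / (2 * f : ℕ) ∈ Lam c) :
    ∃ X : Om, io X = v⁻¹ ∧ ∀ P : Ideal ZZ, Ab2 P → TP P 2 X := by
  obtain ⟨l1, l2, -⟩ := hL n t c hc
  obtain ⟨u, -, hu⟩ := (l2 _).1 h1
  have hf' : ((2 * f : ℕ) : ℂ) ≠ 0 := by exact_mod_cast (by omega : 2 * f ≠ 0)
  have hN' : (NI c : ℂ) ≠ 0 := by exact_mod_cast l1.ne'
  obtain ⟨x, hx⟩ : ∃ x : OO n t, x = (NI c : OO n t) + ((2 * f : ℕ) : OO n t) * u := ⟨_, rfl⟩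
  have hxC : toC x = (2 * f : ℕ) * NI c * v := by
    rw [hx, toC_add, toC_mul, toC_nat, toC_nat]
    rw [eq_div_iff hN'] at hu
    rw [← hu]
    field_simp
    ring
  have hodd : Odd (Nm x) := by
    have h2 : ((2 : ℕ) : OO n t) ∣ x - (NI c : OO n t) := by
      rw [hx, add_sub_cancel_left]
      push_cast
      exact Dvd.dvd.mul_right (Dvd.intro _ rfl) _
    have h3 := Nm_congr h2
    rw [Nm_nat] at h3
    obtain ⟨i, hi⟩ := ho
    obtain ⟨k, hk⟩ := h3
    rw [hi] at hk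
    refine ⟨k + 2 * i ^ 2 + 2 * i, ?_⟩
    push_cast at hk
    linear_combination hk
  have hn0 : Nm x ≠ 0 := by
    intro h0
    rw [h0] at hodd
    exact absurd hodd (by decide)
  have hx0 : x ≠ 0 := by
    intro h0
    rw [h0, Nm_zero] at hn0
    exact hn0 rfl
  have hv0 : v ≠ 0 := by
    intro h0
    rw [h0, mul_zero] at hxC
    exact toC_ne hx0 hxC
  refine ⟨2 * ((f : Om) * NI c * toO (cjO x) * ((Nm x : ℤ) : Om)⁻¹), ?_, ?_⟩
  · have h4 : ((Nm x : ℤ) : ℂ) = toC x * toC (cjO x) := toC_Nm x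
    have h5 : toC (cjO x) ≠ 0 := by
      intro h0
      rw [h0, mul_zero] at h4
      exact hn0 (by exact_mod_cast h4)
    rw [map_mul, map_mul, map_mul, map_mul, map_inv₀, io_toO, map_natCast, map_natCast,
      map_intCast, map_ofNat, h4, mul_inv, hxC]
    have hf2 : (f : ℂ) ≠ 0 := by exact_mod_cast hf.ne'
    push_cast
    field_simp
  · intro P hP
    have := hP.1.1
    refine ⟨_, ?_, rfl⟩
    have h6 : VP P (((Nm x : ℤ) : Om)⁻¹) := ((CV_up_odd hP.1.1 hP.2 hodd).inv).1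
    exact (((DI.VP.nat f).mul (DI.VP.nat (NI c))).mul (toO_VP _)).mul h6

open Classical in
theorem tC7b (hC : S_Cnd) (hL : S_Lt) (hA : S_C7a) : S_C7b := by
  intro n t _ f m b hM hFb j
  obtain ⟨c1, c2, c3, c4, c5, c6, c7, -⟩ := hC n t f m b hM hFb
  obtain ⟨a1, -⟩ := hA n t f m b hM hFb
  have hf : 0 < f := hM.odd.pos
  have ho : Odd (NI (m * b)) := by
    rw [c5]
    exact c6.mul c7
  have key : ∃ X : Om, io X = cM (2 * f) m b j ∧ ∀ P : Ideal ZZ, Ab2 P → TP P 2 X := by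
    have h1 : ∀ v ∈ vN (2 * f) (m * b) j, ∃ X : Om, io X = v⁻¹ ∧
        ∀ P : Ideal ZZ, Ab2 P → TP P 2 X := fun v hv =>
      C7b_term hL hf c2 ho ((a1 j v).1 hv).1
    choose! X hX1 hX2 using h1
    refine ⟨∑ v ∈ vN (2 * f) (m * b) j,
      X v * (if v - 1 / (2 * f : ℕ) ∈ Lam b then (1 - NI m : Om) else 1), ?_, ?_⟩
    · rw [map_sum]
      unfold cM
      refine Finset.sum_congr rfl fun v hv => ?_
      rw [map_mul, hX1 v hv, mul_comm]
      congr 1
      split_ifs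
      · rw [map_sub, map_one, map_natCast]
      · rw [map_one]
    · intro P hP
      have := hP.1.1
      refine CV_tp_sum hP.1.1 _ _ fun v hv => CV_tp_mul hP.1.1 (hX2 v hv P hP) ?_
      split_ifs
      · exact DI.VP.one.sub (DI.VP.nat _)
      · exact DI.VP.one
  obtain ⟨X, hX, hX'⟩ := key
  have e : ofC (cM (2 * f) m b j) = X := by rw [← hX, ofC_io]
  rw [e]
  exact ⟨hX, hX'⟩

end Pool.Agent.DN.C
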