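import Pool.Agent.Lib.DN.C.Spec9
import Pool.Agent.Lib.DN.CV.Bas

/-!
# THEOREM DN (MP_d0239a_nt), Part C, module C9: the hidden symmetry `S_C9`
-/

set_option autoImplicit false

open Filter Topology
open scoped Pointwise

noncomputable section

namespace Pool.Agent.DN.C

open Pool.Agent.MuZ Pool.Agent.FW NumberField
open Pool.Agent.DI (io ofC io_inj exists_io io_ofC ofC_io VP MP UP TP ex)

private theorem C9_half : Tendsto (fun y : ℝ => y / 2) (𝓝[>] 0) (𝓝[>] 0) := by
  refine tendsto_nhdsWithin_iff.2 ⟨?_, ?_⟩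
  · have h1 : Tendsto (fun y : ℝ => y / 2) (𝓝 0) (𝓝 (0 / 2)) := tendsto_id.div_const 2
    rw [zero_div] at h1
    exact h1.mono_left nhdsWithin_le_nhds
  · filter_upwards [self_mem_nhdsWithin] with y hy
    have hy' : (0 : ℝ) < y := hy
    change 0 < y / 2
    linarith

private theorem C9_den {M : ℕ} (hM : 2 ≤ M) (ho : Odd M) {s : ℚ} (hs : s.den.Coprime M) :
    (s / 2 : ℚ).den.Coprime M := by
  refine CV_den_coprime (p := s.num) (q := 2 * (s.den : ℤ)) ?_ hM ?_
  · have h1 : IsCoprime (s.den : ℤ) (M : ℤ) := Nat.isCoprime_iff_coprime.2 hs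
    have h2 : IsCoprime (2 : ℤ) (M : ℤ) := by
      have := Nat.isCoprime_iff_coprime.2 (Nat.coprime_two_left.2 ho)
      exact_mod_cast this
    exact h2.mul_left h1
  · have hden : (s.den : ℚ) ≠ 0 := by exact_mod_cast s.den_ne_zero
    have h3 : s * s.den = s.num := Rat.mul_den_eq_num s
    push_cast
    rw [← h3]
    field_simp

theorem tC9 (hS : S_Sym) (hV : S_Vls) (hZ : S_Ztm) (h4 : S_C4) (hD : S_Den) : S_C9 := by
  intro n t _ f M m b hm hb hL P k hP hk r hr
  have hf : 0 < f := hm.odd.pos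
  have hM2 : 2 ≤ M := by
    have := hL.three
    omega
  obtain ⟨ω, hω, hZ'⟩ := hZ n t P hP f k hm.odd hk
  obtain ⟨C, hC⟩ := hS n t ω hω f M m b hm hb hL
  have hGM : G0 (M : ℤ) 1 0 M 1 := ⟨by ring, dvd_refl _⟩
  obtain ⟨-, -, -, -, -, -, hden⟩ := hD M 1 0 M 1 hL.three hGM
  have hmob : ∀ s : ℚ, s.den.Coprime M → (M : ℚ) * s + 1 ≠ 0 ∧
      (s / (M * s + 1) : ℚ).den.Coprime M := by
    intro s hs
    have h := hden s hs
    push_cast at h
    rw [one_mul, add_zero] at h
    exact h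
  have hνM : NI m ∣ M := by
    have h := hL.dvd
    unfold lev at h
    rw [Finset.prod_singleton] at h
    refine dvd_trans ?_ h
    exact ⟨Dk n t * f ^ 2 * (NI m ^ 2 * NI b ^ 3), by ring⟩
  have hFB : ∀ α ∈ tm n t f, FB f (sp α * b) := by
    intro α hα
    obtain ⟨h1, h2⟩ := CV_tm hm.odd hα
    exact CV_fb_mul (CV_fb_sp hf (CV_cop_mul.2 ⟨h2, CV_cop_of_dvd h1⟩)) hb
  -- the values
  have val : ∀ α ∈ tm n t f, ∀ s : ℚ, s.den.Coprime M →
      Tendsto (fun y : ℝ => ThM (2 * f) m (sp α * b) (((s / 2 : ℚ) : ℂ) + y * Complex.I)) (𝓝[>] 0)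
        (𝓝 (hM (2 * f) m (sp α * b) (s / 2))) ∧
      io (etaM (2 * f) m (sp α * b) (s / 2)) = hM (2 * f) m (sp α * b) (s / 2) := by
    intro α hα s hs
    have h := h4 n t f m _ hm (hFB α hα) (s / 2).num (s / 2).den (s / 2).den_pos
      ((C9_den hM2 hL.odd hs).coprime_dvd_right hνM)
    have e : (((s / 2).num : ℚ) / ((s / 2).den : ℚ)) = s / 2 := Rat.num_div_den _
    rw [e] at h
    exact ⟨h.1, h.2.1⟩
  have hE : ∀ s : ℚ, s.den.Coprime M →
      io (etE P f k m b s) = ∑ α ∈ tm n t f, om ω α * hM (2 * f) m (sp α * b) (s / 2) := by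
    intro s hs
    unfold etE
    rw [map_sum]
    refine Finset.sum_congr rfl fun α hα => ?_
    rw [map_mul, hZ' α hα, (val α hα s hs).2]
  -- the limits
  have lim : ∀ s : ℚ, s.den.Coprime M →
      io (etE P f k m b (s / (M * s + 1))) = -io (etE P f k m b s) + C := by
    intro s hs
    obtain ⟨hne, hs'⟩ := hmob s hs
    have l1 : Tendsto (fun y : ℝ => ∑ α ∈ tm n t f, om ω α *
        ThM (2 * f) m (sp α * b) (((s : ℂ) + y * Complex.I) / 2)) (𝓝[>] 0)
        (𝓝 (io (etE P f k m b s))) := by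
      rw [hE s hs]
      refine tendsto_finsetSum _ fun α hα => Tendsto.const_mul _ ?_
      refine (((val α hα s hs).1).comp C9_half).congr fun y => ?_
      simp only [Function.comp]
      congr 1
      push_cast
      ring
    have l2 : Tendsto (fun y : ℝ => ∑ α ∈ tm n t f, om ω α *
        ThM (2 * f) m (sp α * b)
          (((s : ℂ) + y * Complex.I) / (M * ((s : ℂ) + y * Complex.I) + 1) / 2)) (𝓝[>] 0)
        (𝓝 (io (etE P f k m b (s / (M * s + 1))))) := by
      rw [hE _ hs']
      refine tendsto_finsetSum _ fun α hα => Tendsto.const_mul _ ?_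
      have h1 := hV n t f m _ hm (hFB α hα) 1 0 (2 * M) 1 (by ring) (s / 2) (by
        push_cast
        intro h0
        apply hne
        linear_combination h0)
      have e1 : mobQ 1 0 (2 * (M : ℤ)) 1 (s / 2) = s / (M * s + 1) / 2 := by
        unfold mobQ
        have h2 : (2 * (M : ℚ) * (s / 2) + 1) = M * s + 1 := by ring
        push_cast
        rw [h2]
        ring
      rw [e1] at h1
      refine (h1.comp C9_half).congr fun y => ?_
      simp only [Function.comp]
      congr 1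
      unfold mob
      have e2 : ((2 * (M : ℤ) : ℤ) : ℂ) * (((s / 2 : ℚ) : ℂ) + ((y / 2 : ℝ) : ℂ) * Complex.I) +
          ((1 : ℤ) : ℂ) = M * ((s : ℂ) + y * Complex.I) + 1 := by
        push_cast
        ring
      rw [e2]
      push_cast
      ring
    have l3 : Tendsto (fun y : ℝ => -∑ α ∈ tm n t f, om ω α *
        ThM (2 * f) m (sp α * b) (((s : ℂ) + y * Complex.I) / 2) + C) (𝓝[>] 0)
        (𝓝 (io (etE P f k m b (s / (M * s + 1))))) := by
      refine l2.congr' ?_
      filter_upwards [self_mem_nhdsWithin] with y hy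
      refine hC _ ?_
      have hy' : (0 : ℝ) < y := hy
      simpa using hy'
    exact tendsto_nhds_unique l3 (l1.neg.add_const C)
  have h0 : (0 : ℚ).den.Coprime M := by
    rw [Rat.den_zero]
    exact Nat.coprime_one_left M
  have e0 := lim 0 h0
  rw [zero_div] at e0
  refine ⟨(hmob r hr).1, ?_⟩
  apply io_inj
  rw [lim r hr, map_add, map_neg, map_mul, map_ofNat]
  linear_combination -e0

end Pool.Agent.DN.C
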