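import Pool.Agent.Lib.DN.C.Spec

/-!
# THEOREM DN, Part C, module Cnd: consequences of the conditions on `f`, `m`, `b`
-/

set_option autoImplicit false

noncomputable section

namespace Pool.Agent.DN.C

open Pool.Agent.MuZ Pool.Agent.FW NumberField
open Pool.Agent.DI (io ofC io_inj exists_io io_ofC ofC_io VP MP UP TP ex)

theorem tCnd (h2 : S_O2) (h6 : S_O6) (hL : S_L6) (hB : S_B1) : S_Cnd := by
  intro n t _ f m b hm hb
  obtain ⟨-, -, -, -, nmul, nzero, -, -⟩ := h2 n t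
  obtain ⟨pmul, pdv, pni, -, -⟩ := h6 n t
  have hf : 15 ≤ f := by
    have h1 := Nat.le_of_dvd hm.odd.pos hm.dvd
    exact h1
  have hmb : m * b ≠ ⊥ := by
    intro h
    rcases Ideal.mul_eq_bot.1 h with h | h
    · exact hm.ne h
    · exact hb.ne h
  have hνm : 0 < NI m := Nat.pos_of_ne_zero fun h => hm.ne ((nzero m).1 h)
  have hνb : 0 < NI b := Nat.pos_of_ne_zero fun h => hb.ne ((nzero b).1 h)
  have hb2 : PrI b 2 := ((pdv 2 f b).1 hb.cop).1
  have hbf : PrI b f := ((pdv 2 f b).1 hb.cop).2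
  obtain ⟨g, hg⟩ := hm.dvd
  have hm15 : PrI m 15 := by
    have h1 := hm.cop
    rw [hg] at h1
    exact ((pdv 15 g m).1 h1).1
  have hb15 : PrI b 15 := by
    have h1 := hbf
    rw [hg] at h1
    exact ((pdv 15 g b).1 h1).1
  have hm2f : PrI m (2 * f) := (pdv 2 f m).2 ⟨hm.two, hm.cop⟩
  have hmb2f : PrI (m * b) (2 * f) := (pmul (2 * f) m b).2 ⟨hm2f, hb.cop⟩
  have h2f : 0 < 2 * f := by omega
  have hfb : fr b ≠ 0 := ((hB n t b hb.ne).2.2.2.2.2 hb15).1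
  have hodd : ∀ a : Ideal (OO n t), PrI a 2 → Odd (NI a) := by
    intro a ha
    have h1 : (NI a).Coprime 2 := (pni 2 a two_pos).1 ha
    exact Nat.coprime_two_right.1 h1
  refine ⟨hf, hmb, hνm, hνb, nmul m b, hodd m hm.two, hodd b hb2, hm15, ⟨hb.ne, hb15⟩, hb2, hbf,
    hmb2f, (pni (2 * f) (m * b) h2f).1 hmb2f, ⟨hmb, hmb2f⟩, hfb, ?_⟩
  intro h
  have h1 := (hL.1 n t (m * b) (2 * f) hmb h2f hmb2f 1).1 (by
    rw [toC_one]
    exact h)
  obtain ⟨h3, -⟩ := (nat_dvd_iff (2 * f) (1 : OO n t)).1 h1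
  rw [QuadraticAlgebra.re_one] at h3
  have h4 := Int.le_of_dvd one_pos h3
  push_cast at h4
  omega

end Pool.Agent.DN.C
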