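import Pool.Agent.Lib.DN.C.Spec

/-!
# Theorem DN, part C, module CuS: cusps of `ThS`
-/

set_option autoImplicit false

open Filter Topology
open scoped Pointwise

noncomputable section

namespace Pool.Agent.DN.C

open Pool.Agent.MuZ Pool.Agent.FW NumberField
open Pool.Agent.DI (io ofC io_inj exists_io io_ofC ofC_io VP MP UP TP ex sqr sqr_sq kap)

theorem tCuS (hT : S_Tcc) (hE : S_Exp) (h2 : S_O2) : S_CuS := by
  intro n t _ f M m b hFM hFB hLv a b' c d hdet s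
  have hM : 0 < M := lt_of_lt_of_le (by norm_num) hLv.three
  have hf : 0 < 2 * f := Nat.mul_pos two_pos hFM.odd.pos
  have hM4 : 0 < 4 * M := by omega
  obtain ⟨-, -, -, -, n5, n6, -⟩ := h2 n t
  have hmb : m * b ≠ ⊥ := by
    intro h1
    rcases Ideal.mul_eq_bot.1 h1 with h3 | h3
    · exact hFM.ne h3
    · exact hFB.ne h3
  have hd : Dk n t * (2 * f) ^ 2 * (NI m * NI b) ^ 3 ∣ 4 * M := by
    have h1 := hLv.dvd
    unfold lev at h1
    rw [Finset.prod_singleton] at h1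
    have e : Dk n t * (2 * f) ^ 2 * (NI m * NI b) ^ 3 =
        4 * (Dk n t * f ^ 2 * (NI m * NI b) ^ 3) := by ring
    rw [e]
    exact Nat.mul_dvd_mul_left 4 h1
  have hm : 0 < NI m := Nat.pos_of_ne_zero fun h => hFM.ne ((n6 m).1 h)
  obtain ⟨k1, hk1⟩ := hT n t (2 * f) (m * b) s hf hmb a b' c d hdet 1 (4 * M) one_pos hM4 (by
    rw [one_mul, n5]
    exact hd)
  obtain ⟨k2, hk2⟩ := hT n t (2 * f) b s hf hFB.ne a b' c d hdet (NI m) (4 * M) hm hM4 (by
    refine dvd_trans ?_ hd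
    refine ⟨NI m ^ 2, ?_⟩
    ring)
  refine ⟨1 / fr b * k1 + -(NI m : ℂ) / fr b * k2, ?_⟩
  have h3 := hE.2.1 (4 * M) _ _ k1 k2 (1 / fr b) (-(NI m : ℂ) / fr b) hM4 hk1 hk2
  have e : (fun z => ThS (2 * f) m b s (mob a b' c d z)) = fun z =>
      1 / fr b * Tc (2 * f) (m * b) s ((1 : ℕ) * mob a b' c d z) +
        -(NI m : ℂ) / fr b * Tc (2 * f) b s (NI m * mob a b' c d z) := by
    funext z
    unfold ThS
    rw [Nat.cast_one, one_mul]
    ring
  rw [e]
  exact h3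

end Pool.Agent.DN.C
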