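import Pool.Agent.Lib.DN.C.Spec

/-!
# THEOREM DN, Part C, module C/Den: denominators

Author helper43, after the docstring of `S_Den`.
-/

set_option autoImplicit false

open Filter Topology
open scoped Pointwise

noncomputable section

namespace Pool.Agent.DN.C

open Pool.Agent.MuZ Pool.Agent.FW NumberField
open Pool.Agent.DI (io ofC io_inj exists_io io_ofC ofC_io VP MP UP TP ex sqr sqr_sq kap)

/-- The denominator of `n₁/m` divides `m`. -/
private lemma Den_dvd (n₁ m : ℤ) : (((n₁ : ℚ) / m).den : ℤ) ∣ m := by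
  rw [← Rat.divInt_eq_div]
  exact Rat.den_dvd n₁ m

private lemma Den_cop {x : ℤ} {M : ℕ} {n₁ : ℤ} (h : IsCoprime x (M : ℤ)) :
    ((n₁ : ℚ) / x : ℚ).den.Coprime M := by
  rw [← Nat.isCoprime_iff_coprime]
  exact h.of_isCoprime_of_dvd_left (Den_dvd n₁ x)

theorem tDen : S_Den := by
  rintro M a b' c d hM ⟨h1, c', rfl⟩
  have hda : IsCoprime d (M : ℤ) := ⟨a, -(b' * c'), by linear_combination h1⟩
  have had : IsCoprime a (M : ℤ) := ⟨d, -(b' * c'), by linear_combination h1⟩
  have hnu : ¬ IsUnit (M : ℤ) := by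
    intro h
    rw [Int.isUnit_iff] at h
    omega
  have h0 : ∀ x : ℤ, IsCoprime x (M : ℤ) → x ≠ 0 := by
    rintro x hx rfl
    exact hnu (isCoprime_zero_left.1 hx)
  refine ⟨h0 a had, h0 d hda, had, hda, ⟨b' * c', by linear_combination h1⟩, Den_cop hda, ?_⟩
  intro r hr
  have hq : IsCoprime (r.den : ℤ) (M : ℤ) := Nat.isCoprime_iff_coprime.2 hr
  have hq0 : (r.den : ℚ) ≠ 0 := by exact_mod_cast r.den_ne_zero
  have hdq : IsCoprime (M * c' * r.num + d * r.den) (M : ℤ) := by
    have e : (M : ℤ) * c' * r.num + d * r.den = d * r.den + M * (c' * r.num) := by ring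
    rw [e]
    exact (IsCoprime.add_mul_left_left_iff).2 (hda.mul_left hq)
  have hr' : (r.num : ℚ) = r * r.den := (Rat.mul_den_eq_num r).symm
  have hne := h0 _ hdq
  have hneq : ((M : ℚ) * c' * r.num + d * r.den) ≠ 0 := by exact_mod_cast hne
  have e1 : (((M * c' : ℤ) : ℚ) * r + d) = ((M : ℚ) * c' * r.num + d * r.den) / r.den := by
    rw [eq_div_iff hq0, hr']
    push_cast
    ring
  have e2 : ((a : ℚ) * r + b') = ((a : ℚ) * r.num + b' * r.den) / r.den := by
    rw [eq_div_iff hq0, hr']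
    ring
  refine ⟨?_, ?_⟩
  · rw [e1]
    exact div_ne_zero hneq hq0
  · rw [e1, e2, div_div_div_cancel_right₀ hq0]
    have h := Den_cop (n₁ := a * r.num + b' * r.den) hdq
    push_cast at h
    exact h

end Pool.Agent.DN.C
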