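import Pool.Agent.Lib.DN.C.SpecR

/-!
# THEOREM DN, Part C, module EpsA: the multiplier is `ε(d)`
-/

set_option autoImplicit false

open Filter Topology
open scoped Pointwise

noncomputable section

namespace Pool.Agent.DN.C

open Pool.Agent.MuZ Pool.Agent.FW NumberField
open Pool.Agent.DI (io ofC io_inj exists_io io_ofC ofC_io VP MP UP TP ex)

variable {n t : ℕ}

private lemma ex_add' (x y : ℂ) : ex (x + y) = ex x * ex y := by
  unfold ex
  rw [mul_add, Complex.exp_add]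

private lemma ex_int' (n' : ℤ) : ex (n' : ℂ) = 1 := by
  unfold ex
  have h : 2 * (Real.pi : ℂ) * Complex.I * (n' : ℂ) = (n' : ℂ) * (2 * Real.pi * Complex.I) := by ring
  rw [h]
  exact Complex.exp_int_mul_two_pi_mul_I n'

private lemma ex_congr' {x y : ℂ} (n' : ℤ) (h : x = y + n') : ex x = ex y := by
  rw [h, ex_add', ex_int', mul_one]

private lemma ex_one' {x : ℂ} (h : ex x = 1) : ∃ n' : ℤ, x = n' := by
  unfold ex at h
  obtain ⟨n', hn⟩ := Complex.exp_eq_one_iff.1 h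
  refine ⟨n', ?_⟩
  have h2 : (2 * (Real.pi : ℂ) * Complex.I) ≠ 0 := Complex.two_pi_I_ne_zero
  have h3 : (2 * (Real.pi : ℂ) * Complex.I) * x = (2 * (Real.pi : ℂ) * Complex.I) * n' := by
    rw [hn]; ring
  exact mul_left_cancel₀ h2 h3

private lemma ex_norm_real (x : ℝ) : ‖ex (x : ℂ)‖ = 1 := by
  unfold ex
  rw [Complex.norm_exp]
  simp

private lemma Dk_pos [SqN n t] : 0 < Dk n t := by
  have h1 := Dk_cast (n := n) (t := t)
  have h2 := hD3 (n := n) (t := t)
  have h3 : (0 : ℤ) < ((Dk n t : ℕ) : ℤ) := by rw [h1]; linarith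
  exact_mod_cast h3

private lemma Dk_ne [SqN n t] : ((Dk n t : ℕ) : ℂ) ≠ 0 := by
  exact_mod_cast (Dk_pos (n := n) (t := t)).ne'

private lemma rsum_norm (m : ℕ) (F : OO n t → ℂ) (C : ℝ) (h : ∀ v, ‖F v‖ ≤ C) :
    ‖rsum m F‖ ≤ (m : ℝ) ^ 2 * C := by
  unfold rsum
  have h1 : ∀ x ∈ Finset.range m, ‖∑ y ∈ Finset.range m, F ⟨(x : ℤ), (y : ℤ)⟩‖ ≤ (m : ℝ) * C := by
    intro x _
    refine (norm_sum_le _ _).trans ?_
    refine (Finset.sum_le_sum fun y _ => h _).trans ?_
    simp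
  refine (norm_sum_le _ _).trans ((Finset.sum_le_sum h1).trans ?_)
  simp only [Finset.sum_const, Finset.card_range, nsmul_eq_mul]
  exact le_of_eq (by ring)

private lemma rsum_mul' (m : ℕ) (x : ℂ) (F : OO n t → ℂ) :
    rsum m (fun v => x * F v) = x * rsum m F := by
  unfold rsum
  simp only [Finset.mul_sum]

private lemma rsum_mul_r (m : ℕ) (x : ℂ) (F : OO n t → ℂ) :
    rsum m (fun v => F v * x) = rsum m F * x := by
  unfold rsum
  simp only [Finset.sum_mul]

private lemma rsum_neg' (m : ℕ) (F : OO n t → ℂ) : rsum m (fun v => -F v) = -rsum m F := by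
  unfold rsum
  simp only [Finset.sum_neg_distrib]

private lemma rsum_sub' (m : ℕ) (F G : OO n t → ℂ) :
    rsum m (fun v => F v - G v) = rsum m F - rsum m G := by
  unfold rsum
  simp only [Finset.sum_sub_distrib]

/-- the trace -/
private def tr (v : OO n t) : ℤ := 2 * v.re + t * v.im

private lemma nm_per (g : ℤ) (v w : OO n t) :
    Nm (v + (g : OO n t) * w) = Nm v + g * (g * Nm w + tr (v * cjO w)) := by
  simp only [Nm, tr, cjO, re_mul, im_mul, QuadraticAlgebra.re_add, QuadraticAlgebra.im_add,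
    re_int, im_int]
  ring

private lemma im_per (g : ℤ) (v w u : OO n t) :
    ((v + (g : OO n t) * w) * cjO u).im = (v * cjO u).im + g * (w * cjO u).im := by
  simp only [cjO, re_mul, im_mul, QuadraticAlgebra.re_add, QuadraticAlgebra.im_add,
    re_int, im_int]
  ring

private lemma nm_two (p f : ℤ) (v w : OO n t) :
    Nm ((p : OO n t) * v + (f : OO n t) * w) = p * (p * Nm v + f * tr (v * cjO w)) + f ^ 2 * Nm w := by
  simp only [Nm, tr, cjO, re_mul, im_mul, QuadraticAlgebra.re_add, QuadraticAlgebra.im_add,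
    re_int, im_int]
  ring

/-- the summand of `B(u)` -/
private def FF (ρ : OO n t → ℂ) (f : ℕ) (a d : ℤ) (c : ℕ) (u v : OO n t) : ℂ :=
  ρ v * ex (a * Nm v / c - (v * cjO u).im / (f * c) + d * Nm u / (Dk n t * f ^ 2 * c))

variable {f c : ℕ} {a b d : ℤ} {ρ : OO n t → ℂ}

private lemma BB_eq (u : OO n t) : BB ρ f a d c u = rsum (f * c) (FF ρ f a d c u) := rfl

/-- the summand is periodic -/
private lemma FF_per (hf : 0 < f) (hc : 0 < c) (hρ : PerO f ρ) (u : OO n t) :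
    PerO (f * c) (FF ρ f a d c u) := by
  intro v w
  have hf' : (f : ℂ) ≠ 0 := by exact_mod_cast hf.ne'
  have hc' : (c : ℂ) ≠ 0 := by exact_mod_cast hc.ne'
  unfold FF
  have h1 : ρ (v + ((f * c : ℕ) : OO n t) * w) = ρ v := by
    have h2 : ((f * c : ℕ) : OO n t) * w = (f : OO n t) * ((c : OO n t) * w) := by push_cast; ring
    rw [h2, hρ]
  have e0 : ((f * c : ℕ) : OO n t) = (((f * c : ℕ) : ℤ) : OO n t) := by push_cast; ring
  have h3 : Nm (v + ((f * c : ℕ) : OO n t) * w) = Nm v + ((f * c : ℕ) : ℤ) *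
      (((f * c : ℕ) : ℤ) * Nm w + tr (v * cjO w)) := by
    rw [e0]; exact nm_per _ v w
  have h4 : ((v + ((f * c : ℕ) : OO n t) * w) * cjO u).im =
      (v * cjO u).im + ((f * c : ℕ) : ℤ) * (w * cjO u).im := by
    rw [e0]; exact im_per _ v w u
  rw [h1, h3, h4]
  congr 1
  have h5 : (a * ((Nm v + ((f * c : ℕ) : ℤ) * (((f * c : ℕ) : ℤ) * Nm w + tr (v * cjO w)) : ℤ) : ℂ) / c
      - (((v * cjO u).im + ((f * c : ℕ) : ℤ) * (w * cjO u).im : ℤ) : ℂ) / (f * c)) =
      (a * (Nm v : ℂ) / c - ((v * cjO u).im : ℂ) / (f * c)) +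
      ((a * f * (((f * c : ℕ) : ℤ) * Nm w + tr (v * cjO w)) - (w * cjO u).im : ℤ) : ℂ) := by
    push_cast
    field_simp
    ring
  refine ex_congr' (a * f * (((f * c : ℕ) : ℤ) * Nm w + tr (v * cjO w)) - (w * cjO u).im) ?_
  rw [h5]
  ring

private lemma BB_neg (hR : S_Res) [SqN n t] (hf : 0 < f) (hc : 0 < c) (hρ : PerO f ρ)
    (hodd : OddO ρ) (u : OO n t) : BB ρ f a d c (-u) = -BB ρ f a d c u := by
  rw [BB_eq, BB_eq, ← (hR n t).2.2.1 (f * c) _ (Nat.mul_pos hf hc) (FF_per hf hc hρ (-u)) (-1)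
    (isCoprime_one_left.neg_left), ← rsum_neg']
  congr 1
  funext v
  unfold FF
  have h1 : (((-1 : ℤ) : OO n t) * v) = -v := by push_cast; ring
  have h4 : ((-v) * cjO (-u)).im = (v * cjO u).im := by
    rw [cjO_neg, neg_mul_neg]
  rw [h1, Nm_neg, Nm_neg, h4, hodd]
  ring

private lemma BB_bd (hS : S_Sum) [SqN n t] (hf : 0 < f) (hρ : PerO f ρ) (a d : ℤ) (c : ℕ) :
    ∃ C : ℝ, 0 ≤ C ∧ ∀ u, ‖BB ρ f a d c u‖ ≤ C := by
  obtain ⟨C, hC, h⟩ := (hS n t).2.2 f ρ hf hρ
  refine ⟨((f * c : ℕ) : ℝ) ^ 2 * C, by positivity, fun u => ?_⟩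
  rw [BB_eq]
  refine rsum_norm _ _ _ fun v => ?_
  unfold FF
  have h1 : (a * Nm v / c - (v * cjO u).im / (f * c) + d * Nm u / (Dk n t * f ^ 2 * c) : ℂ) =
      ((a * Nm v / c - (v * cjO u).im / (f * c) + d * Nm u / (Dk n t * f ^ 2 * c) : ℝ) : ℂ) := by
    push_cast; rfl
  rw [norm_mul, h1, ex_norm_real, mul_one]
  exact h v

/-- an indicator sum -/
private lemma rsum_zero (hf : 0 < f) (G : OO n t → ℂ) [DecidablePred fun v : OO n t => (f : OO n t) ∣ v] :
    rsum f (fun v => if (f : OO n t) ∣ v then G v else 0) = G 0 := by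
  unfold rsum
  have key : ∀ x y : ℕ, x < f → y < f → (f : OO n t) ∣ (⟨(x : ℤ), (y : ℤ)⟩ : OO n t) →
      x = 0 ∧ y = 0 := by
    intro x y hx hy hw
    obtain ⟨h3, h4⟩ := (nat_dvd_iff f _).1 hw
    change (f : ℤ) ∣ (x : ℤ) at h3
    change (f : ℤ) ∣ (y : ℤ) at h4
    exact ⟨Nat.eq_zero_of_dvd_of_lt (by exact_mod_cast h3) hx,
      Nat.eq_zero_of_dvd_of_lt (by exact_mod_cast h4) hy⟩
  rw [Finset.sum_eq_single 0, Finset.sum_eq_single 0]
  · have h0 : (⟨((0 : ℕ) : ℤ), ((0 : ℕ) : ℤ)⟩ : OO n t) = 0 := rfl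
    rw [h0]
    exact if_pos (dvd_zero _)
  · intro y hy hy0
    exact if_neg fun h => hy0 (key 0 y hf (Finset.mem_range.1 hy) h).2
  · intro h
    exact absurd (Finset.mem_range.2 hf) h
  · intro x hx hx0
    refine Finset.sum_eq_zero fun y hy => ?_
    exact if_neg fun h => hx0 (key x y (Finset.mem_range.1 hx) (Finset.mem_range.1 hy) h).1
  · intro h
    exact absurd (Finset.mem_range.2 hf) h

private lemma rsum_ind (hR : S_Res) [SqN n t] (hf : 0 < f) (G : OO n t → ℂ) (hG : PerO f G) (w : OO n t)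
    [DecidablePred fun v : OO n t => (f : OO n t) ∣ v] :
    rsum f (fun v => if (f : OO n t) ∣ v - w then G v else 0) = G w := by
  have hper : PerO f (fun v => if (f : OO n t) ∣ v - w then G v else 0) := by
    intro v u
    have h1 : (f : OO n t) ∣ v + f * u - w ↔ (f : OO n t) ∣ v - w := by
      have : v + f * u - w = (v - w) + f * u := by ring
      rw [this]
      exact dvd_add_left (Dvd.intro _ rfl)
    by_cases h : (f : OO n t) ∣ v - w
    · show (if (f : OO n t) ∣ v + f * u - w then G (v + f * u) else 0) =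
        if (f : OO n t) ∣ v - w then G v else 0
      rw [if_pos h, if_pos (h1.2 h), hG]
    · show (if (f : OO n t) ∣ v + f * u - w then G (v + f * u) else 0) =
        if (f : OO n t) ∣ v - w then G v else 0
      rw [if_neg h, if_neg fun h' => h (h1.1 h')]
  rw [← (hR n t).1 f _ hf hper w]
  have h2 : (fun v => if (f : OO n t) ∣ v + w - w then G (v + w) else 0) =
      fun v => if (f : OO n t) ∣ v then G (v + w) else 0 := by
    funext v
    rw [add_sub_cancel_right]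
  rw [h2, rsum_zero hf (fun v => G (v + w)), zero_add]

private lemma norm_toC [SqN n t] (u : OO n t) : ‖toC (cjO u)‖ ≤ (Nm u : ℝ) + 1 := by
  have h1 := Nm_norm (cjO u)
  rw [Nm_cjO] at h1
  nlinarith [sq_nonneg (‖toC (cjO u)‖ - 1), norm_nonneg (toC (cjO u))]

private lemma norm_ex (hS : S_Sum) [SqN n t] (f : ℕ) (z : ℂ) (u : OO n t) :
    ‖ex (Nm u * z / (Dk n t * f ^ 2))‖ =
      Real.exp (-(2 * Real.pi * z.im / (Dk n t * f ^ 2)) * Nm u) := by
  rw [(hS n t).2.1]
  have h1 : (Nm u * z / (Dk n t * f ^ 2) : ℂ) = ((Nm u / (Dk n t * f ^ 2) : ℝ) : ℂ) * z := by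
    push_cast; ring
  rw [h1, Complex.im_ofReal_mul]
  congr 1
  ring

private lemma summ (hS : S_Sum) [SqN n t] (hf : 0 < f) {z : ℂ} (hz : 0 < z.im) (β : OO n t → ℂ)
    (C : ℝ) (hC : ∀ u, ‖β u‖ ≤ C) :
    Summable fun u : OO n t => toC (cjO u) * ex (Nm u * z / (Dk n t * f ^ 2)) * β u := by
  have hf' : (0 : ℝ) < f := by exact_mod_cast hf
  have hD : (0 : ℝ) < (Dk n t : ℝ) := by exact_mod_cast Dk_pos (n := n) (t := t)
  have ht : 0 < 2 * Real.pi * z.im / ((Dk n t : ℝ) * (f : ℝ) ^ 2) := by positivity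
  have h1 := ((hS n t).1 _ 1 ht).mul_right C
  refine Summable.of_norm_bounded h1 fun u => ?_
  have hC0 : 0 ≤ C := (norm_nonneg _).trans (hC u)
  rw [norm_mul, norm_mul, norm_ex hS, pow_one]
  have h2 := norm_toC u
  have h3 := hC u
  have h4 : 0 ≤ Real.exp (-(2 * Real.pi * z.im / ((Dk n t : ℝ) * (f : ℝ) ^ 2)) * Nm u) :=
    (Real.exp_pos _).le
  exact mul_le_mul (mul_le_mul_of_nonneg_right h2 h4) h3 (norm_nonneg _)
    (mul_nonneg ((norm_nonneg _).trans h2) h4)

/-- the function `ρ(v) = e(im v/f) - e(-im v/f)` -/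
private def rr (n t f : ℕ) (v : OO n t) : ℂ := ex ((v.im : ℂ) / f) - ex (-(v.im : ℂ) / f)

private lemma rr_odd (f : ℕ) : OddO (rr n t f) := by
  intro v
  unfold rr
  rw [QuadraticAlgebra.im_neg]
  push_cast
  rw [neg_neg]
  ring

private lemma rr_per {f : ℕ} (hf : 0 < f) : PerO f (rr n t f) := by
  intro v u
  have hf' : (f : ℂ) ≠ 0 := by exact_mod_cast hf.ne'
  have h1 : (v + (f : OO n t) * u).im = v.im + f * u.im := by
    simp only [QuadraticAlgebra.im_add, im_mul, re_nat, im_nat]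
    ring
  unfold rr
  rw [h1]
  congr 1
  · refine ex_congr' u.im ?_
    push_cast
    field_simp
  · refine ex_congr' (-u.im) ?_
    push_cast
    field_simp
    ring

private lemma tw_per {ρ : OO n t → ℂ} (hρ : PerO f ρ) (w : OO n t) : PerO f (tw ρ w) := by
  intro v u
  unfold tw
  have h1 : w * (v + f * u) = w * v + f * (w * u) := by ring
  rw [h1, hρ]

private lemma tw_odd {ρ : OO n t → ℂ} (hρ : OddO ρ) (w : OO n t) : OddO (tw ρ w) := by
  intro v
  unfold tw
  rw [mul_neg, hρ]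

/-- `p α` is divisible by `f` iff `α` is -/
private lemma dvd_unit {f p : ℕ} (hcop : Nat.Coprime f p) (w : OO n t) :
    (f : OO n t) ∣ (p : OO n t) * w ↔ (f : OO n t) ∣ w := by
  constructor
  · intro h
    have h1 : IsCoprime (f : OO n t) (p : OO n t) := by
      have h2 : IsCoprime (f : ℤ) (p : ℤ) := Nat.isCoprime_iff_coprime.2 hcop
      have h3 := h2.map (Int.castRingHom (OO n t))
      simpa using h3
    exact h1.dvd_of_dvd_mul_left h
  · intro h
    exact Dvd.dvd.mul_left h _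

/-- the equation between the two expansions -/
private lemma two_exp (hG : S_Gen) [SqN n t] {f : ℕ} {a b c : ℤ} {p : ℕ} (hf : 0 < f) (hp : 0 < p)
    (hab : a * p - b * c = 1) {κ : ℂ}
    {ρ : OO n t → ℂ} (hodd : OddO ρ) (hρ : PerO f ρ)
    (hκ : ∀ ρ : OO n t → ℂ, OddO ρ → PerO f ρ → ∀ z : ℂ, 0 < z.im →
      Gt ρ (mob a b c p z) = κ * ((c : ℂ) * z + p) ^ 2 * Gt (tw ρ ((p : ℤ) : OO n t)) z)
    {z : ℂ} (hz : 0 < z.im) :
    ∑' u : OO n t, toC (cjO u) * ex (Nm u * z / (Dk n t * f ^ 2)) * BB ρ f b (-c) p u =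
      p * κ * ∑' u : OO n t, toC (cjO u) * ex (Nm u * z / (Dk n t * f ^ 2)) *
        BB (tw ρ ((p : ℤ) : OO n t)) f 0 0 1 u := by
  have hf' : (f : ℂ) ≠ 0 := by exact_mod_cast hf.ne'
  have hp' : (p : ℂ) ≠ 0 := by exact_mod_cast hp.ne'
  have hD' := Dk_ne (n := n) (t := t)
  have hz0 : z ≠ 0 := by
    rintro rfl
    simp at hz
  have hz' : 0 < (-1 / z).im := by
    have h1 : (-1 / z).im = z.im / Complex.normSq z := by
      rw [neg_div, one_div, Complex.neg_im, Complex.inv_im]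
      ring
    rw [h1]
    exact div_pos hz (Complex.normSq_pos.2 hz0)
  have hpz : (p : ℂ) * z - c ≠ 0 := by
    intro h
    have h1 := congrArg Complex.im h
    simp only [Complex.sub_im, Complex.mul_im, Complex.natCast_re, Complex.natCast_im, zero_mul,
      add_zero, Complex.intCast_im, sub_zero, Complex.zero_im] at h1
    rcases mul_eq_zero.1 h1 with h2 | h2
    · exact hp.ne' (by exact_mod_cast h2)
    · exact hz.ne' h2
  have e1 : mob a b c p (-1 / z) = mob b (-a) p (-c) z := by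
    unfold mob
    have h1 : (c : ℂ) * (-1 / z) + ((p : ℤ) : ℂ) = ((p : ℂ) * z - c) / z := by
      push_cast; field_simp; ring
    have h2 : (a : ℂ) * (-1 / z) + b = (b * z - a) / z := by
      field_simp; ring
    rw [h1, h2, div_div_div_cancel_right₀ hz0]
    push_cast
    rw [← sub_eq_add_neg, ← sub_eq_add_neg]
  have e2 : (-1 / z) = mob 0 (-1) ((1 : ℕ) : ℤ) 0 z := by
    unfold mob; push_cast; simp
  have h1 := hG n t f p b (-a) (-c) ρ z hf hp hρ (by linarith) hz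
  have h2 := hκ ρ hodd hρ (-1 / z) hz'
  have h3 := hG n t f 1 0 (-1) 0 (tw ρ ((p : ℤ) : OO n t)) z hf one_pos (tw_per hρ _) (by norm_num) hz
  rw [e1] at h2
  rw [h2] at h1
  rw [← e2] at h3
  rw [h3] at h1
  have h4 : (c : ℂ) * (-1 / z) + p = ((p : ℂ) * z - c) / z := by
    field_simp; ring
  rw [h4] at h1
  set S1 := ∑' u : OO n t, toC (cjO u) * ex (Nm u * z / (Dk n t * f ^ 2)) * BB ρ f b (-c) p u
  set S2 := ∑' u : OO n t, toC (cjO u) * ex (Nm u * z / (Dk n t * f ^ 2)) *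
        BB (tw ρ ((p : ℤ) : OO n t)) f 0 0 1 u
  have h5 : z ^ 2 * ((((p : ℂ) * z - c) ^ 2) * S1) =
      z ^ 2 * ((((p : ℂ) * z - c) ^ 2) * (p * κ * S2)) := by
    push_cast at h1
    field_simp at h1
    have h6 : (p : ℂ) * z + -(c : ℂ) = (p : ℂ) * z - c := by ring
    rw [h6] at h1
    linear_combination h1
  exact mul_left_cancel₀ (pow_ne_zero 2 hpz) (mul_left_cancel₀ (pow_ne_zero 2 hz0) h5)

/-- the values at `p e` -/
private lemma val_one (hR : S_Res) (hGa : S_Gau) [SqN n t] {f : ℕ} {a b c : ℤ} {p : ℕ} (hf : 0 < f)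
    (hpp : p.Prime) (hpD : p ≠ 2) (hj : jacobiSym (-(Dk n t : ℤ)) p = -1) (hcop : Nat.Coprime f p)
    (hab : a * p - b * c = 1) (hdvd : (Dk n t * f ^ 2 : ℤ) ∣ c) {ρ : OO n t → ℂ} (hρ : PerO f ρ)
    (e : OO n t) (he : Nm e = 1) :
    BB ρ f b (-c) p ((p : OO n t) * e) =
      -(p : ℂ) * rsum f (fun α : OO n t => ρ ((p : OO n t) * α) *
        ex (-(p * (α * cjO e).im) / f)) := by
  have hf' : (f : ℂ) ≠ 0 := by exact_mod_cast hf.ne'
  have hp' : (p : ℂ) ≠ 0 := by exact_mod_cast hpp.ne_zero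
  have hD' := Dk_ne (n := n) (t := t)
  obtain ⟨j, hk⟩ := hdvd
  have hkb : ¬ (p : ℤ) ∣ b * f ^ 2 := by
    intro h
    rcases (Nat.prime_iff_prime_int.1 hpp).dvd_or_dvd h with h1 | h1
    · have h2 : (p : ℤ) ∣ 1 := by
        rw [← hab]
        exact dvd_sub (Dvd.intro_left _ rfl) (Dvd.dvd.mul_right h1 _)
      exact hpp.one_lt.ne' (by exact_mod_cast Int.eq_one_of_dvd_one (by positivity) h2)
    · have h2 := (Nat.prime_iff_prime_int.1 hpp).dvd_of_dvd_pow h1
      have h3 : p ∣ f := by exact_mod_cast h2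
      have h4 : p ∣ Nat.gcd f p := Nat.dvd_gcd h3 dvd_rfl
      rw [Nat.Coprime.gcd_eq_one hcop] at h4
      exact hpp.one_lt.ne' (Nat.dvd_one.1 h4)
  rw [BB_eq, (hR n t).2.2.2.2 f p _ hf hpp.pos hcop (FF_per hf hpp.pos hρ _)]
  have key : (fun α : OO n t => rsum p fun β => FF ρ f b (-c) p ((p : OO n t) * e)
      ((p : OO n t) * α + (f : OO n t) * β)) =
      fun α : OO n t => (ρ ((p : OO n t) * α) * ex (-(p * (α * cjO e).im) / f)) * (-(p : ℂ)) := by
    funext α
    rw [← (hGa n t p hpp hpD hj).1 (b * f ^ 2) hkb, ← rsum_mul']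
    congr 1
    funext β
    unfold FF
    rw [hρ, mul_assoc (ρ ((p : OO n t) * α)), ← ex_add']
    congr 1
    have h1 : Nm ((p : OO n t) * α + (f : OO n t) * β) =
        p * (p * Nm α + f * tr (α * cjO β)) + f ^ 2 * Nm β := by
      have := nm_two p f α β
      simpa using this
    have h2 : (((p : OO n t) * α + (f : OO n t) * β) * cjO ((p : OO n t) * e)).im =
        p * (p * (α * cjO e).im + f * (β * cjO e).im) := by
      simp only [cjO, re_mul, im_mul, QuadraticAlgebra.re_add, QuadraticAlgebra.im_add,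
        re_nat, im_nat]
      ring
    have h4 : Nm ((p : OO n t) * e) = (p : ℤ) ^ 2 := by
      rw [Nm_mul, he, Nm_nat, mul_one]
    rw [h1, h2, h4]
    refine ex_congr' (b * (p * Nm α + f * tr (α * cjO β)) - (β * cjO e).im - j * p) ?_
    rw [hk]
    push_cast
    field_simp
    ring
  rw [key, rsum_mul_r]
  ring

private lemma val_two {f p : ℕ} (hf : 0 < f) {ρ : OO n t → ℂ} (e : OO n t) :
    BB (tw ρ ((p : ℤ) : OO n t)) f 0 0 1 ((p : OO n t) * e) =
      rsum f (fun α : OO n t => ρ ((p : OO n t) * α) * ex (-(p * (α * cjO e).im) / f)) := by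
  have hf' : (f : ℂ) ≠ 0 := by exact_mod_cast hf.ne'
  unfold BB
  rw [mul_one]
  congr 1
  funext α
  unfold tw
  have h2 : (α * cjO ((p : OO n t) * e)).im = p * (α * cjO e).im := by
    simp only [cjO, re_mul, im_mul, re_nat, im_nat]
    ring
  rw [h2]
  have h3 : ((p : ℤ) : OO n t) = (p : OO n t) := by push_cast; rfl
  rw [h3]
  congr 2
  push_cast
  ring

/-- the finite sum as a difference -/
private lemma val_rr {f p : ℕ} (e : OO n t) :
    rsum f (fun α : OO n t => rr n t f ((p : OO n t) * α) * ex (-(p * (α * cjO e).im) / f)) =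
      rsum f (fun α : OO n t => ex ((cjO α * ((p : OO n t) * (e - 1))).im / f)) -
        rsum f (fun α : OO n t => ex ((cjO α * ((p : OO n t) * (e + 1))).im / f)) := by
  rw [← rsum_sub']
  congr 1
  funext α
  unfold rr
  rw [sub_mul, ← ex_add', ← ex_add']
  congr 1
  · congr 1
    rw [← add_div]
    congr 1
    have h1 : (cjO α * ((p : OO n t) * (e - 1))).im =
        ((p : OO n t) * α).im + -(p * (α * cjO e).im) := by
      simp only [cjO, re_mul, im_mul, re_nat, im_nat, QuadraticAlgebra.re_sub,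
        QuadraticAlgebra.im_sub, QuadraticAlgebra.re_one, QuadraticAlgebra.im_one]
      ring
    rw [h1]
    push_cast
    ring
  · congr 1
    rw [← add_div]
    congr 1
    have h1 : (cjO α * ((p : OO n t) * (e + 1))).im =
        -((p : OO n t) * α).im + -(p * (α * cjO e).im) := by
      simp only [cjO, re_mul, im_mul, re_nat, im_nat, QuadraticAlgebra.re_add,
        QuadraticAlgebra.im_add, QuadraticAlgebra.re_one, QuadraticAlgebra.im_one]
      ring
    rw [h1]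
    push_cast
    ring

private lemma Nm_one1 : Nm (1 : OO n t) = 1 := by
  have h := Nm_nat (n := n) (t := t) 1
  simpa using h

/-- a unit congruent to `1` -/
private lemma unit_one [SqN n t] {f : ℕ} (h3 : 3 ≤ f) {e : OO n t} (he : Nm e = 1)
    (h : (f : OO n t) ∣ e - 1) : e = 1 := by
  obtain ⟨⟨x, hx⟩, ⟨y, hy⟩⟩ := (nat_dvd_iff f _).1 h
  rw [QuadraticAlgebra.re_sub, QuadraticAlgebra.re_one] at hx
  rw [QuadraticAlgebra.im_sub, QuadraticAlgebra.im_one, sub_zero] at hy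
  have hD := hD3 (n := n) (t := t)
  have h3' : (3 : ℤ) ≤ f := by exact_mod_cast h3
  have h4 : (2 * e.re + t * e.im) ^ 2 + (4 * n - (t : ℤ) ^ 2) * e.im ^ 2 = 4 := by
    unfold Nm at he
    linear_combination 4 * he
  have h5 : y = 0 := by
    by_contra hy0
    have h6 : 1 ≤ y ^ 2 := by
      have := sq_pos_of_ne_zero hy0 (R := ℤ)
      omega
    have h7 : 9 ≤ e.im ^ 2 := by
      rw [hy, mul_pow]
      nlinarith
    nlinarith [sq_nonneg (2 * e.re + t * e.im)]
  have h8 : e.im = 0 := by rw [hy, h5, mul_zero]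
  have h9 : (2 * e.re) ^ 2 = 4 := by
    rw [h8] at h4
    linear_combination h4
  have h10 : (e.re - 1) * (e.re + 1) = 0 := by nlinarith
  have h11 : e.re = 1 := by
    rcases mul_eq_zero.1 h10 with h | h
    · omega
    · exfalso
      have h12 : (f : ℤ) * x = -2 := by omega
      have h13 : (f : ℤ) ∣ 2 := ⟨-x, by linarith⟩
      have := Int.le_of_dvd two_pos h13
      omega
  apply QuadraticAlgebra.ext
  · rw [h11]; rfl
  · rw [h8]; rfl

private lemma val_ne [SqN n t] (hR : S_Res) {f p : ℕ} (h3 : 3 ≤ f) (hcop : Nat.Coprime f p)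
    {e : OO n t} (he : Nm e = 1) (he1 : e ≠ 1) (he2 : e ≠ -1) :
    rsum f (fun α : OO n t => rr n t f ((p : OO n t) * α) * ex (-(p * (α * cjO e).im) / f)) = 0 := by
  have hf : 0 < f := by omega
  rw [val_rr, ((hR n t).2.2.2.1 f _ hf).2, ((hR n t).2.2.2.1 f _ hf).2, sub_zero]
  · rw [dvd_unit hcop]
    intro h
    refine he2 ?_
    have h1 : (f : OO n t) ∣ (-e) - 1 := by
      have h2 : -e - 1 = -(e + 1) := by ring
      rw [h2]
      exact (dvd_neg).2 h
    have h2 := unit_one h3 (by rw [Nm_neg, he]) h1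
    rw [← h2, neg_neg]
  · rw [dvd_unit hcop]
    exact fun h => he1 (unit_one h3 he h)

private lemma val_ty [SqN n t] (hR : S_Res) {f p : ℕ} (h3 : 3 ≤ f) (hcop : Nat.Coprime f p) :
    rsum f (fun α : OO n t => rr n t f ((p : OO n t) * α) *
      ex (-(p * (α * cjO (1 : OO n t)).im) / f)) = (f : ℂ) ^ 2 := by
  have hf : 0 < f := by omega
  rw [val_rr, ((hR n t).2.2.2.1 f _ hf).1, ((hR n t).2.2.2.1 f _ hf).2, sub_zero]
  · rw [dvd_unit hcop]
    intro h
    have h1 : (f : OO n t) ∣ (-1) - 1 := by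
      have h2 : (-1 : OO n t) - 1 = -(1 + 1) := by ring
      rw [h2]
      exact (dvd_neg).2 h
    have h2 := unit_one h3 (e := (-1 : OO n t)) (by rw [Nm_neg, Nm_one1]) h1
    have h4 := congrArg QuadraticAlgebra.re h2
    rw [QuadraticAlgebra.re_neg, QuadraticAlgebra.re_one] at h4
    omega
  · rw [sub_self, mul_zero]
    exact dvd_zero _

/-- the box containing the elements of norm `j` -/
private lemma box [SqN n t] (j : ℤ) : ∃ T : Finset (OO n t), ∀ u : OO n t, u ∈ T ↔ Nm u = j := by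
  classical
  let B : Finset (OO n t) := ((Finset.Icc (-(4 * j)) (4 * j)) ×ˢ (Finset.Icc (-(4 * j)) (4 * j))).image
    fun q => (⟨q.1, q.2⟩ : OO n t)
  refine ⟨B.filter fun u => Nm u = j, fun u => ?_⟩
  rw [Finset.mem_filter]
  refine ⟨fun h => h.2, fun h => ⟨?_, h⟩⟩
  have hD := hD3 (n := n) (t := t)
  have hN := four_Nm u
  rw [h] at hN
  have h1 : 3 * u.im ^ 2 ≤ 4 * j := by
    nlinarith [sq_nonneg (2 * u.re + t * u.im), sq_nonneg u.im]
  have h2 : u.re ^ 2 ≤ 4 * j := by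
    have ht : (t : ℤ) ^ 2 ≤ 1 := by
      rcases (inferInstance : SqN n t).out with h | h
      · rw [h.1]; norm_num
      · rw [h.1]; norm_num
    nlinarith [sq_nonneg (2 * u.re + t * u.im + t * u.im),
      mul_nonneg (sub_nonneg.2 ht) (sq_nonneg u.im), mul_nonneg (sub_nonneg.2 hD) (sq_nonneg u.im)]
  have hj : 0 ≤ j := by nlinarith [sq_nonneg u.im]
  rw [Finset.mem_image]
  refine ⟨(u.re, u.im), ?_, rfl⟩
  rw [Finset.mem_product, Finset.mem_Icc, Finset.mem_Icc]
  refine ⟨⟨?_, ?_⟩, ⟨?_, ?_⟩⟩ <;> nlinarith [sq_nonneg (u.re - 1), sq_nonneg (u.re + 1),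
    sq_nonneg (u.im - 1), sq_nonneg (u.im + 1)]

private theorem caseA (hS : S_Sum) (hR : S_Res) (hGa : S_Gau) (hU : S_Uni)
    (hG : S_Gen) : S_EpsA := by
  intro n t _ f a b c p h3f hpp hpD hj hab hdvd κ hκ
  have hf : 0 < f := by omega
  have hDp := Dk_pos (n := n) (t := t)
  have hcop : Nat.Coprime f p := by
    rw [Nat.coprime_comm, Nat.Prime.coprime_iff_not_dvd hpp]
    intro h
    have h1 : (p : ℤ) ∣ c := by
      refine dvd_trans ?_ hdvd
      have h2 : (p : ℤ) ∣ (f : ℤ) := by exact_mod_cast h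
      exact Dvd.dvd.mul_left (dvd_pow h2 two_ne_zero) _
    have h2 : (p : ℤ) ∣ 1 := by
      rw [← hab]
      exact dvd_sub (Dvd.intro_left _ rfl) (Dvd.dvd.mul_left h1 _)
    exact hpp.one_lt.ne' (by exact_mod_cast Int.eq_one_of_dvd_one (by positivity) h2)
  have hodd := rr_odd (n := n) (t := t) f
  have hρ := rr_per (n := n) (t := t) hf
  have hρ' := tw_per hρ ((p : ℤ) : OO n t)
  have hodd' := tw_odd hodd ((p : ℤ) : OO n t)
  obtain ⟨C1, hC1, hb1⟩ := BB_bd hS hf hρ b (-c) p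
  obtain ⟨C2, hC2, hb2⟩ := BB_bd hS hf hρ' 0 0 1
  have hzero : ∀ z : ℂ, 0 < z.im → ∑' u : OO n t, (toC (cjO u) * (BB (rr n t f) f b (-c) p u -
      p * κ * BB (tw (rr n t f) ((p : ℤ) : OO n t)) f 0 0 1 u)) *
        ex (Nm u * z / ((Dk n t * f ^ 2 : ℕ) : ℂ)) = 0 := by
    intro z hz
    have h1 := two_exp hG hf hpp.pos hab hodd hρ hκ hz
    have s1 := summ hS hf hz _ C1 hb1
    have s2 := summ hS hf hz _ C2 hb2
    have e : (fun u : OO n t => (toC (cjO u) * (BB (rr n t f) f b (-c) p u -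
        p * κ * BB (tw (rr n t f) ((p : ℤ) : OO n t)) f 0 0 1 u)) *
          ex (Nm u * z / ((Dk n t * f ^ 2 : ℕ) : ℂ))) =
        fun u => toC (cjO u) * ex (Nm u * z / (Dk n t * f ^ 2)) * BB (rr n t f) f b (-c) p u -
          p * κ * (toC (cjO u) * ex (Nm u * z / (Dk n t * f ^ 2)) *
            BB (tw (rr n t f) ((p : ℤ) : OO n t)) f 0 0 1 u) := by
      funext u
      push_cast
      ring
    rw [e, (s1.tsum_sub (s2.mul_left (p * κ))), tsum_mul_left, h1, sub_self]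
  have hbound : ∀ u : OO n t, ‖toC (cjO u) * (BB (rr n t f) f b (-c) p u -
      p * κ * BB (tw (rr n t f) ((p : ℤ) : OO n t)) f 0 0 1 u)‖ ≤
        (C1 + ‖(p : ℂ) * κ‖ * C2) * (1 + Nm u) := by
    intro u
    rw [norm_mul, mul_comm]
    have h1 := norm_toC u
    have h2 : ‖BB (rr n t f) f b (-c) p u -
      p * κ * BB (tw (rr n t f) ((p : ℤ) : OO n t)) f 0 0 1 u‖ ≤ C1 + ‖(p : ℂ) * κ‖ * C2 := by
      refine (norm_sub_le _ _).trans (add_le_add (hb1 u) ?_)
      rw [norm_mul]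
      exact mul_le_mul_of_nonneg_left (hb2 u) (norm_nonneg _)
    rw [add_comm (1 : ℝ)]
    exact mul_le_mul h2 h1 (norm_nonneg _) (by positivity)
  have hp0 : (p : OO n t) ≠ -(p : OO n t) := by
    intro h
    have h1 := congrArg QuadraticAlgebra.re h
    rw [QuadraticAlgebra.re_neg, re_nat] at h1
    have := hpp.pos
    omega
  have hNp : Nm (p : OO n t) = (p : ℤ) ^ 2 := Nm_nat p
  have hNp' : Nm (-(p : OO n t)) = (p : ℤ) ^ 2 := by rw [Nm_neg, hNp]
  obtain ⟨T, hT⟩ := box (n := n) (t := t) ((p : ℤ) ^ 2)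
  have hsum := hU n t (Dk n t * f ^ 2) _ _ (by positivity) hbound hzero ((p : ℤ) ^ 2) T hT
  have hsub : ({(p : OO n t), -(p : OO n t)} : Finset (OO n t)) ⊆ T := by
    intro u hu
    rw [Finset.mem_insert, Finset.mem_singleton] at hu
    rcases hu with h | h
    · rw [hT, h, hNp]
    · rw [hT, h, hNp']
  have hvan : ∀ u ∈ T, u ∉ ({(p : OO n t), -(p : OO n t)} : Finset (OO n t)) →
      toC (cjO u) * (BB (rr n t f) f b (-c) p u -
        p * κ * BB (tw (rr n t f) ((p : ℤ) : OO n t)) f 0 0 1 u) = 0 := by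
    intro u hu hu'
    obtain ⟨e, he, hue⟩ := (hGa n t p hpp hpD hj).2 u ((hT u).1 hu)
    rw [Finset.mem_insert, Finset.mem_singleton] at hu'
    have he1 : e ≠ 1 := fun h => hu' (Or.inl (by rw [hue, h, mul_one]))
    have he2 : e ≠ -1 := fun h => hu' (Or.inr (by rw [hue, h]; ring))
    have h1 := val_ne (p := p) hR h3f hcop he he1 he2
    rw [hue, val_one hR hGa hf hpp hpD hj hcop hab hdvd hρ e he, val_two hf e, h1]
    ring
  rw [← Finset.sum_subset hsub hvan] at hsum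
  have v1 : BB (rr n t f) f b (-c) p (p : OO n t) = -(p : ℂ) * (f : ℂ) ^ 2 := by
    have h1 := val_one hR hGa hf hpp hpD hj hcop hab hdvd hρ 1 Nm_one1
    rw [val_ty hR h3f hcop, mul_one] at h1
    exact h1
  have v2 : BB (tw (rr n t f) ((p : ℤ) : OO n t)) f 0 0 1 (p : OO n t) = (f : ℂ) ^ 2 := by
    have h1 := val_two (p := p) hf (ρ := rr n t f) 1
    rw [val_ty hR h3f hcop, mul_one] at h1
    exact h1
  rw [Finset.sum_pair hp0, BB_neg hR hf hpp.pos hρ hodd, BB_neg hR hf one_pos hρ' hodd',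
    v1, v2] at hsum
  rw [cjO_neg, cjO_nat, toC_neg, toC_nat] at hsum
  have hp' : (p : ℂ) ≠ 0 := by exact_mod_cast hpp.ne_zero
  have hf' : (f : ℂ) ≠ 0 := by exact_mod_cast hf.ne'
  have h9 : (-2 * (p : ℂ) ^ 2 * (f : ℂ) ^ 2) * (κ + 1) = 0 := by
    linear_combination hsum
  rcases mul_eq_zero.1 h9 with h | h
  · exact absurd h (mul_ne_zero (mul_ne_zero (by norm_num) (pow_ne_zero 2 hp')) (pow_ne_zero 2 hf'))
  · exact eq_neg_of_add_eq_zero_left h

theorem tEpsA (hG : S_Gen) (hA : S_Gau) (hU : S_Uni) (hR : S_Res) (hS : S_Sum) : S_EpsA :=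
  caseA hS hR hA hU hG

end Pool.Agent.DN.C
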