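import Pool.Agent.Lib.DN.C.Spec9

/-!
# THEOREM DN (MP_d0239a_nt), Part C, module Etf: the smoothed combination
-/

set_option autoImplicit false

open Filter Topology
open scoped Pointwise

noncomputable section

namespace Pool.Agent.DN.C

open Pool.Agent.MuZ Pool.Agent.FW NumberField
open Pool.Agent.DI (io ofC io_inj exists_io io_ofC ofC_io VP MP UP TP ex)

variable {n t : ℕ}

private theorem Etf_tm {f : ℕ} (hf : Odd f) {α : OO n t} (hα : α ∈ tm n t f) :
    (f : OO n t) ∣ α - 1 ∧ α ≠ 0 := by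
  have hf0 : (f : ℤ) ≠ 0 := by
    have := hf.pos
    exact_mod_cast this.ne'
  unfold tm at hα
  rw [Finset.mem_insert, Finset.mem_insert, Finset.mem_singleton] at hα
  rcases hα with rfl | rfl | rfl
  · refine ⟨by rw [sub_self]; exact dvd_zero _, fun h => ?_⟩
    have h1 := congrArg QuadraticAlgebra.re h
    rw [re_one, QuadraticAlgebra.re_zero] at h1
    exact one_ne_zero h1
  · refine ⟨(nat_dvd_iff f _).2 ?_, fun h => ?_⟩
    · rw [QuadraticAlgebra.re_sub, QuadraticAlgebra.im_sub, re_one, im_one]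
      exact ⟨⟨-1, by ring⟩, ⟨1, by ring⟩⟩
    · have h1 := congrArg QuadraticAlgebra.im h
      rw [QuadraticAlgebra.im_zero] at h1
      exact hf0 h1
  · refine ⟨(nat_dvd_iff f _).2 ?_, fun h => ?_⟩
    · rw [QuadraticAlgebra.re_sub, QuadraticAlgebra.im_sub, re_one, im_one]
      exact ⟨⟨0, by ring⟩, ⟨1, by ring⟩⟩
    · have h1 := congrArg QuadraticAlgebra.im h
      rw [QuadraticAlgebra.im_zero] at h1
      exact hf0 h1

theorem tEtf (hA : S_Rda) (hB : S_B7) (hC : S_Cnd) (h6 : S_O6) : S_Etf := by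
  intro n t _ ω hω f m b z hm hb hz
  obtain ⟨-, hmb, hm0, -, -, -, -, -, hG, hb2, -, hmb2, -, -, hfr, -⟩ := hC n t f m b hm hb
  have hmb2' : PrI (m * b) 2 := (((h6 n t).2.1 2 f (m * b)).1 hmb2).1
  have hmC : ((NI m : ℕ) : ℂ) ≠ 0 := by exact_mod_cast hm0.ne'
  have hz' : 0 < ((NI m : ℂ) * z).im := by
    have e : (((NI m : ℕ) : ℂ) * z).im = (NI m : ℝ) * z.im := by
      rw [Complex.mul_im, Complex.natCast_re, Complex.natCast_im, zero_mul, add_zero]
    rw [e]
    exact mul_pos (by exact_mod_cast hm0) hz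
  rw [← hA n t ω hω f (m * b) z hm.odd hmb hmb2' hz,
    ← hA n t ω hω f b ((NI m : ℂ) * z) hm.odd hb.ne hb2 hz', Finset.mul_sum, Finset.mul_sum,
    ← Finset.sum_sub_distrib]
  refine Finset.sum_congr rfl fun α hα => ?_
  obtain ⟨hd, hα0⟩ := Etf_tm hm.odd hα
  obtain ⟨g, hg⟩ := hm.dvd
  have d3 : (3 : OO n t) ∣ α - 1 := by
    refine dvd_trans ⟨((5 * g : ℕ) : OO n t), ?_⟩ hd
    rw [hg]
    push_cast
    ring
  have d5 : (5 : OO n t) ∣ α - 1 := by
    refine dvd_trans ⟨((3 * g : ℕ) : OO n t), ?_⟩ hd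
    rw [hg]
    push_cast
    ring
  have f2 : fr (sp α * b) = toC α * fr b :=
    (((hB n t b hb.ne).2.2 hG.cop).1 α hα0 d3 (Or.inl d5)).1
  have f3 : toC α ≠ 0 := toC_ne hα0
  unfold ThM
  rw [show m * (sp α * b) = sp α * (m * b) from mul_left_comm _ _ _, f2]
  field_simp

end Pool.Agent.DN.C
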