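import Pool.Agent.Lib.DN.C.Spec9

/-!
# THEOREM DN, Part C, module Fou: the Fourier transform modulo `2 F0`
-/

set_option autoImplicit false

open Filter Topology

noncomputable section

namespace Pool.Agent.DN.C

open Pool.Agent.MuZ Pool.Agent.FW NumberField
open Pool.Agent.DI (io ofC io_inj exists_io io_ofC ofC_io VP MP UP TP ex)

variable {n t : ℕ}

private lemma ex_add' (x y : ℂ) : ex (x + y) = ex x * ex y := by
  unfold ex
  rw [mul_add, Complex.exp_add]

private lemma ex_int' (n' : ℤ) : ex (n' : ℂ) = 1 := by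
  unfold ex
  have h : 2 * (Real.pi : ℂ) * Complex.I * (n' : ℂ) = (n' : ℂ) * (2 * Real.pi * Complex.I) := by ring
  rw [h]
  exact Complex.exp_int_mul_two_pi_mul_I n'

private lemma ex_congr' {x y : ℂ} (n' : ℤ) (h : x = y + n') : ex x = ex y := by
  rw [h, ex_add', ex_int', mul_one]

private lemma rsum_congr' (m : ℕ) {F G : OO n t → ℂ} (h : ∀ v, F v = G v) : rsum m F = rsum m G := by
  have : F = G := funext h
  rw [this]

private lemma rsum_mul' (m : ℕ) (x : ℂ) (F : OO n t → ℂ) :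
    rsum m (fun v => x * F v) = x * rsum m F := by
  unfold rsum
  simp only [Finset.mul_sum]

private lemma rsum_mul_r (m : ℕ) (x : ℂ) (F : OO n t → ℂ) :
    rsum m (fun v => F v * x) = rsum m F * x := by
  unfold rsum
  simp only [Finset.sum_mul]

private lemma im_per (g : ℕ) (v w u : OO n t) :
    ((v + (g : OO n t) * w) * cjO u).im = (v * cjO u).im + g * (w * cjO u).im := by
  simp only [cjO, re_mul, im_mul, QuadraticAlgebra.re_add, QuadraticAlgebra.im_add,
    re_nat, im_nat]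
  ring

private lemma im_per2 (g : ℕ) (v u w : OO n t) :
    (v * cjO (u + (g : OO n t) * w)).im = (v * cjO u).im + g * (v * cjO w).im := by
  simp only [cjO, re_mul, im_mul, QuadraticAlgebra.re_add, QuadraticAlgebra.im_add,
    re_nat, im_nat]
  ring

private lemma im_two (g : ℕ) (a b u : OO n t) :
    (((2 : OO n t) * a + (g : OO n t) * b) * cjO u).im = 2 * (a * cjO u).im + g * (b * cjO u).im := by
  have h2 : ((2 : OO n t)) = ((2 : ℕ) : OO n t) := by norm_num
  rw [h2]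
  simp only [cjO, re_mul, im_mul, QuadraticAlgebra.re_add, QuadraticAlgebra.im_add,
    re_nat, im_nat]
  push_cast
  ring

/-- the summand -/
private def FF (ω : ℂ) (σ : OO n t → ℂ) (F0 : ℕ) (u v : OO n t) : ℂ :=
  σ v * om ω v * ex (-(v * cjO u).im / (2 * F0))

private lemma sg_per {F0 : ℕ} (hF : 0 < F0) (σ : OO n t → ℂ) : PerO F0 (sg F0 σ) := by
  intro u w
  have hF' : (F0 : ℂ) ≠ 0 := by exact_mod_cast hF.ne'
  unfold sg
  refine rsum_congr' F0 fun a => ?_
  congr 1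
  refine ex_congr' (-(a * cjO w).im) ?_
  rw [im_per2]
  push_cast
  field_simp
  ring

private lemma BB_eq (ω : ℂ) (σ : OO n t → ℂ) (F0 : ℕ) (u : OO n t) :
    BB (so ω σ) (2 * F0) 0 0 1 u = rsum (F0 * 2) (FF ω σ F0 u) := by
  unfold BB
  rw [show 2 * F0 * 1 = F0 * 2 by ring]
  refine rsum_congr' _ fun v => ?_
  unfold FF so
  congr 2
  push_cast
  simp only [zero_mul, zero_div, mul_one, add_zero, zero_sub, neg_div]

private lemma FF_per {ω : ℂ} {σ : OO n t → ℂ} {F0 : ℕ} (hF : 0 < F0) (hσ : PerO F0 σ)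
    (h1 : ∀ v u : OO n t, (2 : OO n t) ∣ v - u → om ω v = om ω u) (u : OO n t) :
    PerO (F0 * 2) (FF ω σ F0 u) := by
  intro v w
  have hF' : (F0 : ℂ) ≠ 0 := by exact_mod_cast hF.ne'
  unfold FF
  have e1 : σ (v + ((F0 * 2 : ℕ) : OO n t) * w) = σ v := by
    have h2 : ((F0 * 2 : ℕ) : OO n t) * w = (F0 : OO n t) * (2 * w) := by push_cast; ring
    rw [h2, hσ]
  have e2 : om ω (v + ((F0 * 2 : ℕ) : OO n t) * w) = om ω v := by
    refine h1 _ _ ⟨(F0 : OO n t) * w, ?_⟩
    push_cast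
    ring
  rw [e1, e2]
  congr 1
  refine ex_congr' (-(w * cjO u).im) ?_
  rw [im_per]
  push_cast
  field_simp
  ring

private lemma FF_split {ω : ℂ} {σ : OO n t → ℂ} {F0 : ℕ} (hodd : Odd F0) (hσ : PerO F0 σ)
    (h1 : ∀ v u : OO n t, (2 : OO n t) ∣ v - u → om ω v = om ω u) (u a b : OO n t) :
    FF ω σ F0 u ((2 : ℕ) * a + (F0 : OO n t) * b) =
      (σ (2 * a) * ex (-(a * cjO u).im / F0)) * (om ω b * ex (-(b * cjO u).im / 2)) := by
  have hF' : (F0 : ℂ) ≠ 0 := by exact_mod_cast hodd.pos.ne'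
  have h2 : (((2 : ℕ) : OO n t)) = (2 : OO n t) := by norm_num
  rw [h2]
  unfold FF
  rw [hσ]
  have e2 : om ω (2 * a + (F0 : OO n t) * b) = om ω b := by
    obtain ⟨k, hk⟩ := hodd
    refine h1 _ _ ⟨a + (k : OO n t) * b, ?_⟩
    rw [hk]
    push_cast
    ring
  rw [e2, im_two]
  have e3 : (-(((2 * (a * cjO u).im + F0 * (b * cjO u).im : ℤ) : ℂ)) / (2 * F0) : ℂ) =
      -((a * cjO u).im : ℂ) / F0 + -((b * cjO u).im : ℂ) / 2 := by
    push_cast
    field_simp
    ring
  rw [e3, ex_add']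
  ring

theorem tFou (hO : S_Om) (hR : S_Res) : S_Fou := by
  intro n t _ ω hω F0 σ hodd hσ
  obtain ⟨h1, -, -, h4⟩ := hO n t ω hω
  obtain ⟨-, -, -, -, h5⟩ := hR n t
  refine ⟨sg_per hodd.pos σ, fun u => ?_⟩
  have hcop : Nat.Coprime F0 2 := (Nat.coprime_two_right).2 hodd
  rw [BB_eq, h5 F0 2 _ hodd.pos (by norm_num) hcop (FF_per hodd.pos hσ h1 u)]
  have e1 : (rsum F0 fun α : OO n t => rsum 2 fun β : OO n t =>
      FF ω σ F0 u (((2 : ℕ) : OO n t) * α + (F0 : OO n t) * β)) =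
      rsum F0 fun α : OO n t => (σ (2 * α) * ex (-(α * cjO u).im / F0)) * (2 * om ω u) := by
    refine rsum_congr' F0 fun α => ?_
    rw [← h4 u, ← rsum_mul']
    exact rsum_congr' 2 fun β => FF_split hodd hσ h1 u α β
  rw [e1, rsum_mul_r]
  unfold so sg
  ring

end Pool.Agent.DN.C
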