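import Pool.Agent.Lib.DN.C.Spec9

/-!
# THEOREM DN (MP_d0239a_nt), Part C, module C/Hid: the hidden symmetry in weight 2

Author helper2. `S_Hid`: `Gt(z''/2) = -(A c z + 1)² Gt(z/2)` for `z'' = z/(A c z + 1)`, `A = D F0²`, `c` odd.
-/

set_option autoImplicit false

open Filter Topology
open scoped Pointwise

noncomputable section

namespace Pool.Agent.DN.C

open Pool.Agent.MuZ Pool.Agent.FW NumberField
open Pool.Agent.DI (io ofC io_inj exists_io io_ofC ofC_io VP MP UP TP ex)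

/-- `e(N (w - c)/2) = -e(N w/2)` for odd `N`, `c`. -/
private theorem Hid_ex (N c : ℤ) (w : ℂ) (hN : N % 2 = 1) (hc : Odd c) :
    ex (N * ((w - c) / 2)) = -ex (N * (w / 2)) := by
  obtain ⟨j, hj⟩ : Odd (N * c) := (Int.odd_iff.2 hN).mul hc
  have hj' : (N : ℂ) * c = 2 * j + 1 := by exact_mod_cast congrArg (Int.cast : ℤ → ℂ) hj
  unfold ex
  have h1 : 2 * (Real.pi : ℂ) * Complex.I * (N * ((w - c) / 2)) =
      2 * Real.pi * Complex.I * (N * (w / 2)) + Real.pi * Complex.I +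
        ((-(j + 1) : ℤ) : ℂ) * (2 * Real.pi * Complex.I) := by
    push_cast
    linear_combination -(Real.pi : ℂ) * Complex.I * hj'
  rw [h1, Complex.exp_add, Complex.exp_add, Complex.exp_pi_mul_I,
    Complex.exp_int_mul_two_pi_mul_I]
  ring

/-- (i): the translation by `c/2`. -/
private theorem Hid_sh {n t : ℕ} [Ine n t] (hO : S_Om) {ω : ℂ} (hω : ω ^ 2 + ω + 1 = 0)
    (τ : OO n t → ℂ) (c : ℤ) (w : ℂ) (hc : Odd c) :
    Gt (so ω τ) ((w - c) / 2) = -Gt (so ω τ) (w / 2) := by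
  have h3 := (hO n t ω hω).2.2.1
  have h4 : (fun v : OO n t => so ω τ v * toC (cjO v) * ex (Nm v * ((w - c) / 2))) =
      fun v => -(so ω τ v * toC (cjO v) * ex (Nm v * (w / 2))) := by
    funext v
    rcases h3 v with h | h
    · simp [so, h]
    · rw [Hid_ex _ c w h hc]
      ring
  unfold Gt
  rw [h4, tsum_neg]
  ring

/-- `Im (z/(r z + 1)) > 0` for real `r`. -/
private theorem Hid_im (r : ℝ) (z : ℂ) (hz : 0 < z.im) :
    (r : ℂ) * z + 1 ≠ 0 ∧ 0 < (z / ((r : ℂ) * z + 1)).im := by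
  have h0 : (r : ℂ) * z + 1 ≠ 0 := by
    intro h
    have h1 := congrArg Complex.im h
    have h2 := congrArg Complex.re h
    simp at h1 h2
    rcases h1 with h1 | h1
    · rw [h1] at h2
      simp at h2
    · exact hz.ne' h1
  refine ⟨h0, ?_⟩
  have h5 : (z / ((r : ℂ) * z + 1)).im = z.im / Complex.normSq ((r : ℂ) * z + 1) := by
    rw [Complex.div_im]
    simp only [Complex.add_re, Complex.mul_re, Complex.ofReal_re, Complex.ofReal_im,
      Complex.one_re, Complex.add_im, Complex.mul_im, Complex.one_im]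
    ring
  rw [h5]
  exact div_pos hz (Complex.normSq_pos.2 h0)

/-- **The hidden symmetry in weight 2.** -/
theorem tHid (hO : S_Om) (hF : S_Fou) (hI : S_Inv) : S_Hid := by
  intro n t _ ω hω F0 c σ z hF0 hc hσ hz
  have hD0 : (Dk n t : ℂ) ≠ 0 := by
    have h2 := Dk_cast (n := n) (t := t)
    have h3 : 0 < n := by
      have := (inferInstance : SqN n t).out
      rcases this with h | h <;> exact h.2.1
    have h4 : t = 1 := Ine.one n
    subst h4
    have h5 : (0 : ℤ) < (Dk n 1 : ℤ) := by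
      rw [h2]
      push_cast
      linarith [(by exact_mod_cast h3 : (0 : ℤ) < (n : ℤ))]
    have h6 : Dk n 1 ≠ 0 := by
      intro h
      rw [h] at h5
      exact absurd h5 (by simp)
    exact_mod_cast h6
  have hF1 : (F0 : ℂ) ≠ 0 := by
    have : F0 ≠ 0 := hF0.pos.ne'
    exact_mod_cast this
  have hz0 : z ≠ 0 := by
    rintro rfl
    simp at hz
  obtain ⟨h0, him⟩ := Hid_im ((Dk n t : ℝ) * (F0 : ℝ) ^ 2 * (c : ℝ)) z hz
  push_cast at h0 him
  have e1 := hI n t ω hω F0 σ z hF0 hσ hz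
  have e2 := hI n t ω hω F0 σ _ hF0 hσ him
  have e3 : -1 / ((Dk n t : ℂ) * (F0 : ℂ) ^ 2 * (z / ((Dk n t : ℂ) * (F0 : ℂ) ^ 2 * c * z + 1))) =
      -1 / ((Dk n t : ℂ) * (F0 : ℂ) ^ 2 * z) - c := by
    field_simp
    ring
  rw [e3, Hid_sh hO hω _ _ _ hc] at e2
  rw [e2, e1]
  field_simp

end Pool.Agent.DN.C
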