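import Pool.Agent.Lib.DN.C.Spec9

/-!
# THEOREM DN (MP_d0239a_nt), Part C, module Hit: the hidden symmetry, weight 1
-/

set_option autoImplicit false

open Filter Topology

noncomputable section

namespace Pool.Agent.DN.C

open Pool.Agent.MuZ Pool.Agent.FW NumberField
open Pool.Agent.DI (io ofC io_inj exists_io io_ofC ofC_io VP MP UP TP ex)

private theorem Hit_den (k : ℤ) {z : ℂ} (hz : 0 < z.im) : (k : ℂ) * z + 1 ≠ 0 := by
  intro h0
  have h1 := congrArg Complex.im h0
  have h2 := congrArg Complex.re h0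
  simp only [Complex.add_im, Complex.mul_im, Complex.intCast_re, Complex.intCast_im, zero_mul,
    add_zero, Complex.zero_im, Complex.one_im] at h1
  simp only [Complex.add_re, Complex.mul_re, Complex.intCast_re, Complex.intCast_im, zero_mul,
    sub_zero, Complex.zero_re, Complex.one_re] at h2
  have hc : (k : ℝ) = 0 := by
    rcases mul_eq_zero.1 h1 with h3 | h3
    · exact h3
    · exact absurd h3 hz.ne'
  rw [hc, zero_mul, zero_add] at h2
  exact one_ne_zero h2

private theorem Hit_im (k : ℤ) {z : ℂ} (hz : 0 < z.im) : 0 < (z / ((k : ℂ) * z + 1)).im := by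
  have hw := Hit_den k hz
  have hn : 0 < Complex.normSq ((k : ℂ) * z + 1) := Complex.normSq_pos.2 hw
  have e : (z / ((k : ℂ) * z + 1)).im = z.im / Complex.normSq ((k : ℂ) * z + 1) := by
    rw [Complex.div_im]
    simp only [Complex.add_im, Complex.mul_im, Complex.intCast_re, Complex.intCast_im, zero_mul,
      add_zero, Complex.add_re, Complex.mul_re, sub_zero, Complex.one_re, Complex.one_im]
    rw [← sub_div]
    congr 1
    ring
  rw [e]
  exact div_pos hz hn

private theorem Hit_half {z : ℂ} (hz : 0 < z.im) : 0 < (z / 2).im := by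
  rw [Complex.div_ofNat_im]
  positivity

private theorem Hit_deriv (k : ℤ) {z : ℂ} (hz : 0 < z.im) :
    HasDerivAt (fun z : ℂ => z / ((k : ℂ) * z + 1) / 2) (1 / ((k : ℂ) * z + 1) ^ 2 / 2) z := by
  have hw := Hit_den k hz
  have h2 : HasDerivAt (fun z : ℂ => (k : ℂ) * z + 1) (k : ℂ) z := by
    simpa using ((hasDerivAt_id z).const_mul (k : ℂ)).add_const (1 : ℂ)
  have h3 := ((hasDerivAt_id z).div h2 hw).div_const 2
  have e : (1 * ((k : ℂ) * z + 1) - id z * k) / ((k : ℂ) * z + 1) ^ 2 / 2 =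
      1 / ((k : ℂ) * z + 1) ^ 2 / 2 := by
    congr 2
    simp only [id]
    ring
  rw [e] at h3
  exact h3

private theorem Hit_per {n t : ℕ} [Ine n t] (hO : S_Om) (ω : ℂ) (hω : ω ^ 2 + ω + 1 = 0) (F0 : ℕ)
    (σ : OO n t → ℂ) (hσ : PerO F0 σ) : PerO (2 * F0) (so ω σ) := by
  intro v u
  unfold so
  have h1 : σ (v + ((2 * F0 : ℕ) : OO n t) * u) = σ v := by
    have e : v + ((2 * F0 : ℕ) : OO n t) * u = v + (F0 : OO n t) * (2 * u) := by
      push_cast
      ring
    rw [e]
    exact hσ v (2 * u)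
  have h2 : om ω (v + ((2 * F0 : ℕ) : OO n t) * u) = om ω v := by
    refine (hO n t ω hω).1 _ _ ⟨(F0 : OO n t) * u, ?_⟩
    push_cast
    ring
  rw [h1, h2]

theorem tHit (hO : S_Om) (hD : S_Der) (hH : S_Hid) : S_Hit := by
  intro n t _ ω hω F0 c σ hF hc hσ
  have hF0 : 0 < F0 := hF.pos
  have hper := Hit_per hO ω hω F0 σ hσ
  obtain ⟨hT, -, -⟩ := hD n t (2 * F0) (so ω σ) (by omega) hper
  set k : ℤ := (Dk n t : ℤ) * (F0 : ℤ) ^ 2 * c with hk
  have hkC : (Dk n t : ℂ) * (F0 : ℂ) ^ 2 * (c : ℂ) = (k : ℂ) := by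
    rw [hk]
    push_cast
    ring
  rw [hkC]
  have hder : ∀ w : ℂ, 0 < w.im → HasDerivAt
      (fun w => Th (so ω σ) (w / ((k : ℂ) * w + 1) / 2) + Th (so ω σ) (w / 2)) 0 w := by
    intro w hw
    have h1 := (hT _ (Hit_half (Hit_im k hw))).comp w (Hit_deriv k hw)
    have h2 := (hT (w / 2) (Hit_half hw)).comp w ((hasDerivAt_id w).div_const 2)
    have h3 := h1.add h2
    have h4 := hH n t ω hω F0 c σ w hF hc hσ hw
    rw [hkC] at h4
    have h5 := Hit_den k hw
    have e : 2 * (Real.pi : ℂ) * Complex.I * Gt (so ω σ) (w / ((k : ℂ) * w + 1) / 2) *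
        (1 / ((k : ℂ) * w + 1) ^ 2 / 2) +
        2 * (Real.pi : ℂ) * Complex.I * Gt (so ω σ) (w / 2) * (1 / 2) = 0 := by
      rw [h4]
      field_simp
      ring
    rw [e] at h3
    exact h3
  have hopen : IsOpen {w : ℂ | 0 < w.im} := isOpen_lt continuous_const Complex.continuous_im
  have hpre : IsPreconnected {w : ℂ | 0 < w.im} := (convex_halfSpace_im_gt 0).isPreconnected
  refine ⟨Th (so ω σ) (Complex.I / ((k : ℂ) * Complex.I + 1) / 2) + Th (so ω σ) (Complex.I / 2),
    fun z hz => ?_⟩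
  have hconst := hopen.is_const_of_deriv_eq_zero hpre
    (fun w hw => (hder w hw).differentiableAt.differentiableWithinAt)
    (fun w hw => (hder w hw).deriv) (x := z) (y := Complex.I) hz
    (by change 0 < Complex.I.im; rw [Complex.I_im]; exact one_pos)
  linear_combination hconst

end Pool.Agent.DN.C
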