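import Pool.Agent.Lib.DN.C.Spec9

/-!
# Theorem DN, part C, module Inv: the inversion `z ↦ -1/z`
-/

set_option autoImplicit false

noncomputable section

namespace Pool.Agent.DN.C

open Pool.Agent.MuZ Pool.Agent.FW NumberField
open Pool.Agent.DI (io ofC io_inj exists_io io_ofC ofC_io VP MP UP TP ex)

private lemma Inv_im (z : ℂ) (hz : 0 < z.im) : 0 < (-2 / z : ℂ).im := by
  have hz0 : z ≠ 0 := by
    rintro rfl
    simp at hz
  have hn : 0 < Complex.normSq z := Complex.normSq_pos.2 hz0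
  have h : (-2 / z : ℂ).im = 2 * z.im / Complex.normSq z := by
    rw [Complex.div_im]
    simp
    ring
  rw [h]
  positivity

private lemma Inv_per {n t : ℕ} (ω : ℂ)
    (h1 : ∀ v u : OO n t, (2 : OO n t) ∣ v - u → om ω v = om ω u) (F0 : ℕ) (σ : OO n t → ℂ)
    (hσ : PerO F0 σ) : PerO (2 * F0) (so ω σ) := by
  intro v u
  have e1 : v + ((2 * F0 : ℕ) : OO n t) * u = v + (F0 : OO n t) * (2 * u) := by
    push_cast
    ring
  have e2 : om ω (v + ((2 * F0 : ℕ) : OO n t) * u) = om ω v := by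
    refine h1 _ _ ⟨(F0 : OO n t) * u, ?_⟩
    push_cast
    ring
  unfold so
  rw [e2, e1, hσ]

/-- **The inversion.** -/
theorem tInv (hG : S_Gen) (hO : S_Om) (hF : S_Fou) : S_Inv := by
  intro n t _ ω hω F0 σ z hodd hσ hz
  have hz0 : z ≠ 0 := by
    rintro rfl
    simp at hz
  have hF0 : 0 < F0 := hodd.pos
  have hF0C : (F0 : ℂ) ≠ 0 := by exact_mod_cast hF0.ne'
  obtain ⟨h1, -, -, -⟩ := hO n t ω hω
  obtain ⟨-, h2⟩ := hF n t ω hω F0 σ hodd hσ
  have hg := hG n t (2 * F0) 1 0 (-1) 0 (so ω σ) (-2 / z) (by omega) one_pos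
    (Inv_per ω h1 F0 σ hσ) (by norm_num) (Inv_im z hz)
  have hm : mob 0 (-1) ((1 : ℕ) : ℤ) 0 (-2 / z) = z / 2 := by
    unfold mob
    push_cast
    field_simp
    ring
  rw [hm] at hg
  rw [hg]
  unfold Gt
  have hs : ∀ u : OO n t,
      toC (cjO u) * ex (Nm u * (-2 / z) / (Dk n t * ((2 * F0 : ℕ) : ℂ) ^ 2)) *
        BB (so ω σ) (2 * F0) 0 0 1 u =
      2 * (so ω (sg F0 σ) u * toC (cjO u) *
        ex (Nm u * (-1 / (Dk n t * F0 ^ 2 * z) / 2))) := by
    intro u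
    rw [h2 u]
    have e : (Nm u : ℂ) * (-2 / z) / (Dk n t * ((2 * F0 : ℕ) : ℂ) ^ 2) =
        Nm u * (-1 / (Dk n t * F0 ^ 2 * z) / 2) := by
      push_cast
      by_cases hD : (Dk n t : ℂ) = 0
      · simp [hD]
      · field_simp
    rw [e]
    ring
  rw [tsum_congr hs, tsum_mul_left]
  by_cases hD : (Dk n t : ℂ) = 0
  · simp [hD]
  · push_cast
    field_simp
    ring

end Pool.Agent.DN.C
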