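import Pool.Agent.Lib.DN.C.SpecR

/-!
# THEOREM DN, Part C, module Lt: sums over the lattices `Lam b`
-/

set_option autoImplicit false

open scoped Pointwise nonZeroDivisors

noncomputable section

namespace Pool.Agent.DN.C

open Pool.Agent.MuZ Pool.Agent.FW NumberField IsDedekindDomain
open Pool.Agent.DI (io ofC io_inj exists_io io_ofC ofC_io VP MP UP TP ex)

private theorem Lt_one_le {n t : ℕ} [SqN n t] {w : OO n t} (hw : w ≠ 0) : 1 ≤ ‖toC w‖ := by
  have h1 : (1 : ℤ) ≤ Nm w := Nm_pos hw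
  have h2 : ((Nm w : ℤ) : ℝ) = ‖toC w‖ ^ 2 := Nm_norm w
  have h3 : (1 : ℝ) ≤ ‖toC w‖ ^ 2 := by
    rw [← h2]
    exact_mod_cast h1
  have h4 : 0 ≤ ‖toC w‖ := norm_nonneg _
  nlinarith

theorem tLt (_hB : S_Bas) (hS : S_Sum) (h2 : S_O2) (h3 : S_O3) (h0 : S_L0) (h1 : S_L1) : S_Lt := by
  intro n t _ b hb
  have hcast : ∀ n' : ℕ, toC (n' : OO n t) = (n' : ℂ) := fun n' => toC_nat n'
  have hn : 0 < NI b := Nat.pos_of_ne_zero fun h => hb (((h2 n t).2.2.2.2.2.1 b).1 h)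
  have hn' : (NI b : ℂ) ≠ 0 := Nat.cast_ne_zero.2 hn.ne'
  have hnR : (0 : ℝ) < NI b := Nat.cast_pos.2 hn
  have hprod : b * cjI b = sp (NI b : OO n t) := ((h3 n t).2.2.1 b).2.2
  have p1 : ∀ z : ℂ, z ∈ Lam b ↔ ∃ u ∈ cjI b, z = toC u / NI b :=
    (h0 n t b hb).2.2 (NI b) (cjI b) hn hprod
  have hlat : ((LP b).lattice : Set ℂ) = Lam b := h1 n t b hb
  have p3 : ∀ x ∈ Lam b, ∃ n' : ℕ, (NI b : ℝ) * ‖x‖ ^ 2 = n' := by
    intro x hx
    obtain ⟨u, hu, rfl⟩ := (p1 x).1 hx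
    have h4 : cjO u ∈ b := ((h3 n t).1 b u).1 hu
    have h5 : ((Nm u : ℤ) : OO n t) ∈ sp (NI b : OO n t) := by
      rw [← hprod, ← mul_cjO, mul_comm u (cjO u)]
      exact Ideal.mul_mem_mul h4 hu
    have h6 : (NI b : ℤ) ∣ Nm u := by
      have h7 := (nat_dvd_iff (NI b) ((Nm u : ℤ) : OO n t)).1 (Ideal.mem_span_singleton.1 h5)
      rw [re_int] at h7
      exact h7.1
    obtain ⟨m, hm⟩ := h6
    have hm0 : 0 ≤ m := by
      have h8 := Nm_nonneg u
      have h9 : (0 : ℤ) < NI b := by exact_mod_cast hn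
      rw [hm] at h8
      exact nonneg_of_mul_nonneg_right h8 h9
    refine ⟨m.toNat, ?_⟩
    have h8 : ((m.toNat : ℕ) : ℝ) = (m : ℝ) := by
      have h9 : ((m.toNat : ℕ) : ℤ) = m := Int.toNat_of_nonneg hm0
      exact_mod_cast congrArg (fun t' : ℤ => (t' : ℝ)) h9
    rw [h8, norm_div, Complex.norm_natCast, div_pow, ← Nm_norm, hm]
    push_cast
    field_simp
  have key : ∀ x : ℂ, Tor n t x → ∃ M : ℕ, 0 < M ∧ ∀ v ∈ cs x b, ∃ w : OO n t, v = toC w / M := by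
    rintro x ⟨v₀, N, hN, rfl⟩
    refine ⟨N * NI b, Nat.mul_pos hN hn, ?_⟩
    intro v hv
    obtain ⟨u, -, hu⟩ := (p1 _).1 hv
    have hN' : (N : ℂ) ≠ 0 := Nat.cast_ne_zero.2 hN.ne'
    refine ⟨(NI b : OO n t) * v₀ + (N : OO n t) * u, ?_⟩
    have h4 : v = toC u / NI b + toC v₀ / N := by rw [← hu]; ring
    rw [toC_add, toC_mul, toC_mul, hcast, hcast, h4]
    push_cast
    field_simp
    ring
  have bd : ∀ M : ℕ, 0 < M → ∀ w : OO n t, ‖(toC w / (M : ℂ))⁻¹‖ ≤ M := by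
    intro M hM w
    by_cases hw : w = 0
    · rw [hw, toC_zero, zero_div, inv_zero, norm_zero]
      exact Nat.cast_nonneg _
    · rw [inv_div, norm_div, Complex.norm_natCast]
      exact div_le_self (Nat.cast_nonneg _) (Lt_one_le hw)
  refine ⟨hn, p1, ?_, p3, ?_, ?_, ?_⟩
  · intro x F
    have hmem : ∀ v : (LP b).lattice, x + (v : ℂ) ∈ cs x b := by
      intro v
      change x + (v : ℂ) - x ∈ Lam b
      rw [add_sub_cancel_left, ← hlat]
      exact v.2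
    have hmem' : ∀ v : cs x b, (v : ℂ) - x ∈ (LP b).lattice := by
      intro v
      have h4 : (v : ℂ) - x ∈ Lam b := v.2
      rw [← hlat] at h4
      exact h4
    let e : (LP b).lattice ≃ cs x b :=
      { toFun := fun v => ⟨x + (v : ℂ), hmem v⟩
        invFun := fun v => ⟨(v : ℂ) - x, hmem' v⟩
        left_inv := fun v => Subtype.ext (by simp)
        right_inv := fun v => Subtype.ext (by simp) }
    exact Equiv.tsum_eq e (fun v : cs x b => F v)
  · intro x hx y hy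
    obtain ⟨n₁, e₁⟩ := p3 x hx
    obtain ⟨n₂, e₂⟩ := p3 y hy
    obtain ⟨n₃, e₃⟩ := p3 (x + y) (lam_add hx hy)
    refine ⟨(n₃ : ℤ) - n₁ - n₂, ?_⟩
    push_cast
    rw [← e₁, ← e₂, ← e₃]
    ring
  · intro x hx
    obtain ⟨M, hM, hw⟩ := key x hx
    refine ⟨M, fun v hv => ?_⟩
    obtain ⟨w, rfl⟩ := hw v hv
    exact bd M hM w
  · intro x w z hx hw0 hz
    obtain ⟨M, hM, hw⟩ := key x hx
    have hM' : (0 : ℝ) < M := Nat.cast_pos.2 hM
    choose φ hφ using fun v : cs x b => hw v v.2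
    have hinj : Function.Injective φ := by
      intro v v' h
      apply Subtype.ext
      rw [hφ v, hφ v', h]
    have ht : (0 : ℝ) < 2 * Real.pi * w * z.im / M ^ 2 := by positivity
    have hs := ((hS n t).1 (2 * Real.pi * w * z.im / M ^ 2) 0 ht).comp_injective hinj
    refine Summable.of_norm_bounded (hs.mul_left (M : ℝ)) fun v => ?_
    rw [norm_mul]
    refine mul_le_mul ?_ ?_ (norm_nonneg _) hM'.le
    · rw [hφ v]
      exact bd M hM _
    · rw [(hS n t).2.1]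
      simp only [Function.comp, pow_zero, one_mul]
      apply le_of_eq
      congr 1
      have h4 : ((w : ℂ) * (‖(v : ℂ)‖ : ℂ) ^ 2 * z).im = w * ‖(v : ℂ)‖ ^ 2 * z.im := by
        rw [← Complex.ofReal_pow, ← Complex.ofReal_mul, Complex.im_ofReal_mul]
      have h5 : ‖(v : ℂ)‖ ^ 2 = (Nm (φ v) : ℝ) / M ^ 2 := by
        rw [hφ v, norm_div, Complex.norm_natCast, div_pow, ← Nm_norm]
      rw [h4, h5]
      ring

end Pool.Agent.DN.C
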