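import Pool.Agent.Lib.DN.C.Spec

/-!
# THEOREM DN, Part C, module Par: only odd exponents occur; the half period
-/

set_option autoImplicit false

open Filter Topology
open scoped Pointwise

noncomputable section

namespace Pool.Agent.DN.C

open Pool.Agent.MuZ Pool.Agent.FW NumberField
open Pool.Agent.DI (io ofC io_inj exists_io io_ofC ofC_io VP MP UP TP ex)

private lemma Par_ex_add (x y : ℂ) : ex (x + y) = ex x * ex y := by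
  unfold ex
  rw [mul_add, Complex.exp_add]

private lemma Par_ex_half (j : ℕ) (hj : j % 2 = 1) : ex ((j : ℂ) / 2) = -1 := by
  obtain ⟨i, hi⟩ : ∃ i : ℕ, j = 2 * i + 1 := ⟨j / 2, by omega⟩
  have e : ((j : ℕ) : ℂ) / 2 = (i : ℂ) + 1 / 2 := by
    rw [hi]
    push_cast
    ring
  rw [e, Par_ex_add]
  have h1 : ex (i : ℂ) = 1 := by
    unfold ex
    rw [Complex.exp_eq_one_iff]
    exact ⟨i, by push_cast; ring⟩
  have h2 : ex (1 / 2 : ℂ) = -1 := by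
    unfold ex
    have h3 : 2 * (Real.pi : ℂ) * Complex.I * (1 / 2) = Real.pi * Complex.I := by ring
    rw [h3, Complex.exp_pi_mul_I]
  rw [h1, h2, one_mul]

private lemma Par_norm (l : ℂ) (r : ℝ) :
    ‖1 + r * l‖ ^ 2 = ‖(1 : ℂ)‖ ^ 2 + r * (‖1 + l‖ ^ 2 - ‖(1 : ℂ)‖ ^ 2 - ‖l‖ ^ 2) +
      r ^ 2 * ‖l‖ ^ 2 := by
  simp only [Complex.sq_norm, Complex.normSq_apply, Complex.add_re, Complex.add_im, Complex.mul_re,
    Complex.mul_im, Complex.ofReal_re, Complex.ofReal_im, Complex.one_re, Complex.one_im]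
  ring

variable {n t : ℕ}

/-- The exponents are odd. -/
private theorem Par_int [SqN n t] (hL : S_Lt) {F : ℕ} (hF : 0 < F) (hF2 : 2 ∣ F)
    {b : Ideal (OO n t)} (hb : b ≠ ⊥) (hodd : Odd (NI b)) {v : ℂ} (hv : v - 1 / F ∈ Lam b) :
    ∃ j : ℕ, j % 2 = 1 ∧ (F : ℝ) ^ 2 * NI b * ‖v‖ ^ 2 = j := by
  obtain ⟨-, -, -, hint, hint2, -, -⟩ := hL n t b hb
  have hF0 : (F : ℂ) ≠ 0 := by exact_mod_cast hF.ne'
  have hone : (1 : ℂ) ∈ Lam b := fun w _ => ⟨w, mul_one _⟩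
  obtain ⟨j2, h2⟩ := hint _ hv
  obtain ⟨j1, h1⟩ := hint2 _ hone _ hv
  have e1 : (F : ℂ) * v = 1 + ((F : ℝ) : ℂ) * (v - 1 / F) := by
    push_cast
    field_simp
    ring
  have hFv : (F : ℂ) * v ∈ Lam b := by
    rw [e1]
    exact lam_add hone (by simpa using lam_nat F hv)
  obtain ⟨j, hj⟩ := hint _ hFv
  have e2 : (F : ℝ) ^ 2 * NI b * ‖v‖ ^ 2 = j := by
    rw [← hj, norm_mul, Complex.norm_natCast]
    ring
  refine ⟨j, ?_, e2⟩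
  have e3 : (j : ℝ) = NI b + F * j1 + F ^ 2 * j2 := by
    rw [← hj, e1, Par_norm, ← h1, ← h2, norm_one]
    ring
  have e4 : (j : ℤ) = NI b + F * j1 + F ^ 2 * j2 := by exact_mod_cast e3
  obtain ⟨g, hg⟩ := hF2
  obtain ⟨i, hi⟩ := hodd
  have e5 : (j : ℤ) = 2 * (i + g * j1 + 2 * g ^ 2 * j2) + 1 := by
    rw [e4, hi, hg]
    push_cast
    ring
  omega

private theorem Par_Tc [SqN n t] (hL : S_Lt) (hR : S_Red) {F : ℕ} (hF : 0 < F) (hF2 : 2 ∣ F)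
    {b : Ideal (OO n t)} (hb : b ≠ ⊥) (hodd : Odd (NI b)) (k : ℕ) (hk : k % 2 = 1) (z : ℂ) :
    Tc F b 1 (k * (z + 1 / 2)) = -Tc F b 1 (k * z) := by
  obtain ⟨-, -, R3, -⟩ := hR n t F b hF hb 1
  rw [R3, R3]
  unfold TT Pool.Agent.DK.C.TT
  rw [← tsum_neg]
  refine tsum_congr fun v => ?_
  obtain ⟨v, hv⟩ := v
  have hv' : v - 1 / F ∈ Lam b := by
    have h : v - ((1 : ℤ) : ℂ) / F ∈ Lam b := hv
    rwa [Int.cast_one] at h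
  obtain ⟨j, hj, hj2⟩ := Par_int hL hF hF2 hb hodd hv'
  have e1 : (((F : ℝ) ^ 2 * (NI b : ℝ) : ℝ) : ℂ) * ((‖v‖ : ℝ) : ℂ) ^ 2 = (j : ℂ) := by
    exact_mod_cast congrArg (fun x : ℝ => (x : ℂ)) hj2
  have e2 : (((F : ℝ) ^ 2 * (NI b : ℝ) : ℝ) : ℂ) * ((‖v‖ : ℝ) : ℂ) ^ 2 * (k * (z + 1 / 2)) =
      (((F : ℝ) ^ 2 * (NI b : ℝ) : ℝ) : ℂ) * ((‖v‖ : ℝ) : ℂ) ^ 2 * (k * z) +
        ((j * k : ℕ) : ℂ) / 2 := by
    rw [e1]
    push_cast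
    ring
  change v⁻¹ * ex ((((F : ℝ) ^ 2 * (NI b : ℝ) : ℝ) : ℂ) * ((‖v‖ : ℝ) : ℂ) ^ 2 *
      (k * (z + 1 / 2))) = -(v⁻¹ * ex ((((F : ℝ) ^ 2 * (NI b : ℝ) : ℝ) : ℂ) *
        ((‖v‖ : ℝ) : ℂ) ^ 2 * (k * z)))
  rw [e2, Par_ex_add, Par_ex_half (j * k) (by rw [Nat.mul_mod, hj, hk])]
  ring

theorem tPar (hL : S_Lt) (hR : S_Red) (hC : S_Cnd) : S_Par := by
  intro n t _ f m b hm hb
  obtain ⟨hf, hmb, -, -, hNI, om, ob, -⟩ := hC n t f m b hm hb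
  have hF : 0 < 2 * f := by omega
  have hodd : Odd (NI (m * b)) := by
    rw [hNI]
    exact om.mul ob
  refine ⟨fun v hv => Par_int hL hF (Dvd.intro _ rfl) hmb hodd hv, fun z hz => ?_⟩
  have h1 := Par_Tc hL hR hF (Dvd.intro _ rfl) hmb hodd 1 rfl z
  rw [Nat.cast_one, one_mul, one_mul] at h1
  have h2 := Par_Tc hL hR hF (Dvd.intro _ rfl) hb.ne ob (NI m) (Nat.odd_iff.1 om) z
  unfold ThM
  rw [h1, h2]
  ring

end Pool.Agent.DN.C
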