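import Pool.Agent.Lib.DN.C.Spec9
import Pool.Agent.Lib.DN.CV.Bas

/-!
# THEOREM DN (MP_d0239a_nt), Part C, module Rda: theta series of `α b`, reduction to the lattice `O`
-/

set_option autoImplicit false

open Filter Topology
open scoped Pointwise

noncomputable section

namespace Pool.Agent.DN.C

open Pool.Agent.MuZ Pool.Agent.FW NumberField
open Pool.Agent.DI (io ofC io_inj exists_io io_ofC ofC_io VP MP UP TP ex)

variable {n t : ℕ}

open Classical in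
/-- The indicator of `α N b + F b̄`. -/
private def Rda_i (F : ℕ) (b : Ideal (OO n t)) (α : OO n t) (u : OO n t) : ℂ :=
  if u - α * ((NI b : ℕ) : OO n t) ∈ sp (F : OO n t) * cjI b then 1 else 0

private lemma Rda_rhS (f : ℕ) (b : Ideal (OO n t)) (u : OO n t) :
    rhS f b 1 u = Rda_i f b 1 u - Rda_i f b 1 (-u) := by
  have e1 : ((1 * NI b : ℤ) : OO n t) = 1 * ((NI b : ℕ) : OO n t) := by
    push_cast
    ring
  have e2 : -u - 1 * ((NI b : ℕ) : OO n t) = -(u + 1 * ((NI b : ℕ) : OO n t)) := by ring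
  unfold rhS Rda_i
  rw [e2, neg_mem_iff, e1]

/-! ## The ideal `F B` -/

/-- `N b` is in the conjugate ideal. -/
private lemma Rda_nu [SqN n t] (h3 : S_O3) (b : Ideal (OO n t)) : ((NI b : ℕ) : OO n t) ∈ cjI b := by
  have h : (NI b : OO n t) ∈ b * cjI b := by
    rw [((h3 n t).2.2.1 b).2.2]
    exact Ideal.mem_span_singleton_self _
  exact Ideal.mul_le_right h

private lemma Rda_F [SqN n t] (h3 : S_O3) (F : ℕ) (b : Ideal (OO n t)) (u : OO n t) :
    ((F * NI b : ℕ) : OO n t) * u ∈ sp (F : OO n t) * cjI b := by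
  apply Ideal.mul_mem_right
  rw [Nat.cast_mul]
  exact Ideal.mul_mem_mul (Ideal.mem_span_singleton_self _) (Rda_nu h3 b)

private lemma Rda_per [SqN n t] (h3 : S_O3) (F : ℕ) (b : Ideal (OO n t)) (α : OO n t) :
    PerO (F * NI b) (Rda_i F b α) := by
  intro v u
  have e : v + ((F * NI b : ℕ) : OO n t) * u - α * ((NI b : ℕ) : OO n t) =
      (v - α * ((NI b : ℕ) : OO n t)) + ((F * NI b : ℕ) : OO n t) * u := by ring
  unfold Rda_i
  rw [e, Ideal.add_mem_iff_left _ (Rda_F h3 F b u)]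

/-- The key equivalence. -/
private lemma Rda_key [SqN n t] (h3 : S_O3) {f : ℕ} (hf : Odd f) {b : Ideal (OO n t)}
    (hν : Odd (NI b)) {α v : OO n t} (h1 : (f : OO n t) ∣ α - 1) (h2 : (2 : OO n t) ∣ v - α) :
    v - α * ((NI b : ℕ) : OO n t) ∈ sp ((2 * f : ℕ) : OO n t) * cjI b ↔
      v - 1 * ((NI b : ℕ) : OO n t) ∈ sp (f : OO n t) * cjI b := by
  have hd : (α - 1) * ((NI b : ℕ) : OO n t) ∈ sp (f : OO n t) * cjI b :=
    Ideal.mul_mem_mul (Ideal.mem_span_singleton.2 h1) (Rda_nu h3 b)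
  constructor
  · intro h
    obtain ⟨y, hy, e⟩ := Ideal.mem_span_singleton_mul.1 h
    have h4 : v - α * ((NI b : ℕ) : OO n t) ∈ sp (f : OO n t) * cjI b := by
      rw [Ideal.mem_span_singleton_mul]
      refine ⟨2 * y, Ideal.mul_mem_left _ _ hy, ?_⟩
      rw [← e]
      push_cast
      ring
    have e2 : v - 1 * ((NI b : ℕ) : OO n t) = (v - α * ((NI b : ℕ) : OO n t)) +
        (α - 1) * ((NI b : ℕ) : OO n t) := by ring
    rw [e2]
    exact Ideal.add_mem _ h4 hd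
  · intro h
    have h4 : v - α * ((NI b : ℕ) : OO n t) ∈ sp (f : OO n t) * cjI b := by
      have e2 : v - α * ((NI b : ℕ) : OO n t) = (v - 1 * ((NI b : ℕ) : OO n t)) -
        (α - 1) * ((NI b : ℕ) : OO n t) := by ring
      rw [e2]
      exact Ideal.sub_mem _ h hd
    obtain ⟨y, hy⟩ : (2 : OO n t) ∣ v - α * ((NI b : ℕ) : OO n t) := by
      obtain ⟨j, hj⟩ := hν
      obtain ⟨c, hc⟩ := h2
      refine ⟨c - α * (j : OO n t), ?_⟩
      rw [hj]
      push_cast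
      linear_combination hc
    obtain ⟨j, hj⟩ : Odd (f * NI b) := hf.mul hν
    have h5 : y ∈ sp (f : OO n t) * cjI b := by
      have e3 : y = ((f * NI b : ℕ) : OO n t) * y - (j : OO n t) *
          (v - α * ((NI b : ℕ) : OO n t)) := by
        rw [hy, hj]
        push_cast
        ring
      rw [e3]
      exact Ideal.sub_mem _ (Rda_F h3 f b y) (Ideal.mul_mem_left _ _ h4)
    obtain ⟨x, hx, e⟩ := Ideal.mem_span_singleton_mul.1 h5
    rw [hy, Ideal.mem_span_singleton_mul]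
    refine ⟨x, hx, ?_⟩
    rw [← e]
    push_cast
    ring

/-- Membership implies a congruence modulo `2`. -/
private lemma Rda_two {f : ℕ} {b : Ideal (OO n t)} (hν : Odd (NI b)) {α v : OO n t}
    (h : v - α * ((NI b : ℕ) : OO n t) ∈ sp ((2 * f : ℕ) : OO n t) * cjI b) :
    (2 : OO n t) ∣ v - α := by
  obtain ⟨y, -, e⟩ := Ideal.mem_span_singleton_mul.1 h
  obtain ⟨j, hj⟩ := hν
  refine ⟨(f : OO n t) * y + α * (j : OO n t), ?_⟩
  rw [hj] at e
  push_cast at e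
  linear_combination -e

/-- The sum over `tm`. -/
private lemma Rda_sum [Ine n t] (h3 : S_O3) {ω : ℂ}
    (o1 : ∀ v u : OO n t, (2 : OO n t) ∣ v - u → om ω v = om ω u) {f : ℕ} (hf : Odd f)
    {b : Ideal (OO n t)} (hν : Odd (NI b)) (v : OO n t) :
    ∑ α ∈ tm n t f, om ω α * Rda_i (2 * f) b α v = Rda_i f b 1 v * om ω v := by
  classical
  by_cases hv : (2 : OO n t) ∣ v
  · have h0 : om ω v = 0 := by
      rw [o1 v 0 (by rw [sub_zero]; exact hv)]
      unfold om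
      rw [QuadraticAlgebra.re_zero, QuadraticAlgebra.im_zero, if_pos (dvd_zero _),
        if_pos (dvd_zero _)]
    rw [h0, mul_zero]
    refine Finset.sum_eq_zero fun α hα => ?_
    have h1 : ¬ v - α * ((NI b : ℕ) : OO n t) ∈ sp ((2 * f : ℕ) : OO n t) * cjI b := by
      intro h
      have h4 := Rda_two hν h
      have h5 : (2 : OO n t) ∣ α := by
        have h6 := dvd_sub hv h4
        rwa [sub_sub_cancel] at h6
      exact ((aO4 n t).2.2.1 α).1 (CV_tm hf hα).2 h5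
    unfold Rda_i
    rw [if_neg h1, mul_zero]
  · obtain ⟨α₀, hα₀, hd⟩ := CV_tm_ex (n := n) (t := t) hf (((aO4 n t).2.2.1 v).2 hv)
    rw [Finset.sum_eq_single_of_mem α₀ hα₀]
    · rw [o1 v α₀ hd, mul_comm]
      congr 1
      unfold Rda_i
      have hk := Rda_key h3 hf hν (CV_tm hf hα₀).1 hd
      by_cases h1 : v - 1 * ((NI b : ℕ) : OO n t) ∈ sp (f : OO n t) * cjI b
      · rw [if_pos (hk.2 h1), if_pos h1]
      · rw [if_neg fun h => h1 (hk.1 h), if_neg h1]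
    · intro α hα hne
      have h1 : ¬ v - α * ((NI b : ℕ) : OO n t) ∈ sp ((2 * f : ℕ) : OO n t) * cjI b := by
        intro h
        apply hne
        apply CV_tm_uni hf hα hα₀
        have h4 := dvd_sub hd (Rda_two hν h)
        rwa [sub_sub_sub_cancel_left] at h4
      unfold Rda_i
      rw [if_neg h1, mul_zero]

/-! ## The series -/

private lemma Rda_Th [SqN n t] (hD : S_Der) (h3 : S_O3) {ω : ℂ}
    (o1 : ∀ v u : OO n t, (2 : OO n t) ∣ v - u → om ω v = om ω u)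
    (o2 : ∀ v : OO n t, om ω (-v) = om ω v) {f : ℕ} {b : Ideal (OO n t)} (hF : 0 < f * NI b)
    {w : ℂ} (hw : 0 < w.im) :
    Th (so ω (rhS f b 1)) w =
      ∑' v : OO n t, Rda_i f b 1 v * om ω v / toC v * ex (Nm v * w) := by
  have hp : ∀ v u : OO n t, om ω (v + ((2 * (f * NI b) : ℕ) : OO n t) * u) = om ω v := by
    intro v u
    apply o1
    refine ⟨((f * NI b : ℕ) : OO n t) * u, ?_⟩
    push_cast
    ring
  have hq : ∀ v u : OO n t, Rda_i f b 1 (v + ((2 * (f * NI b) : ℕ) : OO n t) * u) =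
      Rda_i f b 1 v := by
    intro v u
    have e : v + ((2 * (f * NI b) : ℕ) : OO n t) * u = v + ((f * NI b : ℕ) : OO n t) * (2 * u) := by
      push_cast
      ring
    rw [e]
    exact Rda_per h3 f b 1 v (2 * u)
  have hq' : ∀ v u : OO n t, Rda_i f b 1 (-(v + ((2 * (f * NI b) : ℕ) : OO n t) * u)) =
      Rda_i f b 1 (-v) := by
    intro v u
    have e : -(v + ((2 * (f * NI b) : ℕ) : OO n t) * u) =
        -v + ((2 * (f * NI b) : ℕ) : OO n t) * (-u) := by ring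
    rw [e]
    exact hq (-v) (-u)
  have hs1 := (hD n t (2 * (f * NI b)) (fun v => Rda_i f b 1 v * om ω v) (by omega)
    (fun v u => by
      change Rda_i f b 1 _ * om ω _ = Rda_i f b 1 v * om ω v
      rw [hp, hq])).2.1 w hw
  have hs2 := (hD n t (2 * (f * NI b)) (fun v => Rda_i f b 1 (-v) * om ω v) (by omega)
    (fun v u => by
      change Rda_i f b 1 _ * om ω _ = Rda_i f b 1 (-v) * om ω v
      rw [hp, hq'])).2.1 w hw
  have e2 : ∑' v : OO n t, Rda_i f b 1 (-v) * om ω v / toC v * ex (Nm v * w) =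
      -∑' v : OO n t, Rda_i f b 1 v * om ω v / toC v * ex (Nm v * w) := by
    rw [← tsum_neg, ← (Equiv.neg (OO n t)).tsum_eq]
    refine tsum_congr fun v => ?_
    rw [Equiv.neg_apply, neg_neg, toC_neg, Nm_neg, o2]
    ring
  have e1 : ∑' v : OO n t, so ω (rhS f b 1) v / toC v * ex (Nm v * w) =
      ∑' v : OO n t, Rda_i f b 1 v * om ω v / toC v * ex (Nm v * w) -
      ∑' v : OO n t, Rda_i f b 1 (-v) * om ω v / toC v * ex (Nm v * w) := by
    rw [← hs1.tsum_sub hs2]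
    refine tsum_congr fun v => ?_
    unfold so
    rw [Rda_rhS]
    ring
  unfold Th
  rw [e1, e2]
  ring

/-- The coset `α/F + Lam b` is `1/(F N b)` times the set of the `toC u`, `u - α N b ∈ F B`. -/
private lemma Rda_cs [SqN n t] (hL : S_Lt) {F : ℕ} {b : Ideal (OO n t)} (hF : 0 < F) (hb : b ≠ ⊥)
    (α : OO n t) :
    cs (n := n) (t := t) (toC α / F) b = (fun v : ℂ => (((F * NI b : ℕ) : ℂ))⁻¹ * v) ''
      (toC '' {u : OO n t | u - α * ((NI b : ℕ) : OO n t) ∈ sp (F : OO n t) * cjI b}) := by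
  have hn : 0 < NI b := (hL n t b hb).1
  have hn' : (NI b : ℂ) ≠ 0 := Nat.cast_ne_zero.2 hn.ne'
  have hf' : (F : ℂ) ≠ 0 := Nat.cast_ne_zero.2 hF.ne'
  have p1 := (hL n t b hb).2.1
  ext v
  constructor
  · intro hv
    obtain ⟨u, hu, hv'⟩ := (p1 _).1 hv
    refine ⟨toC (α * ((NI b : ℕ) : OO n t) + (F : OO n t) * u),
      ⟨α * ((NI b : ℕ) : OO n t) + (F : OO n t) * u, ?_, rfl⟩, ?_⟩
    · change α * ((NI b : ℕ) : OO n t) + (F : OO n t) * u - α * ((NI b : ℕ) : OO n t) ∈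
        sp (F : OO n t) * cjI b
      rw [add_sub_cancel_left]
      exact Ideal.mul_mem_mul (Ideal.mem_span_singleton_self _) hu
    · have e : v = toC u / NI b + toC α / F := by rw [← hv']; ring
      change (((F * NI b : ℕ) : ℂ))⁻¹ * toC (α * ((NI b : ℕ) : OO n t) + (F : OO n t) * u) = v
      rw [toC_add, toC_mul, toC_mul, toC_nat, toC_nat, e]
      push_cast
      field_simp
      ring
  · rintro ⟨_, ⟨u, hu, rfl⟩, rfl⟩
    obtain ⟨w, hw, hwu⟩ := Ideal.mem_span_singleton_mul.1 hu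
    change (((F * NI b : ℕ) : ℂ))⁻¹ * toC u - toC α / F ∈ Lam b
    rw [p1]
    refine ⟨w, hw, ?_⟩
    have e : u = α * ((NI b : ℕ) : OO n t) + (F : OO n t) * w := by rw [hwu]; ring
    rw [e, toC_add, toC_mul, toC_mul, toC_nat, toC_nat]
    push_cast
    field_simp
    ring

/-- The sum over the image of a set. -/
private lemma Rda_TT [SqN n t] (A : Set (OO n t)) (ρ : OO n t → ℂ) (h1 : ∀ u ∈ A, ρ u = 1)
    (h0 : ∀ u ∉ A, ρ u = 0) (n₁ : ℕ) (z : ℂ) :
    TT (toC '' A) ((n₁ : ℝ)⁻¹) z = ∑' v : OO n t, ρ v / toC v * ex (Nm v * (z / n₁)) := by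
  unfold TT Pool.Agent.DK.C.TT
  rw [tsum_image (f := fun v : ℂ => v⁻¹ * ex (((n₁ : ℝ)⁻¹ : ℝ) * ‖v‖ ^ 2 * z)) (toC_inj.injOn)]
  rw [tsum_subtype A (fun v : OO n t => (toC v)⁻¹ * ex (((n₁ : ℝ)⁻¹ : ℝ) * ‖toC v‖ ^ 2 * z))]
  refine tsum_congr fun v => ?_
  by_cases hv : v ∈ A
  · rw [Set.indicator_of_mem hv, h1 v hv]
    have e : ((Nm v : ℤ) : ℂ) = (‖toC v‖ : ℂ) ^ 2 := by
      have := Nm_norm v
      exact_mod_cast congrArg (fun t₁ : ℝ => (t₁ : ℂ)) this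
    rw [e]
    push_cast
    ring_nf
  · rw [Set.indicator_of_notMem hv, h0 v hv]
    ring

private theorem Rda_set [SqN n t] {α : OO n t} (hα : α ≠ 0) (b : Ideal (OO n t)) (x : ℂ) :
    cs x (sp α * b) = (fun v => (toC α)⁻¹ * v) '' cs (toC α * x) b := by
  have h0 : toC α ≠ 0 := toC_ne hα
  ext v
  constructor
  · intro hv
    refine ⟨toC α * v, ?_, inv_mul_cancel_left₀ h0 v⟩
    have h1 : toC α * (v - x) ∈ Lam b := lam_sp.1 hv
    change toC α * v - toC α * x ∈ Lam b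
    rwa [← mul_sub]
  · rintro ⟨u, hu, rfl⟩
    change (toC α)⁻¹ * u - x ∈ Lam (sp α * b)
    rw [lam_sp, mul_sub, mul_inv_cancel_left₀ h0]
    exact hu

private theorem Rda_main [SqN n t] (hR : S_Red) (hT : S_Tt) (h2 : S_O2) {F : ℕ} (hf : 0 < F)
    {b : Ideal (OO n t)} (hb : b ≠ ⊥) {α : OO n t} (hα : α ≠ 0) (z : ℂ) :
    Tc F (sp α * b) 1 z = toC α * TT (cs (toC α / F) b) ((F : ℝ) ^ 2 * NI b) z := by
  have hT1 : ∀ (A : Set ℂ) (c : ℂ) (w : ℝ) (z : ℂ), c ≠ 0 →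
      TT ((fun v => c * v) '' A) w z = c⁻¹ * TT A (w * ‖c‖ ^ 2) z := hT.1
  have h0 : toC α ≠ 0 := toC_ne hα
  have hne : sp α * b ≠ ⊥ := by
    intro h
    rcases Ideal.mul_eq_bot.1 h with h | h
    · exact hα (Ideal.span_singleton_eq_bot.1 h)
    · exact hb h
  rw [(hR n t F (sp α * b) hf hne 1).2.2.1 z, Rda_set hα,
    hT1 _ _ _ _ (inv_ne_zero h0), inv_inv]
  have e1 : toC α * (((1 : ℤ) : ℂ) / (F : ℂ)) = toC α / F := by
    rw [Int.cast_one, mul_one_div]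
  have hn : ‖toC α‖ ≠ 0 := norm_ne_zero_iff.2 h0
  have e3 : ((NI (sp α) : ℕ) : ℝ) = ‖toC α‖ ^ 2 := by
    rw [← Nm_norm, ← (h2 n t).2.2.2.1 α]
    rfl
  have e2 : (F : ℝ) ^ 2 * ((NI (sp α * b) : ℕ) : ℝ) * ‖(toC α)⁻¹‖ ^ 2 = (F : ℝ) ^ 2 * NI b := by
    rw [(h2 n t).2.2.2.2.1, Nat.cast_mul, e3, norm_inv]
    field_simp
  rw [e1, e2]

theorem tRda (hL : S_Lt) (hT : S_Tt) (hD : S_Der) (hR : S_Red) (h2 : S_O2) (h3 : S_O3)
    (h6 : S_O6) (hO : S_Om) : S_Rda := by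
  intro n t _ ω hω f b z hf hb hb2 hz
  have hT1 : ∀ (A : Set ℂ) (c : ℂ) (w : ℝ) (z : ℂ), c ≠ 0 →
      TT ((fun v => c * v) '' A) w z = c⁻¹ * TT A (w * ‖c‖ ^ 2) z := hT.1
  have hF0 : 0 < 2 * f := Nat.mul_pos two_pos hf.pos
  have hn : 0 < NI b := (hL n t b hb).1
  have hν : Odd (NI b) := Nat.coprime_two_right.1 (((h6 n t).2.2.1 2 b two_pos).1 hb2)
  obtain ⟨o1, o2, -, -⟩ := hO n t ω hω
  have hw : 0 < (z / (NI b : ℂ)).im := by
    rw [Complex.div_natCast_im]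
    exact div_pos hz (Nat.cast_pos.2 hn)
  have hFn : 0 < 2 * f * NI b := Nat.mul_pos hF0 hn
  have hsum : ∀ α : OO n t, Summable fun v : OO n t =>
      Rda_i (2 * f) b α v / toC v * ex (Nm v * (z / (NI b : ℂ))) := fun α =>
    (hD n t (2 * f * NI b) _ hFn (Rda_per h3 (2 * f) b α)).2.1 _ hw
  have hterm : ∀ α ∈ tm n t f, om ω α * ((toC α)⁻¹ * Tc (2 * f) (sp α * b) 1 z) =
      ((2 * f * NI b : ℕ) : ℂ) * ∑' v : OO n t,
        om ω α * (Rda_i (2 * f) b α v / toC v * ex (Nm v * (z / (NI b : ℂ)))) := by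
    intro α hα
    have hα0 : α ≠ 0 := CV_ne_of_cop le_rfl (CV_tm hf hα).2
    have hc : (((2 * f * NI b : ℕ) : ℂ))⁻¹ ≠ 0 := inv_ne_zero (Nat.cast_ne_zero.2 hFn.ne')
    have e : ((2 * f : ℕ) : ℝ) ^ 2 * (NI b : ℝ) * ‖(((2 * f * NI b : ℕ) : ℂ))⁻¹‖ ^ 2 =
        ((NI b : ℕ) : ℝ)⁻¹ := by
      have hfR : ((2 * f : ℕ) : ℝ) ≠ 0 := Nat.cast_ne_zero.2 hF0.ne'
      have hnR : (NI b : ℝ) ≠ 0 := Nat.cast_ne_zero.2 hn.ne'
      rw [norm_inv, Complex.norm_natCast, Nat.cast_mul (2 * f) (NI b)]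
      field_simp
    rw [Rda_main hR hT h2 hF0 hb hα0, inv_mul_cancel_left₀ (toC_ne hα0), Rda_cs hL hF0 hb α,
      hT1 _ _ _ _ hc, inv_inv, e,
      Rda_TT {u : OO n t | u - α * ((NI b : ℕ) : OO n t) ∈ sp ((2 * f : ℕ) : OO n t) * cjI b}
        (Rda_i (2 * f) b α) (fun u hu => if_pos hu) (fun u hu => if_neg hu), tsum_mul_left]
    ring
  rw [Finset.sum_congr rfl hterm, ← Finset.mul_sum,
    ← Summable.tsum_finsetSum fun α _ => (hsum α).mul_left _,
    Rda_Th hD h3 o1 o2 (Nat.mul_pos hf.pos hn) hw]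
  congr 1
  refine tsum_congr fun v => ?_
  rw [← Rda_sum h3 o1 hf hν v, Finset.sum_div, Finset.sum_mul]
  refine Finset.sum_congr rfl fun α _ => ?_
  ring

end Pool.Agent.DN.C
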