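import Pool.Agent.Lib.DN.C.Spec9

/-!
# THEOREM DN (MP_d0239a_nt), Part C, module Sym: symmetry of the smoothed combination
-/

set_option autoImplicit false

open Filter Topology
open scoped Pointwise

noncomputable section

namespace Pool.Agent.DN.C

open Pool.Agent.MuZ Pool.Agent.FW NumberField
open Pool.Agent.DI (io ofC io_inj exists_io io_ofC ofC_io VP MP UP TP ex)

variable {n t : ℕ}

private theorem Sym_den (k : ℕ) {z : ℂ} (hz : 0 < z.im) : (k : ℂ) * z + 1 ≠ 0 := by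
  intro h0
  have h1 := congrArg Complex.im h0
  have h2 := congrArg Complex.re h0
  simp only [Complex.add_im, Complex.mul_im, Complex.natCast_re, Complex.natCast_im, zero_mul,
    add_zero, Complex.zero_im, Complex.one_im] at h1
  simp only [Complex.add_re, Complex.mul_re, Complex.natCast_re, Complex.natCast_im, zero_mul,
    sub_zero, Complex.zero_re, Complex.one_re] at h2
  have hc : (k : ℝ) = 0 := by
    rcases mul_eq_zero.1 h1 with h3 | h3
    · exact h3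
    · exact absurd h3 hz.ne'
  rw [hc, zero_mul, zero_add] at h2
  exact one_ne_zero h2

private theorem Sym_half {z : ℂ} (hz : 0 < z.im) : 0 < (z / 2).im := by
  rw [Complex.div_ofNat_im]
  positivity

private theorem Sym_im (k : ℕ) {z : ℂ} (hz : 0 < z.im) : 0 < (z / ((k : ℂ) * z + 1) / 2).im := by
  refine Sym_half ?_
  have hw := Sym_den k hz
  have hn : 0 < Complex.normSq ((k : ℂ) * z + 1) := Complex.normSq_pos.2 hw
  have e : (z / ((k : ℂ) * z + 1)).im = z.im / Complex.normSq ((k : ℂ) * z + 1) := by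
    rw [Complex.div_im]
    simp only [Complex.add_im, Complex.mul_im, Complex.natCast_re, Complex.natCast_im, zero_mul,
      add_zero, Complex.add_re, Complex.mul_re, sub_zero, Complex.one_re, Complex.one_im]
    rw [← sub_div]
    congr 1
    ring
  rw [e]
  exact div_pos hz hn

private theorem Sym_divn {k : ℕ} (hk : 0 < k) {z : ℂ} (hz : 0 < z.im) : 0 < (z / (k : ℂ)).im := by
  rw [Complex.div_natCast_im]
  exact div_pos hz (by exact_mod_cast hk)

private theorem Sym_muln {k : ℕ} (hk : 0 < k) {z : ℂ} (hz : 0 < z.im) : 0 < ((k : ℂ) * z).im := by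
  rw [Complex.mul_im, Complex.natCast_re, Complex.natCast_im, zero_mul, add_zero]
  exact mul_pos (by exact_mod_cast hk) hz

theorem tSym (hE : S_Etf) (hH : S_Hit) (hR : S_Red) (hC : S_Cnd) : S_Sym := by
  intro n t _ ω hω f M m b hm hb hlv
  obtain ⟨-, hmb, hm0, hb0, hN, hmo, hbo, -, -, -, -, -, -, -, hfr, -⟩ := hC n t f m b hm hb
  have hf0 : 0 < f := hm.odd.pos
  have hdvd := hlv.dvd
  unfold lev at hdvd
  rw [Finset.prod_singleton, ← hN] at hdvd
  obtain ⟨g, hg⟩ := hdvd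
  have hN0 : 0 < NI (m * b) := by
    rw [hN]
    exact Nat.mul_pos hm0 hb0
  have hNo : Odd (NI (m * b)) := by
    rw [hN]
    exact hmo.mul hbo
  have hgo : Odd g := by
    have h1 := hlv.odd
    rw [hg] at h1
    exact Nat.Odd.of_mul_right h1
  have hco : Odd (((NI (m * b) ^ 2 * g : ℕ) : ℤ)) := by
    have h1 : Odd (NI (m * b) ^ 2 * g) := hNo.pow.mul hgo
    exact_mod_cast h1
  obtain ⟨C1, hC1⟩ := hH n t ω hω (f * NI (m * b)) ((NI (m * b) ^ 2 * g : ℕ) : ℤ)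
    (rhS f (m * b) 1) (hm.odd.mul hNo) hco (hR n t f (m * b) hf0 hmb 1).1.2
  obtain ⟨C2, hC2⟩ := hH n t ω hω (f * NI b) ((NI (m * b) ^ 2 * g : ℕ) : ℤ)
    (rhS f b 1) (hm.odd.mul hbo) hco (hR n t f b hf0 hb.ne 1).1.2
  have hNc : ((NI (m * b) : ℕ) : ℂ) ≠ 0 := by exact_mod_cast hN0.ne'
  have hbc : ((NI b : ℕ) : ℂ) ≠ 0 := by exact_mod_cast hb0.ne'
  have hNN : ((NI (m * b) : ℕ) : ℂ) = (NI m : ℂ) * NI b := by
    rw [hN]
    push_cast
    ring
  have hMc : (M : ℂ) = (Dk n t : ℂ) * (f : ℂ) ^ 2 * ((NI (m * b) : ℕ) : ℂ) ^ 3 * g := by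
    rw [hg]
    push_cast
    ring
  refine ⟨((2 * f * NI (m * b) : ℕ) * C1 - NI m * ((2 * f * NI b : ℕ) * C2)) / fr b,
    fun z hz => ?_⟩
  have h1 := hE n t ω hω f m b (z / 2) hm hb (Sym_half hz)
  have h2 := hE n t ω hω f m b (z / (M * z + 1) / 2) hm hb (Sym_im M hz)
  have h3 := hC1 (z / (NI (m * b) : ℂ)) (Sym_divn hN0 hz)
  have h4 := hC2 ((NI m : ℂ) * z / (NI b : ℂ)) (Sym_divn hb0 (Sym_muln hm0 hz))
  have e1 : (Dk n t : ℂ) * ((f * NI (m * b) : ℕ) : ℂ) ^ 2 * (((NI (m * b) ^ 2 * g : ℕ) : ℤ) : ℂ) *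
      (z / (NI (m * b) : ℂ)) = M * z := by
    rw [hMc]
    push_cast
    field_simp
  have e2 : (Dk n t : ℂ) * ((f * NI b : ℕ) : ℂ) ^ 2 * (((NI (m * b) ^ 2 * g : ℕ) : ℤ) : ℂ) *
      ((NI m : ℂ) * z / (NI b : ℂ)) = M * z := by
    rw [hMc]
    push_cast
    rw [hNN]
    field_simp
  rw [e1] at h3
  rw [e2] at h4
  have e3 : z / (M * z + 1) / 2 / (NI (m * b) : ℂ) = z / (NI (m * b) : ℂ) / (M * z + 1) / 2 := by
    ring
  have e4 : (NI m : ℂ) * (z / (M * z + 1) / 2) / (NI b : ℂ) =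
      (NI m : ℂ) * z / (NI b : ℂ) / (M * z + 1) / 2 := by ring
  have e5 : z / 2 / (NI (m * b) : ℂ) = z / (NI (m * b) : ℂ) / 2 := by ring
  have e6 : (NI m : ℂ) * (z / 2) / (NI b : ℂ) = (NI m : ℂ) * z / (NI b : ℂ) / 2 := by ring
  rw [e3, e4, h3, h4] at h2
  rw [e5, e6] at h1
  apply mul_left_cancel₀ hfr
  rw [h2, mul_add (fr b), mul_neg (fr b), h1, mul_div_cancel₀ _ hfr]
  ring

end Pool.Agent.DN.C
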