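import Pool.Agent.Lib.DN.C.Spec

/-!
# Theorem DN, part C: transformation of `ThS` (module `TrS`)
-/

set_option autoImplicit false

noncomputable section

namespace Pool.Agent.DN.C

open Pool.Agent.MuZ Pool.Agent.FW NumberField
open Pool.Agent.DI (io ofC io_inj exists_io io_ofC ofC_io VP MP UP TP ex sqr sqr_sq kap)

/-- **Transformation of `ThS` under `Γ_0(4 M)`.** -/
theorem tTrS (hT : S_Tct) (h2 : S_O2) (hC : S_Cnd) : S_TrS := by
  intro n t _ f M m b hm hb hM a b' c d hg s z hz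
  obtain ⟨hdet, hMc⟩ := hg
  obtain ⟨-, -, -, -, nmul, nzero, -, -⟩ := h2 n t
  obtain ⟨hf15, -⟩ := hC n t f m b hm hb
  have hmb : m * b ≠ ⊥ := by
    intro h
    rcases Ideal.mul_eq_bot.1 h with h | h
    · exact hm.ne h
    · exact hb.ne h
  have hν0 : NI m ≠ 0 := fun h => hm.ne ((nzero m).1 h)
  have hνC : (NI m : ℂ) ≠ 0 := by exact_mod_cast hν0
  have hνZ : (NI m : ℤ) ≠ 0 := by exact_mod_cast hν0
  -- the level
  have hlev : ((Dk n t * (2 * f) ^ 2 * (NI m * NI b) ^ 3 : ℕ) : ℤ) ∣ c := by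
    have h1 := hM.dvd
    unfold lev at h1
    rw [Finset.prod_singleton] at h1
    have h3 : Dk n t * (2 * f) ^ 2 * (NI m * NI b) ^ 3 ∣ 4 * M := by
      have e : Dk n t * (2 * f) ^ 2 * (NI m * NI b) ^ 3 =
          4 * (Dk n t * f ^ 2 * (NI m * NI b) ^ 3) := by ring
      rw [e]
      exact Nat.mul_dvd_mul_left 4 h1
    have h4 : ((4 * M : ℕ) : ℤ) ∣ c := by
      push_cast
      exact hMc
    exact (Int.natCast_dvd_natCast.2 h3).trans h4
  obtain ⟨e, he⟩ := hlev
  -- the first term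
  obtain ⟨Φ1, hΦ1⟩ := hT n t (2 * f) (m * b) s (by omega) (Dvd.intro _ rfl) hmb a b' c d hdet (by
    rw [nmul, he]
    refine ⟨(NI m * NI b) ^ 2 * e, ?_⟩
    push_cast
    ring)
  -- the second term
  set c1 : ℤ := Dk n t * (2 * f) ^ 2 * (NI m ^ 2 * NI b ^ 3) * e with hc1
  have hcc : c = NI m * c1 := by
    rw [he, hc1]
    push_cast
    ring
  obtain ⟨Φ2, hΦ2⟩ := hT n t (2 * f) b s (by omega) (Dvd.intro _ rfl) hb.ne a (NI m * b') c1 d (by
    rw [hcc] at hdet
    linear_combination hdet) (by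
    refine ⟨NI m ^ 2 * NI b ^ 2 * e, ?_⟩
    rw [hc1]
    push_cast
    ring)
  have hmob : ∀ w : ℂ, (NI m : ℂ) * mob a b' c d w = mob a (NI m * b') c1 d (NI m * w) := by
    intro w
    unfold mob
    rw [hcc]
    push_cast
    rw [mul_div_assoc']
    congr 1 <;> ring
  have key : ∀ w : ℂ, 0 < w.im → ThS (2 * f) m b s (mob a b' c d w) =
      eps n t d * ThS (2 * f) m b (a * s) w + (Φ1 - NI m * Φ2) / fr b := by
    intro w hw
    have hw' : 0 < ((NI m : ℂ) * w).im := by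
      have : ((NI m : ℂ) * w).im = NI m * w.im := by
        rw [← Complex.ofReal_natCast, Complex.im_ofReal_mul]
      rw [this]
      have : (0 : ℝ) < NI m := by exact_mod_cast Nat.pos_of_ne_zero hν0
      positivity
    unfold ThS
    rw [hΦ1 w hw, hmob, hΦ2 _ hw']
    ring
  have h0 : PhS (2 * f) m b s a b' c d = (Φ1 - NI m * Φ2) / fr b := by
    unfold PhS
    rw [key Complex.I (by simp)]
    ring
  rw [h0]
  exact key z hz

end Pool.Agent.DN.C
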