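import Pool.Agent.Lib.DN.C.SpecR

/-!
# THEOREM DN, Part C, module Two: Poisson summation, dimension 2

Edit of `DT/C/Two.lean`: the case `t = 1` as there, the case `t = 0` is a product lattice.
-/

set_option autoImplicit false

noncomputable section

namespace Pool.Agent.DN.C

open Filter Topology
open Pool.Agent.MuZ Pool.Agent.FW NumberField
open Pool.Agent.DI (io ofC io_inj exists_io io_ofC ofC_io VP MP UP TP ex)

variable (n t : ℕ)

/-! ### The two lattice lemmas -/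

private def two_f (s : (ℤ × ℤ) ⊕ (ℤ × ℤ)) : OO n t :=
  Sum.elim (fun p => (⟨p.1 - p.2, 2 * p.2⟩ : OO n t)) (fun p => ⟨p.1 - p.2, 2 * p.2 + 1⟩) s

private theorem two_f_inl (p : ℤ × ℤ) : two_f n t (Sum.inl p) = ⟨p.1 - p.2, 2 * p.2⟩ := rfl

private theorem two_f_inr (p : ℤ × ℤ) : two_f n t (Sum.inr p) = ⟨p.1 - p.2, 2 * p.2 + 1⟩ := rfl

private theorem two_f_bij : Function.Bijective (two_f n t) := by
  constructor
  · rintro (p | p) (q | q) h
    · rw [two_f_inl, two_f_inl, QuadraticAlgebra.mk.injEq] at h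
      congr 1
      apply Prod.ext
      · omega
      · omega
    · rw [two_f_inl, two_f_inr, QuadraticAlgebra.mk.injEq] at h
      omega
    · rw [two_f_inr, two_f_inl, QuadraticAlgebra.mk.injEq] at h
      omega
    · rw [two_f_inr, two_f_inr, QuadraticAlgebra.mk.injEq] at h
      congr 1
      apply Prod.ext
      · omega
      · omega
  · intro v
    rcases Int.even_or_odd v.im with ⟨n', hk⟩ | ⟨n', hk⟩
    · refine ⟨Sum.inl (v.re + n', n'), ?_⟩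
      rw [two_f_inl]
      apply QuadraticAlgebra.ext
      · simp only
        omega
      · simp only
        omega
    · refine ⟨Sum.inr (v.re + n', n'), ?_⟩
      rw [two_f_inr]
      apply QuadraticAlgebra.ext
      · simp only
        omega
      · simp only
        omega

private def two_e : (ℤ × ℤ) ⊕ (ℤ × ℤ) ≃ OO n t := Equiv.ofBijective (two_f n t) (two_f_bij n t)

private theorem two_e_inl (p : ℤ × ℤ) : two_e n t (Sum.inl p) = ⟨p.1 - p.2, 2 * p.2⟩ := rfl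

private theorem two_e_inr (p : ℤ × ℤ) : two_e n t (Sum.inr p) = ⟨p.1 - p.2, 2 * p.2 + 1⟩ := rfl

private theorem two_left (G : ℤ → ℤ → ℂ) (h0 : Summable fun p : ℤ × ℤ => G (2 * p.1) (2 * p.2))
    (h1 : Summable fun p : ℤ × ℤ => G (2 * p.1 + 1) (2 * p.2 + 1)) :
    ∑' u : OO n t, G (2 * u.re + u.im) u.im
      = ∑' p : ℤ × ℤ, G (2 * p.1) (2 * p.2) + ∑' p : ℤ × ℤ, G (2 * p.1 + 1) (2 * p.2 + 1) := by
  have e0 : ∀ p : ℤ × ℤ, ((fun u : OO n t => G (2 * u.re + u.im) u.im) ∘ two_e n t) (Sum.inl p)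
      = G (2 * p.1) (2 * p.2) := by
    intro p
    rw [Function.comp_apply, two_e_inl]
    simp only
    congr 1
    ring
  have e1 : ∀ p : ℤ × ℤ, ((fun u : OO n t => G (2 * u.re + u.im) u.im) ∘ two_e n t) (Sum.inr p)
      = G (2 * p.1 + 1) (2 * p.2 + 1) := by
    intro p
    rw [Function.comp_apply, two_e_inr]
    simp only
    congr 1
    ring
  rw [← (two_e n t).tsum_eq (fun u : OO n t => G (2 * u.re + u.im) u.im)]
  have h2 := HasSum.sum (f := (fun u : OO n t => G (2 * u.re + u.im) u.im) ∘ two_e n t)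
    (a := ∑' p : ℤ × ℤ, G (2 * p.1) (2 * p.2))
    (b := ∑' p : ℤ × ℤ, G (2 * p.1 + 1) (2 * p.2 + 1))
    (by
      have h3 : ((fun u : OO n t => G (2 * u.re + u.im) u.im) ∘ two_e n t) ∘ Sum.inl
        = fun p : ℤ × ℤ => G (2 * p.1) (2 * p.2) := funext e0
      rw [h3]
      exact h0.hasSum)
    (by
      have h3 : ((fun u : OO n t => G (2 * u.re + u.im) u.im) ∘ two_e n t) ∘ Sum.inr
        = fun p : ℤ × ℤ => G (2 * p.1 + 1) (2 * p.2 + 1) := funext e1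
      rw [h3]
      exact h1.hasSum)
  rw [Function.comp_def] at h2
  exact h2.tsum_eq

private theorem two_ex_add (a b : ℂ) : ex (a + b) = ex a * ex b := by
  unfold ex
  rw [← Complex.exp_add]
  congr 1
  ring

private theorem two_ex_int (n' : ℤ) : ex n' = 1 := by
  unfold ex
  rw [Complex.exp_eq_one_iff]
  exact ⟨n', by ring⟩

private theorem two_half (n' : ℤ) : 1 + ex (n' / 2) = if Even n' then 2 else 0 := by
  split_ifs with h
  · obtain ⟨n', rfl⟩ := h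
    have h1 : (((n' + n' : ℤ)) : ℂ) / 2 = (n' : ℂ) := by
      push_cast
      ring
    rw [h1, two_ex_int]
    norm_num
  · rw [Int.not_even_iff_odd] at h
    obtain ⟨n', rfl⟩ := h
    have h1 : (((2 * n' + 1 : ℤ)) : ℂ) / 2 = (n' : ℂ) + 1 / 2 := by
      push_cast
      ring
    rw [h1, two_ex_add, two_ex_int]
    unfold ex
    have h2 : 2 * (Real.pi : ℂ) * Complex.I * (1 / 2) = Real.pi * Complex.I := by ring
    rw [h2, Complex.exp_pi_mul_I]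
    norm_num

private theorem two_right (H : ℤ → ℤ → ℂ) :
    ∑' p : ℤ × ℤ, H p.1 p.2 * (1 + ex ((p.1 + p.2 : ℤ) / 2))
      = 2 * ∑' u : OO n t, H u.im (-(2 * u.re + u.im)) := by
  have hinj : Function.Injective fun u : OO n t => ((u.im, -(2 * u.re + u.im)) : ℤ × ℤ) := by
    intro u v h
    have h1 := congrArg Prod.fst h
    have h2 := congrArg Prod.snd h
    simp only at h1 h2
    apply QuadraticAlgebra.ext
    · omega
    · exact h1
  have hsup : Function.support (fun p : ℤ × ℤ => H p.1 p.2 * (1 + ex ((p.1 + p.2 : ℤ) / 2)))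
      ⊆ Set.range fun u : OO n t => ((u.im, -(2 * u.re + u.im)) : ℤ × ℤ) := by
    intro p hp
    rw [Function.mem_support, two_half] at hp
    have h1 : Even (p.1 + p.2) := by
      by_contra h
      rw [if_neg h, mul_zero] at hp
      exact hp rfl
    obtain ⟨n', hk⟩ := h1
    refine ⟨⟨-n', p.1⟩, ?_⟩
    ext
    · rfl
    · simp only
      omega
  rw [← hinj.tsum_eq hsup, ← tsum_mul_left]
  congr 1
  ext u
  simp only
  rw [two_half, if_pos ⟨-u.re, by ring⟩]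
  ring

/-! ### The two products -/

private def T0 (τ : ℂ) (s : ℝ) : ℂ := ∑' x : ℤ, ex (τ * (x + s) ^ 2)
private def T1 (τ : ℂ) (s : ℝ) : ℂ := ∑' x : ℤ, (x + s) * ex (τ * (x + s) ^ 2)
private def D0 (τ : ℂ) (s : ℝ) : ℂ := ∑' j : ℤ, ex (j * s - j ^ 2 / (4 * τ))
private def D1 (τ : ℂ) (s : ℝ) : ℂ := ∑' j : ℤ, j * ex (j * s - j ^ 2 / (4 * τ))

/-- the left product -/
private theorem two_prodL (hP : S_Poi) (D : ℝ) (hD : 0 < D) (τ : ℂ) (hτ : 0 < τ.im) (α β : ℝ) :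
    (Summable fun p : ℤ × ℤ => ((p.1 + α : ℂ) - Complex.I * (√D : ℝ) * (p.2 + β)) *
      ex (τ * (p.1 + α) ^ 2 + D * τ * (p.2 + β) ^ 2)) ∧
    ∑' p : ℤ × ℤ, ((p.1 + α : ℂ) - Complex.I * (√D : ℝ) * (p.2 + β)) *
      ex (τ * (p.1 + α) ^ 2 + D * τ * (p.2 + β) ^ 2)
      = T1 τ α * T0 (D * τ) β - Complex.I * (√D : ℝ) * (T0 τ α * T1 (D * τ) β) := by
  have hτ7 : 0 < (D * τ).im := by
    rw [Complex.im_ofReal_mul]
    exact mul_pos hD hτ
  obtain ⟨-, -, a0, a1, -, -, -, -⟩ := hP τ α D hτ hD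
  obtain ⟨-, -, b0, b1, -, -, -, -⟩ := hP (D * τ) β D hτ7 hD
  have s1 := summable_mul_of_summable_norm a1.norm b0.norm
  have s2 := summable_mul_of_summable_norm a0.norm b1.norm
  have t1 := tsum_mul_tsum_of_summable_norm a1.norm b0.norm
  have t2 := tsum_mul_tsum_of_summable_norm a0.norm b1.norm
  have key : ∀ p : ℤ × ℤ, ((p.1 + α : ℂ) - Complex.I * (√D : ℝ) * (p.2 + β)) *
      ex (τ * (p.1 + α) ^ 2 + D * τ * (p.2 + β) ^ 2)
      = (((p.1 : ℂ) + α) * ex (τ * ((p.1 : ℂ) + α) ^ 2)) * ex (D * τ * ((p.2 : ℂ) + β) ^ 2)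
        - Complex.I * (√D : ℝ) * (ex (τ * ((p.1 : ℂ) + α) ^ 2) *
          (((p.2 : ℂ) + β) * ex (D * τ * ((p.2 : ℂ) + β) ^ 2))) := by
    intro p
    rw [two_ex_add]
    ring
  simp only [key]
  refine ⟨s1.sub (s2.mul_left _), ?_⟩
  rw [Summable.tsum_sub s1 (s2.mul_left _), tsum_mul_left, ← t1, ← t2]
  rfl

/-- the right product -/
private theorem two_prodR (hP : S_Poi) (D : ℝ) (hD : 0 < D) (τ : ℂ) (hτ : 0 < τ.im) (α β : ℝ) :
    (Summable fun p : ℤ × ℤ => ((p.1 : ℂ) - Complex.I * (√D : ℝ) / D * p.2) *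
      ex (p.1 * α + p.2 * β - p.1 ^ 2 / (4 * τ) - p.2 ^ 2 / (4 * (D * τ)))) ∧
    ∑' p : ℤ × ℤ, ((p.1 : ℂ) - Complex.I * (√D : ℝ) / D * p.2) *
      ex (p.1 * α + p.2 * β - p.1 ^ 2 / (4 * τ) - p.2 ^ 2 / (4 * (D * τ)))
      = D1 τ α * D0 (D * τ) β - Complex.I * (√D : ℝ) / D * (D0 τ α * D1 (D * τ) β) := by
  have hτ7 : 0 < (D * τ).im := by
    rw [Complex.im_ofReal_mul]
    exact mul_pos hD hτ
  obtain ⟨-, -, -, -, a0, a1, -, -⟩ := hP τ α D hτ hD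
  obtain ⟨-, -, -, -, b0, b1, -, -⟩ := hP (D * τ) β D hτ7 hD
  have s1 := summable_mul_of_summable_norm a1.norm b0.norm
  have s2 := summable_mul_of_summable_norm a0.norm b1.norm
  have t1 := tsum_mul_tsum_of_summable_norm a1.norm b0.norm
  have t2 := tsum_mul_tsum_of_summable_norm a0.norm b1.norm
  have key : ∀ p : ℤ × ℤ, ((p.1 : ℂ) - Complex.I * (√D : ℝ) / D * p.2) *
      ex (p.1 * α + p.2 * β - p.1 ^ 2 / (4 * τ) - p.2 ^ 2 / (4 * (D * τ)))
      = ((p.1 : ℂ) * ex (p.1 * α - p.1 ^ 2 / (4 * τ))) * ex (p.2 * β - p.2 ^ 2 / (4 * (D * τ)))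
        - Complex.I * (√D : ℝ) / D * (ex (p.1 * α - p.1 ^ 2 / (4 * τ)) *
          ((p.2 : ℂ) * ex (p.2 * β - p.2 ^ 2 / (4 * (D * τ))))) := by
    intro p
    have e1 : (p.1 * α + p.2 * β - p.1 ^ 2 / (4 * τ) - p.2 ^ 2 / (4 * (D * τ)) : ℂ)
        = (p.1 * α - p.1 ^ 2 / (4 * τ)) + (p.2 * β - p.2 ^ 2 / (4 * (D * τ))) := by
      ring
    rw [e1, two_ex_add]
    ring
  simp only [key]
  refine ⟨s1.sub (s2.mul_left _), ?_⟩
  rw [Summable.tsum_sub s1 (s2.mul_left _), tsum_mul_left, ← t1, ← t2]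
  rfl

/-- the two products agree -/
private theorem two_swap (hP : S_Poi) (D : ℝ) (hD : 0 < D) (τ : ℂ) (hτ : 0 < τ.im) (α β : ℝ) :
    T1 τ α * T0 (D * τ) β - Complex.I * (√D : ℝ) * (T0 τ α * T1 (D * τ) β)
      = Complex.I / (4 * (√D : ℝ) * τ ^ 2) *
        (D1 τ α * D0 (D * τ) β - Complex.I * (√D : ℝ) / D * (D0 τ α * D1 (D * τ) β)) := by
  have hτ7 : 0 < (D * τ).im := by
    rw [Complex.im_ofReal_mul]
    exact mul_pos hD hτ
  have hτ0 : τ ≠ 0 := by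
    rintro rfl
    simp at hτ
  have hs : ((√D : ℝ) : ℂ) ≠ 0 := by
    have h1 : 0 < √D := Real.sqrt_pos.2 hD
    exact_mod_cast h1.ne'
  have hs2 : ((√D : ℝ) : ℂ) ^ 2 = D := by
    have h1 : √D ^ 2 = D := Real.sq_sqrt hD.le
    exact_mod_cast h1
  obtain ⟨k2, k7, -, -, -, -, a0, a1⟩ := hP τ α D hτ hD
  obtain ⟨-, -, -, -, -, -, b0, b1⟩ := hP (D * τ) β D hτ7 hD
  have c0 : T0 τ α = (Complex.I / (2 * τ)) ^ (1 / 2 : ℂ) * D0 τ α := a0
  have c1 : T1 τ α = (Complex.I / (2 * τ)) ^ (1 / 2 : ℂ) / (2 * τ) * D1 τ α := a1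
  have d0 : T0 (D * τ) β = (Complex.I / (2 * (D * τ))) ^ (1 / 2 : ℂ) * D0 (D * τ) β := b0
  have d1 : T1 (D * τ) β = (Complex.I / (2 * (D * τ))) ^ (1 / 2 : ℂ) / (2 * (D * τ)) * D1 (D * τ) β :=
    b1
  rw [k7] at d0 d1
  rw [c0, c1, d0, d1]
  set κ : ℂ := (Complex.I / (2 * τ)) ^ (1 / 2 : ℂ) with hκ
  have e1 : κ / (2 * τ) * D1 τ α * (κ / (√D : ℝ) * D0 (D * τ) β) -
      Complex.I * (√D : ℝ) * (κ * D0 τ α * (κ / (√D : ℝ) / (2 * (D * τ)) * D1 (D * τ) β))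
      = κ ^ 2 * (1 / (2 * τ * (√D : ℝ))) * (D1 τ α * D0 (D * τ) β
        - Complex.I * (√D : ℝ) / D * (D0 τ α * D1 (D * τ) β)) := by
    field_simp
  rw [e1, k2]
  congr 1
  field_simp
  ring

private theorem Two_one (hP : S_Poi) (n : ℕ) [SqN n 1] (m : ℕ) (v₀ : OO n 1) (τ : ℂ) (hm : 0 < m)
    (hτ : 0 < τ.im) :
    ∑' u : OO n 1, toC (cjO (v₀ + (m : OO n 1) * u)) * ex (Nm (v₀ + (m : OO n 1) * u) * τ)
    = -1 / (Dk n 1 * m ^ 3 * τ ^ 2) *
      ∑' u : OO n 1, toC (cjO u) * ex (-(Nm u) / (Dk n 1 * m ^ 2 * τ) - (v₀ * cjO u).im / m) := by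
  obtain ⟨D, hDd⟩ : ∃ D : ℝ, D = (Dk n 1 : ℝ) := ⟨_, rfl⟩
  have hk1 : 1 ≤ n := hn (n := n) (t := 1)
  have hDk : D = 4 * n - 1 := by
    rw [hDd, Dk_castR]
    push_cast
    ring
  have hD : 0 < D := by
    have : (1 : ℝ) ≤ n := by exact_mod_cast hk1
    rw [hDk]
    linarith
  have hDkC : (D : ℂ) = 4 * n - 1 := by
    rw [hDk]
    push_cast
    rfl
  have hD0 : (D : ℂ) ≠ 0 := by exact_mod_cast hD.ne'
  have hDc : (Dk n 1 : ℂ) = (D : ℂ) := by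
    rw [hDd, Complex.ofReal_natCast]
  rw [hDc]
  have hm0 : (m : ℂ) ≠ 0 := by exact_mod_cast hm.ne'
  have hmR : (m : ℝ) ≠ 0 := by exact_mod_cast hm.ne'
  have hτ0 : τ ≠ 0 := by
    rintro rfl
    simp at hτ
  have hs : ((√D : ℝ) : ℂ) ≠ 0 := by
    have h1 : 0 < √D := Real.sqrt_pos.2 hD
    exact_mod_cast h1.ne'
  have hs2 : ((√D : ℝ) : ℂ) ^ 2 = D := by
    have h1 : √D ^ 2 = D := Real.sq_sqrt hD.le
    exact_mod_cast h1
  have hw : wC n 1 = 1 / 2 + Complex.I * (√D : ℝ) / 2 := by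
    apply Complex.ext
    · simp [wC]
    · simp [wC, hDd]
  set θ : ℂ := (m : ℂ) ^ 2 * τ with ht
  have htim : 0 < θ.im := by
    have h1 : θ.im = (m : ℝ) ^ 2 * τ.im := by
      rw [ht, show ((m : ℂ) ^ 2 : ℂ) = (((m : ℝ) ^ 2 : ℝ) : ℂ) by push_cast; rfl,
        Complex.im_ofReal_mul]
    rw [h1]
    positivity
  have ht0 : θ ≠ 0 := by
    intro h
    rw [h] at htim
    simp at htim
  set α : ℝ := (v₀.re + v₀.im / 2) / m with hα
  set β : ℝ := v₀.im / (2 * m) with hβ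
  -- the left side
  have L1 : ∀ u : OO n 1, toC (cjO (v₀ + (m : OO n 1) * u)) * ex (Nm (v₀ + (m : OO n 1) * u) * τ)
      = m * ((((2 * u.re + u.im : ℤ) : ℂ) / 2 + α - Complex.I * (√D : ℝ) * ((u.im : ℂ) / 2 + β)) *
        ex (θ * ((((2 * u.re + u.im : ℤ) : ℂ) / 2 + α) ^ 2 + D * ((u.im : ℂ) / 2 + β) ^ 2))) := by
    intro u
    have hre : (v₀ + (m : OO n 1) * u).re = v₀.re + m * u.re := by
      rw [QuadraticAlgebra.re_add, QuadraticAlgebra.re_mul]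
      simp only [QuadraticAlgebra.re_natCast, QuadraticAlgebra.im_natCast]
      ring
    have him : (v₀ + (m : OO n 1) * u).im = v₀.im + m * u.im := by
      rw [QuadraticAlgebra.im_add, QuadraticAlgebra.im_mul]
      simp only [QuadraticAlgebra.re_natCast, QuadraticAlgebra.im_natCast]
      ring
    have e1 : toC (cjO (v₀ + (m : OO n 1) * u)) = m * (((2 * u.re + u.im : ℤ) : ℂ) / 2 + α
        - Complex.I * (√D : ℝ) * ((u.im : ℂ) / 2 + β)) := by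
      rw [toC_apply, hw, hα, hβ]
      simp only [cjO, hre, him]
      push_cast
      field_simp
      ring
    have e2 : (Nm (v₀ + (m : OO n 1) * u) : ℂ) * τ
        = θ * ((((2 * u.re + u.im : ℤ) : ℂ) / 2 + α) ^ 2 + D * ((u.im : ℂ) / 2 + β) ^ 2) := by
      unfold Nm
      rw [hre, him, ht, hα, hβ, hDkC]
      push_cast
      field_simp
      ring
    rw [e1, e2]
    ring
  simp only [L1]
  rw [tsum_mul_left]
  have hαj : ∀ j : ℝ, ∀ p : ℤ, ((p : ℂ) + ((α + j / 2 : ℝ) : ℂ))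
      = ((2 * p : ℤ) : ℂ) / 2 + (j : ℂ) / 2 + α := by
    intro j p
    push_cast
    ring
  have hβj : ∀ j : ℝ, ∀ p : ℤ, ((p : ℂ) + ((β + j / 2 : ℝ) : ℂ))
      = ((2 * p : ℤ) : ℂ) / 2 + (j : ℂ) / 2 + β := by
    intro j p
    push_cast
    ring
  obtain ⟨sL0, tL0⟩ := two_prodL hP D hD θ htim (α + 0 / 2) (β + 0 / 2)
  obtain ⟨sL1, tL1⟩ := two_prodL hP D hD θ htim (α + 1 / 2) (β + 1 / 2)
  have g0 : ∀ p : ℤ × ℤ, ((p.1 : ℂ) + ((α + 0 / 2 : ℝ) : ℂ)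
      - Complex.I * (√D : ℝ) * (p.2 + ((β + 0 / 2 : ℝ) : ℂ))) *
      ex (θ * (p.1 + ((α + 0 / 2 : ℝ) : ℂ)) ^ 2 + D * θ * (p.2 + ((β + 0 / 2 : ℝ) : ℂ)) ^ 2)
      = (((2 * p.1 : ℤ) : ℂ) / 2 + α - Complex.I * (√D : ℝ) * (((2 * p.2 : ℤ) : ℂ) / 2 + β)) *
        ex (θ * ((((2 * p.1 : ℤ) : ℂ) / 2 + α) ^ 2 + D * (((2 * p.2 : ℤ) : ℂ) / 2 + β) ^ 2)) := by
    intro p
    congr 1
    · push_cast
      ring
    · congr 1
      push_cast
      ring
  have g1 : ∀ p : ℤ × ℤ, ((p.1 : ℂ) + ((α + 1 / 2 : ℝ) : ℂ)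
      - Complex.I * (√D : ℝ) * (p.2 + ((β + 1 / 2 : ℝ) : ℂ))) *
      ex (θ * (p.1 + ((α + 1 / 2 : ℝ) : ℂ)) ^ 2 + D * θ * (p.2 + ((β + 1 / 2 : ℝ) : ℂ)) ^ 2)
      = (((2 * p.1 + 1 : ℤ) : ℂ) / 2 + α - Complex.I * (√D : ℝ) * (((2 * p.2 + 1 : ℤ) : ℂ) / 2 + β)) *
        ex (θ * ((((2 * p.1 + 1 : ℤ) : ℂ) / 2 + α) ^ 2 + D * (((2 * p.2 + 1 : ℤ) : ℂ) / 2 + β) ^ 2)) := by
    intro p
    congr 1
    · push_cast
      ring
    · congr 1
      push_cast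
      ring
  simp only [g0] at sL0 tL0
  simp only [g1] at sL1 tL1
  have hL := two_left n 1 (fun i l => ((i : ℂ) / 2 + α - Complex.I * (√D : ℝ) * ((l : ℂ) / 2 + β)) *
        ex (θ * (((i : ℂ) / 2 + α) ^ 2 + D * ((l : ℂ) / 2 + β) ^ 2))) sL0 sL1
  rw [hL, tL0, tL1, two_swap hP D hD θ htim, two_swap hP D hD θ htim]
  -- the right side
  obtain ⟨sR0, tR0⟩ := two_prodR hP D hD θ htim (α + 0 / 2) (β + 0 / 2)
  obtain ⟨sR1, tR1⟩ := two_prodR hP D hD θ htim (α + 1 / 2) (β + 1 / 2)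
  rw [← tR0, ← tR1, ← mul_add, ← Summable.tsum_add sR0 sR1]
  have hR := two_right n 1 (fun i l => ((i : ℂ) - Complex.I * (√D : ℝ) / D * l) *
      ex (i * α + l * β - i ^ 2 / (4 * θ) - l ^ 2 / (4 * (D * θ))))
  have r1 : ∀ p : ℤ × ℤ, ((p.1 : ℂ) - Complex.I * (√D : ℝ) / D * p.2) *
      ex (p.1 * ((α + 0 / 2 : ℝ) : ℂ) + p.2 * ((β + 0 / 2 : ℝ) : ℂ)
        - p.1 ^ 2 / (4 * θ) - p.2 ^ 2 / (4 * (D * θ)))
      + ((p.1 : ℂ) - Complex.I * (√D : ℝ) / D * p.2) *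
      ex (p.1 * ((α + 1 / 2 : ℝ) : ℂ) + p.2 * ((β + 1 / 2 : ℝ) : ℂ)
        - p.1 ^ 2 / (4 * θ) - p.2 ^ 2 / (4 * (D * θ)))
      = (((p.1 : ℂ) - Complex.I * (√D : ℝ) / D * p.2) *
      ex (p.1 * α + p.2 * β - p.1 ^ 2 / (4 * θ) - p.2 ^ 2 / (4 * (D * θ))))
        * (1 + ex ((p.1 + p.2 : ℤ) / 2)) := by
    intro p
    have e1 : (p.1 * ((α + 0 / 2 : ℝ) : ℂ) + p.2 * ((β + 0 / 2 : ℝ) : ℂ)
        - p.1 ^ 2 / (4 * θ) - p.2 ^ 2 / (4 * (D * θ)) : ℂ)
        = p.1 * α + p.2 * β - p.1 ^ 2 / (4 * θ) - p.2 ^ 2 / (4 * (D * θ)) := by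
      push_cast
      ring
    have e2 : (p.1 * ((α + 1 / 2 : ℝ) : ℂ) + p.2 * ((β + 1 / 2 : ℝ) : ℂ)
        - p.1 ^ 2 / (4 * θ) - p.2 ^ 2 / (4 * (D * θ)) : ℂ)
        = (p.1 * α + p.2 * β - p.1 ^ 2 / (4 * θ) - p.2 ^ 2 / (4 * (D * θ))) + (p.1 + p.2 : ℤ) / 2 := by
      push_cast
      ring
    rw [e1, e2, two_ex_add]
    ring
  simp only [r1]
  rw [hR]
  -- the final comparison
  have f1 : ∀ u : OO n 1, ((u.im : ℂ) - Complex.I * (√D : ℝ) / D * ((-(2 * u.re + u.im) : ℤ) : ℂ)) *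
      ex (u.im * α + ((-(2 * u.re + u.im) : ℤ) : ℂ) * β - (u.im : ℂ) ^ 2 / (4 * θ)
        - ((-(2 * u.re + u.im) : ℤ) : ℂ) ^ 2 / (4 * (D * θ)))
      = (2 * Complex.I / (√D : ℝ)) *
        (toC (cjO u) * ex (-(Nm u) / (D * m ^ 2 * τ) - (v₀ * cjO u).im / m)) := by
    intro u
    have e1 : (u.im : ℂ) - Complex.I * (√D : ℝ) / D * ((-(2 * u.re + u.im) : ℤ) : ℂ)
        = (2 * Complex.I / (√D : ℝ)) * toC (cjO u) := by
      rw [toC_apply, hw]
      simp only [cjO]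
      push_cast
      have hI : Complex.I ^ 2 = -1 := Complex.I_sq
      field_simp
      ring_nf
      rw [hs2, hI]
      ring
    have e2 : (u.im * α + ((-(2 * u.re + u.im) : ℤ) : ℂ) * β - (u.im : ℂ) ^ 2 / (4 * θ)
        - ((-(2 * u.re + u.im) : ℤ) : ℂ) ^ 2 / (4 * (D * θ)))
        = -(Nm u) / (D * m ^ 2 * τ) - (v₀ * cjO u).im / m := by
      have him : (v₀ * cjO u).im = -(v₀.re * u.im) + v₀.im * u.re := by
        rw [QuadraticAlgebra.im_mul]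
        simp only [cjO]
        ring
      have hN : ((Nm u : ℤ) : ℂ) = (D * u.im ^ 2 + (2 * u.re + u.im) ^ 2) / 4 := by
        unfold Nm
        rw [hDkC]
        push_cast
        ring
      rw [hN, him, hα, hβ, ht]
      push_cast
      field_simp
      ring
    rw [e1, e2]
    ring
  simp only [f1]
  rw [tsum_mul_left]
  have hI : Complex.I * Complex.I = -1 := Complex.I_mul_I
  rw [ht]
  have key : (m : ℂ) * (Complex.I / (4 * (√D : ℝ) * (m ^ 2 * τ) ^ 2) * (2 * (2 * Complex.I / (√D : ℝ))))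
      = -1 / (D * m ^ 3 * τ ^ 2) := by
    field_simp
    ring_nf
    rw [hs2, Complex.I_sq]
    ring
  rw [← key]
  ring

private theorem two_leftF (n : ℕ) (G : ℤ → ℤ → ℂ) :
    ∑' u : OO n 0, G (u.re) u.im = ∑' p : ℤ × ℤ, G p.1 p.2 := by
  have hb : Function.Bijective fun u : OO n 0 => ((u.re, u.im) : ℤ × ℤ) := by
    constructor
    · intro u v h
      have h1 := congrArg Prod.fst h
      have h2 := congrArg Prod.snd h
      simp only at h1 h2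
      apply QuadraticAlgebra.ext
      · omega
      · exact h2
    · intro p
      exact ⟨⟨p.1, p.2⟩, rfl⟩
  exact (Equiv.ofBijective _ hb).tsum_eq (fun p : ℤ × ℤ => G p.1 p.2)

private theorem two_rightF (n : ℕ) (H : ℤ → ℤ → ℂ) :
    ∑' p : ℤ × ℤ, H p.1 p.2 = ∑' u : OO n 0, H u.im (-u.re) := by
  have hb : Function.Bijective fun u : OO n 0 => ((u.im, -u.re) : ℤ × ℤ) := by
    constructor
    · intro u v h
      have h1 := congrArg Prod.fst h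
      have h2 := congrArg Prod.snd h
      simp only at h1 h2
      apply QuadraticAlgebra.ext
      · omega
      · exact h1
    · intro p
      refine ⟨⟨-p.2, p.1⟩, ?_⟩
      ext
      · rfl
      · simp only
        omega
  exact ((Equiv.ofBijective _ hb).tsum_eq (fun p : ℤ × ℤ => H p.1 p.2)).symm

private theorem Two_zero (hP : S_Poi) (n : ℕ) [SqN n 0] (hk2 : 0 < n) (m : ℕ) (v₀ : OO n 0) (τ : ℂ)
    (hm : 0 < m) (hτ : 0 < τ.im) :
    ∑' u : OO n 0, toC (cjO (v₀ + (m : OO n 0) * u)) * ex (Nm (v₀ + (m : OO n 0) * u) * τ)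
    = -1 / (Dk n 0 * m ^ 3 * τ ^ 2) *
      ∑' u : OO n 0, toC (cjO u) * ex (-(Nm u) / (Dk n 0 * m ^ 2 * τ) - (v₀ * cjO u).im / m) := by
  obtain ⟨D, hDk⟩ : ∃ D : ℝ, D = n := ⟨_, rfl⟩
  have hD : 0 < D := by
    rw [hDk]
    exact_mod_cast hk2
  have hDR : (Dk n 0 : ℝ) = 4 * D := by
    rw [Dk_castR, hDk]
    push_cast
    ring
  have hDkC : (D : ℂ) = n := by
    rw [hDk]
    push_cast
    rfl
  have hD0 : (D : ℂ) ≠ 0 := by exact_mod_cast hD.ne'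
  have hDc : (Dk n 0 : ℂ) = 4 * (D : ℂ) := by
    have h1 : ((Dk n 0 : ℝ) : ℂ) = ((4 * D : ℝ) : ℂ) := by rw [hDR]
    push_cast at h1
    exact h1
  rw [hDc]
  have hm0 : (m : ℂ) ≠ 0 := by exact_mod_cast hm.ne'
  have hmR : (m : ℝ) ≠ 0 := by exact_mod_cast hm.ne'
  have hτ0 : τ ≠ 0 := by
    rintro rfl
    simp at hτ
  have hs : ((√D : ℝ) : ℂ) ≠ 0 := by
    have h1 : 0 < √D := Real.sqrt_pos.2 hD
    exact_mod_cast h1.ne'
  have hs2 : ((√D : ℝ) : ℂ) ^ 2 = D := by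
    have h1 : √D ^ 2 = D := Real.sq_sqrt hD.le
    exact_mod_cast h1
  have hsq : √(Dk n 0 : ℝ) = 2 * √D := by
    rw [hDR, Real.sqrt_mul (by norm_num), show (4 : ℝ) = 2 ^ 2 by norm_num,
      Real.sqrt_sq (by norm_num)]
  have hw : wC n 0 = Complex.I * (√D : ℝ) := by
    apply Complex.ext
    · simp [wC]
    · simp [wC, hsq]
  set θ : ℂ := (m : ℂ) ^ 2 * τ with ht
  have htim : 0 < θ.im := by
    have h1 : θ.im = (m : ℝ) ^ 2 * τ.im := by
      rw [ht, show ((m : ℂ) ^ 2 : ℂ) = (((m : ℝ) ^ 2 : ℝ) : ℂ) by push_cast; rfl,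
        Complex.im_ofReal_mul]
    rw [h1]
    positivity
  have ht0 : θ ≠ 0 := by
    intro h
    rw [h] at htim
    simp at htim
  set α : ℝ := v₀.re / m with hα
  set β : ℝ := v₀.im / m with hβ
  -- the left side
  have L1 : ∀ u : OO n 0, toC (cjO (v₀ + (m : OO n 0) * u)) * ex (Nm (v₀ + (m : OO n 0) * u) * τ)
      = m * ((((u.re : ℤ) : ℂ) + α - Complex.I * (√D : ℝ) * ((u.im : ℂ) + β)) *
        ex (θ * (((u.re : ℤ) : ℂ) + α) ^ 2 + D * θ * ((u.im : ℂ) + β) ^ 2)) := by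
    intro u
    have hre : (v₀ + (m : OO n 0) * u).re = v₀.re + m * u.re := by
      rw [QuadraticAlgebra.re_add, QuadraticAlgebra.re_mul]
      simp only [QuadraticAlgebra.re_natCast, QuadraticAlgebra.im_natCast]
      ring
    have him : (v₀ + (m : OO n 0) * u).im = v₀.im + m * u.im := by
      rw [QuadraticAlgebra.im_add, QuadraticAlgebra.im_mul]
      simp only [QuadraticAlgebra.re_natCast, QuadraticAlgebra.im_natCast]
      ring
    have e1 : toC (cjO (v₀ + (m : OO n 0) * u)) = m * (((u.re : ℤ) : ℂ) + α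
        - Complex.I * (√D : ℝ) * ((u.im : ℂ) + β)) := by
      rw [toC_apply, hw, hα, hβ]
      simp only [cjO, hre, him]
      push_cast
      field_simp
      ring
    have e2 : (Nm (v₀ + (m : OO n 0) * u) : ℂ) * τ
        = θ * (((u.re : ℤ) : ℂ) + α) ^ 2 + D * θ * ((u.im : ℂ) + β) ^ 2 := by
      unfold Nm
      rw [hre, him, ht, hα, hβ, hDkC]
      push_cast
      field_simp
      ring
    rw [e1, e2]
    ring
  simp only [L1]
  rw [tsum_mul_left]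
  have hL := two_leftF n (fun i l => ((i : ℂ) + α - Complex.I * (√D : ℝ) * ((l : ℂ) + β)) *
        ex (θ * ((i : ℂ) + α) ^ 2 + D * θ * ((l : ℂ) + β) ^ 2))
  obtain ⟨-, tL0⟩ := two_prodL hP D hD θ htim α β
  obtain ⟨-, tR0⟩ := two_prodR hP D hD θ htim α β
  have hR := two_rightF n (fun i l => ((i : ℂ) - Complex.I * (√D : ℝ) / D * l) *
      ex (i * α + l * β - i ^ 2 / (4 * θ) - l ^ 2 / (4 * (D * θ))))
  rw [hL, tL0, two_swap hP D hD θ htim, ← tR0, hR]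
  -- the final comparison
  have f1 : ∀ u : OO n 0, ((u.im : ℂ) - Complex.I * (√D : ℝ) / D * ((-u.re : ℤ) : ℂ)) *
      ex (u.im * α + ((-u.re : ℤ) : ℂ) * β - (u.im : ℂ) ^ 2 / (4 * θ)
        - ((-u.re : ℤ) : ℂ) ^ 2 / (4 * (D * θ)))
      = (Complex.I / (√D : ℝ)) *
        (toC (cjO u) * ex (-(Nm u) / (4 * D * m ^ 2 * τ) - (v₀ * cjO u).im / m)) := by
    intro u
    have e1 : (u.im : ℂ) - Complex.I * (√D : ℝ) / D * ((-u.re : ℤ) : ℂ)
        = (Complex.I / (√D : ℝ)) * toC (cjO u) := by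
      rw [toC_apply, hw]
      simp only [cjO]
      push_cast
      have hI : Complex.I ^ 2 = -1 := Complex.I_sq
      field_simp
      ring_nf
      rw [hs2, hI]
      ring
    have e2 : (u.im * α + ((-u.re : ℤ) : ℂ) * β - (u.im : ℂ) ^ 2 / (4 * θ)
        - ((-u.re : ℤ) : ℂ) ^ 2 / (4 * (D * θ)))
        = -(Nm u) / (4 * D * m ^ 2 * τ) - (v₀ * cjO u).im / m := by
      have him : (v₀ * cjO u).im = -(v₀.re * u.im) + v₀.im * u.re := by
        rw [im_mul]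
        simp only [cjO]
        push_cast
        ring
      have hN : ((Nm u : ℤ) : ℂ) = D * u.im ^ 2 + (u.re) ^ 2 := by
        unfold Nm
        rw [hDkC]
        push_cast
        ring
      rw [hN, him, hα, hβ, ht]
      push_cast
      field_simp
      ring
    rw [e1, e2]
    ring
  simp only [f1]
  rw [tsum_mul_left]
  have key : (m : ℂ) * (Complex.I / (4 * (√D : ℝ) * (m ^ 2 * τ) ^ 2) * (Complex.I / (√D : ℝ)))
      = -1 / (4 * D * m ^ 3 * τ ^ 2) := by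
    field_simp
    ring_nf
    rw [hs2, Complex.I_sq]
    ring
  rw [ht, ← key]
  ring

theorem tTwo (hP : S_Poi) (_hB : S_Bas) (_hS : S_Sum) : S_Two := by
  intro n t hT m v₀ τ hm hτ
  rcases hT.out with ⟨h1, -, -⟩ | ⟨h1, h2, -, -⟩
  · subst h1
    exact Two_one hP n m v₀ τ hm hτ
  · subst h1
    exact Two_zero hP n h2 m v₀ τ hm hτ

end Pool.Agent.DN.C
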