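import Pool.Agent.Lib.DN.C.Spec
import Pool.Agent.Lib.DN.O.Spec

/-!
# THEOREM DN, Part C, module Usy: the system `γ/q`
-/

set_option autoImplicit false

noncomputable section

namespace Pool.Agent.DN.C

open Pool.Agent.MuZ Pool.Agent.FW NumberField
open Pool.Agent.DI (io ofC io_inj exists_io io_ofC ofC_io VP MP UP TP ex)

private theorem Usy_int {n t : ℕ} [SqN n t] (b : Ideal (OO n t)) (w : OO n t) : toC w ∈ Lam b :=
  fun v _ => ⟨v * w, (toC_mul v w).symm⟩

theorem tUsy (hL : S_L6a) : S_Usy := by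
  classical
  intro n t _ q b hq hb hbq
  obtain ⟨l1, l2, -⟩ := hL n t q b hq hb hbq
  have hq0 : (q : ℂ) ≠ 0 := by exact_mod_cast hq.ne'
  set S : Finset (ℕ × ℕ) := Finset.range q ×ˢ Finset.range q with hS
  set g : ℕ × ℕ → ℂ := fun p => toC (⟨(p.1 : ℤ), (p.2 : ℤ)⟩ : OO n t) / q with hg
  have hdist : ∀ p ∈ S, ∀ p' ∈ S, g p - g p' ∈ Lam b → p = p' := by
    intro p hp p' hp' h
    rw [hS, Finset.mem_product, Finset.mem_range, Finset.mem_range] at hp hp'
    have h1 : toC ((⟨(p.1 : ℤ), (p.2 : ℤ)⟩ : OO n t) - ⟨(p'.1 : ℤ), (p'.2 : ℤ)⟩) / q ∈ Lam b := by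
      rw [toC_sub, sub_div]
      exact h
    obtain ⟨h3, h4⟩ := (nat_dvd_iff q _).1 ((l1 _).1 h1)
    rw [QuadraticAlgebra.re_sub] at h3
    rw [QuadraticAlgebra.im_sub] at h4
    change (q : ℤ) ∣ (p.1 : ℤ) - p'.1 at h3
    change (q : ℤ) ∣ (p.2 : ℤ) - p'.2 at h4
    have key : ∀ x y : ℕ, x < q → y < q → (q : ℤ) ∣ (x : ℤ) - y → x = y := by
      intro x y hx hy hxy
      have h5 := Int.eq_zero_of_abs_lt_dvd hxy (by
        rw [abs_lt]
        constructor <;> omega)
      omega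
    exact Prod.ext (key _ _ hp.1 hp'.1 h3) (key _ _ hp.2 hp'.2 h4)
  have hz : (0 : ℂ) ∈ Lam b := by
    have h := Usy_int b (0 : OO n t)
    rwa [toC_zero] at h
  have hinj : Set.InjOn g (S : Set (ℕ × ℕ)) := by
    intro p hp p' hp' h
    refine hdist p hp p' hp' ?_
    rw [h, sub_self]
    exact hz
  refine ⟨S.image g, ⟨?_, ?_, ?_⟩, ?_⟩
  · intro u hu
    obtain ⟨p, hp, rfl⟩ := Finset.mem_image.1 hu
    rw [lam_sp, toC_nat, hg]
    have e : (q : ℂ) * (toC (⟨(p.1 : ℤ), (p.2 : ℤ)⟩ : OO n t) / q) =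
        toC (⟨(p.1 : ℤ), (p.2 : ℤ)⟩ : OO n t) := by
      field_simp
    change (q : ℂ) * (toC (⟨(p.1 : ℤ), (p.2 : ℤ)⟩ : OO n t) / q) ∈ Lam b
    rw [e]
    exact Usy_int b _
  · intro z hz'
    rw [lam_sp, toC_nat] at hz'
    obtain ⟨v, hv⟩ := l2 z hz'
    have hqZ : (0 : ℤ) < q := by exact_mod_cast hq
    have a1 := Int.emod_nonneg v.re hqZ.ne'
    have a2 := Int.emod_lt_of_pos v.re hqZ
    have b1 := Int.emod_nonneg v.im hqZ.ne'
    have b2 := Int.emod_lt_of_pos v.im hqZ
    refine ⟨g ((v.re % q).toNat, (v.im % q).toNat), ?_, ?_⟩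
    · refine Finset.mem_image_of_mem g ?_
      rw [hS, Finset.mem_product, Finset.mem_range, Finset.mem_range]
      constructor
      · change (v.re % q).toNat < q
        omega
      · change (v.im % q).toNat < q
        omega
    · have e1 : (((v.re % q).toNat : ℕ) : ℤ) = v.re % q := Int.toNat_of_nonneg a1
      have e2 : (((v.im % q).toNat : ℕ) : ℤ) = v.im % q := Int.toNat_of_nonneg b1
      have e3 : g ((v.re % q).toNat, (v.im % q).toNat) =
          toC (⟨v.re % q, v.im % q⟩ : OO n t) / q := by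
        change toC (⟨(((v.re % q).toNat : ℕ) : ℤ), (((v.im % q).toNat : ℕ) : ℤ)⟩ : OO n t) / q = _
        rw [e1, e2]
      have e4 : v = (⟨v.re % q, v.im % q⟩ : OO n t) + (q : OO n t) * ⟨v.re / q, v.im / q⟩ := by
        apply QuadraticAlgebra.ext
        · rw [QuadraticAlgebra.re_add, re_mul, re_nat, im_nat]
          change v.re = v.re % q + _
          have := Int.emod_add_mul_ediv v.re q
          linarith
        · rw [QuadraticAlgebra.im_add, im_mul, re_nat, im_nat]
          change v.im = v.im % q + _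
          have := Int.emod_add_mul_ediv v.im q
          linarith
      rw [e3]
      have e5 : z - toC (⟨v.re % q, v.im % q⟩ : OO n t) / q =
          (z - toC v / q) + toC (⟨v.re / q, v.im / q⟩ : OO n t) := by
        have h6 : toC v = toC (⟨v.re % q, v.im % q⟩ : OO n t) +
            q * toC (⟨v.re / q, v.im / q⟩ : OO n t) := by
          conv_lhs => rw [e4]
          rw [toC_add, toC_mul, toC_nat]
        rw [h6]
        field_simp
        ring
      rw [e5]
      exact lam_add hv (Usy_int b _)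
  · intro u hu u' hu' h
    obtain ⟨p, hp, rfl⟩ := Finset.mem_image.1 hu
    obtain ⟨p', hp', rfl⟩ := Finset.mem_image.1 hu'
    rw [hdist p hp p' hp' h]
  · intro G
    rw [Finset.sum_image hinj, hS, Finset.sum_product]

end Pool.Agent.DN.C
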