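import Pool.Agent.Lib.DN.C.Spec9
import Pool.Agent.Lib.DN.O.All

set_option autoImplicit false

/-!
# THEOREM DN (MP_d0239a_nt), Part C: the limits along `g (r + i y)`
-/

open Filter Topology
open scoped Pointwise

noncomputable section

namespace Pool.Agent.DN.C

open Pool.Agent.MuZ Pool.Agent.FW NumberField
open Pool.Agent.DI (io ofC io_inj exists_io io_ofC ofC_io VP MP UP TP ex sqr sqr_sq kap)

private theorem Vls_lim (M : ℕ) (hM : 0 < M) (F : ℂ → ℂ) (A B C D : ℤ) (k0 : ℂ) (K : ℝ)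
    (hb : ∀ z : ℂ, 1 ≤ z.im → ‖F (mob A B C D z) - k0‖ ≤
      K * Real.exp (-2 * Real.pi * z.im / M))
    (w : ℝ → ℂ) (hw : Tendsto (fun y => (w y).im) (𝓝[>] (0 : ℝ)) atTop) :
    Tendsto (fun y => F (mob A B C D (w y))) (𝓝[>] (0 : ℝ)) (𝓝 k0) := by
  rw [tendsto_iff_norm_sub_tendsto_zero]
  have hpos : (0 : ℝ) < (M : ℝ) := by exact_mod_cast hM
  have h1 : Tendsto (fun y => K * Real.exp (-2 * Real.pi * (w y).im / (M : ℝ)))
      (𝓝[>] (0 : ℝ)) (𝓝 (K * 0)) := by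
    refine Tendsto.const_mul K (Real.tendsto_exp_atBot.comp ?_)
    have h2 : Tendsto (fun y => (2 * Real.pi / (M : ℝ)) * (w y).im) (𝓝[>] (0 : ℝ)) atTop :=
      Tendsto.const_mul_atTop (div_pos Real.two_pi_pos hpos) hw
    have h3 := tendsto_neg_atTop_atBot.comp h2
    refine h3.congr fun y => ?_
    simp only [Function.comp]
    ring
  rw [mul_zero] at h1
  refine squeeze_zero' (Eventually.of_forall fun y => norm_nonneg _) ?_ h1
  filter_upwards [hw.eventually_ge_atTop 1] with y hy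
  exact hb _ hy

/-- the point `γ⁻¹ (A / C + i y)` -/
private def Vls_w (C D : ℤ) (y : ℝ) : ℂ :=
  ((-(D : ℝ) / C : ℝ) : ℂ) + ((((C : ℝ) ^ 2)⁻¹ * y⁻¹ : ℝ) : ℂ) * Complex.I

private theorem Vls_w_im (C D : ℤ) (y : ℝ) : (Vls_w C D y).im = ((C : ℝ) ^ 2)⁻¹ * y⁻¹ := by
  unfold Vls_w
  rw [Complex.add_im, Complex.ofReal_im, Complex.im_ofReal_mul, Complex.I_im, mul_one, zero_add]

private theorem Vls_w_tendsto (C D : ℤ) (hC : C ≠ 0) :
    Tendsto (fun y => (Vls_w C D y).im) (𝓝[>] (0 : ℝ)) atTop := by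
  simp only [Vls_w_im]
  refine Tendsto.const_mul_atTop ?_ tendsto_inv_nhdsGT_zero
  have : (C : ℝ) ≠ 0 := by exact_mod_cast hC
  positivity

private theorem Vls_mob (A B C D : ℤ) (hC : C ≠ 0) (hd : A * D - B * C = 1) (y : ℝ) (hy : 0 < y) :
    mob A B C D (Vls_w C D y) = ((A : ℚ) / C : ℚ) + y * Complex.I := by
  have hC' : (C : ℂ) ≠ 0 := by exact_mod_cast hC
  have hy' : (y : ℂ) ≠ 0 := by exact_mod_cast hy.ne'
  have hd' : (A : ℂ) * D - B * C = 1 := by exact_mod_cast hd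
  have hI : Complex.I * Complex.I = -1 := Complex.I_mul_I
  have h1 : (C : ℂ) * Vls_w C D y + D = Complex.I / (C * y) := by
    unfold Vls_w
    push_cast
    field_simp
    ring
  have h2 : (A : ℂ) * Vls_w C D y + B = -1 / C + A * Complex.I / (C ^ 2 * y) := by
    unfold Vls_w
    push_cast
    field_simp
    linear_combination (-(y : ℂ)) * C * hd'
  unfold mob
  rw [h1, h2]
  have h3 : Complex.I / (C * y) ≠ 0 := div_ne_zero Complex.I_ne_zero (mul_ne_zero hC' hy')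
  rw [div_eq_iff h3]
  push_cast
  field_simp
  linear_combination (-(y : ℂ)) * C * hI

private theorem Vls_vert (M : ℕ) (hM : 0 < M) (F : ℂ → ℂ) (A B C D : ℤ) (hC : C ≠ 0)
    (hd : A * D - B * C = 1) (k0 : ℂ) (K : ℝ)
    (hb : ∀ z : ℂ, 1 ≤ z.im → ‖F (mob A B C D z) - k0‖ ≤
      K * Real.exp (-2 * Real.pi * z.im / M)) :
    Tendsto (fun y : ℝ => F (((A : ℚ) / C : ℚ) + y * Complex.I)) (𝓝[>] (0 : ℝ)) (𝓝 k0) := by
  refine (Vls_lim M hM F A B C D k0 K hb _ (Vls_w_tendsto C D hC)).congr' ?_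
  filter_upwards [self_mem_nhdsWithin] with y hy
  rw [Vls_mob A B C D hC hd y hy]

private theorem Vls_bez (r : ℚ) : ∃ B D : ℤ, r.num * D - B * (r.den : ℤ) = 1 := by
  have h : IsCoprime r.num (r.den : ℤ) := by
    rw [Int.isCoprime_iff_gcd_eq_one]
    simpa [Int.gcd] using r.reduced
  obtain ⟨u, v, h⟩ := h
  exact ⟨-v, u, by linarith⟩

/-- A level. -/
private theorem Vls_lev {n t : ℕ} [hI : Ine n t] {f : ℕ} {m b : Ideal (OO n t)} (hm : FM f m)
    (hb : FB f b) : IsLv f m {b} (3 * lev f m {b}) := by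
  have o3 := (aO6 n t).2.2.1
  have hNm : Odd (NI m) := Nat.coprime_two_right.1 ((o3 2 m two_pos).1 hm.two)
  have hb2 : PrI b 2 := (((aO6 n t).2.1 2 f b).1 hb.cop).1
  have hNb : Odd (NI b) := Nat.coprime_two_right.1 ((o3 2 b two_pos).1 hb2)
  have hDo : Odd (Dk n t) := by
    have h1 := hI.one
    have h2 := hI.odd
    unfold Dk
    rw [h1]
    exact ⟨2 * n - 1, by omega⟩
  have hl : Odd (lev f m {b}) := by
    unfold lev
    rw [Finset.prod_singleton]
    exact (hDo.mul (hm.odd.pow)).mul ((hNm.mul hNb).pow)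
  have hpos := hl.pos
  exact ⟨Odd.mul (by decide) hl, by omega, Dvd.intro_left 3 rfl⟩

/-- **Vls.** The limits along `g (r + i y)`. -/
theorem tVls (hC : S_CuS) (hE : S_Exp) : S_Vls := by
  intro n t _ f m b hm hb a b' c d hdet r hr
  obtain ⟨M, hL⟩ : ∃ M : ℕ, IsLv f m {b} M := ⟨_, Vls_lev hm hb⟩
  have hM0 : 0 < 4 * M := by
    have := hL.three
    omega
  obtain ⟨B, D, hd⟩ := Vls_bez r
  have h0 : ((r.den : ℤ)) ≠ 0 := by exact_mod_cast r.den_ne_zero
  have hdq : ((r.den : ℤ) : ℚ) ≠ 0 := by exact_mod_cast h0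
  have hrq : ((r.num : ℚ) / ((r.den : ℤ) : ℚ)) = r := by
    rw [Int.cast_natCast]
    exact Rat.num_div_den r
  -- the product
  have hdet' : (a * r.num + b' * r.den) * (c * B + d * D) -
      (a * B + b' * D) * (c * r.num + d * r.den) = 1 := by
    linear_combination (r.num * D - B * (r.den : ℤ)) * hdet + hd
  have hC0 : c * r.num + d * r.den ≠ 0 := by
    intro h
    apply hr
    have h1 : (c : ℚ) * r.num + d * ((r.den : ℤ) : ℚ) = 0 := by exact_mod_cast h
    have h2 : (r.num : ℚ) = r * ((r.den : ℤ) : ℚ) := by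
      exact (div_eq_iff hdq).1 hrq
    rw [h2] at h1
    have h3 : ((c : ℚ) * r + d) * ((r.den : ℤ) : ℚ) = 0 := by linear_combination h1
    exact (mul_eq_zero.1 h3).resolve_right hdq
  obtain ⟨k0, hk0⟩ := hC n t f M m b hm hb hL (a * r.num + b' * r.den) (a * B + b' * D)
    (c * r.num + d * r.den) (c * B + d * D) hdet' 1
  obtain ⟨K, hK⟩ := hE.2.2.2 (4 * M) _ k0 hM0 hk0
  rw [ThS_one] at hK
  -- the value at `g r`
  have h1 : hM (2 * f) m b (((a * r.num + b' * r.den : ℤ) : ℚ) / ((c * r.num + d * r.den : ℤ) : ℚ)) =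
      k0 := (Vls_vert (4 * M) hM0 (ThM (2 * f) m b) _ _ _ _ hC0 hdet' k0 K hK).limUnder_eq
  have h2 : (((a * r.num + b' * r.den : ℤ) : ℚ) / ((c * r.num + d * r.den : ℤ) : ℚ)) =
      mobQ a b' c d r := by
    have hn : (r.num : ℚ) = r * ((r.den : ℤ) : ℚ) := by
      exact (div_eq_iff hdq).1 hrq
    unfold mobQ
    rw [Int.cast_add, Int.cast_add, Int.cast_mul, Int.cast_mul, Int.cast_mul, Int.cast_mul, hn]
    rw [show (a : ℚ) * (r * ((r.den : ℤ) : ℚ)) + b' * ((r.den : ℤ) : ℚ) =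
      (a * r + b') * ((r.den : ℤ) : ℚ) by ring,
      show (c : ℚ) * (r * ((r.den : ℤ) : ℚ)) + d * ((r.den : ℤ) : ℚ) =
      (c * r + d) * ((r.den : ℤ) : ℚ) by ring, mul_div_mul_right _ _ hdq]
  rw [h2] at h1
  rw [h1]
  -- the limit of `ThM (g (r + i y))`
  have h3 := Vls_lim (4 * M) hM0 (ThM (2 * f) m b) _ _ _ _ k0 K hK _ (Vls_w_tendsto r.den D h0)
  refine h3.congr' ?_
  filter_upwards [self_mem_nhdsWithin] with y hy
  have hy' : (0 : ℝ) < y := hy
  congr 1
  have h5 := Vls_mob r.num B r.den D h0 hd y hy'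
  rw [hrq] at h5
  rw [← h5]
  have hw : (Vls_w (r.den : ℤ) D y).im ≠ 0 := by
    rw [Vls_w_im]
    have : ((r.den : ℤ) : ℝ) ≠ 0 := by exact_mod_cast h0
    positivity
  have h6 : ((r.den : ℤ) : ℂ) * Vls_w (r.den : ℤ) D y + D ≠ 0 := by
    intro h
    have h7 := congrArg Complex.im h
    rw [Complex.add_im, Complex.intCast_im, add_zero, ← Complex.ofReal_intCast,
      Complex.im_ofReal_mul, Complex.zero_im] at h7
    rcases mul_eq_zero.1 h7 with h8 | h8
    · exact h0 (by exact_mod_cast h8)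
    · exact hw h8
  unfold mob
  push_cast
  push_cast at h6
  generalize Vls_w (r.den : ℤ) D y = w at *
  rw [show ((a : ℂ) * r.num + b' * r.den) * w + (a * B + b' * D) =
      (a * (((r.num : ℂ) * w + B) / ((r.den : ℂ) * w + D)) + b') * ((r.den : ℂ) * w + D) by
        field_simp; ring,
    show ((c : ℂ) * r.num + d * r.den) * w + (c * B + d * D) =
      (c * (((r.num : ℂ) * w + B) / ((r.den : ℂ) * w + D)) + d) * ((r.den : ℂ) * w + D) by
        field_simp; ring, mul_div_mul_right _ _ h6]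

end Pool.Agent.DN.C
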