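import Pool.Agent.Lib.DN.C.Spec9
import Pool.Agent.Lib.DN.O.All

/-!
# Theorem DN, part C, module Ztm: the roots of unity `zt` on `tm`
-/

set_option autoImplicit false

open Filter Topology
open scoped Pointwise

noncomputable section

namespace Pool.Agent.DN.C

open Pool.Agent.MuZ Pool.Agent.FW NumberField
open Pool.Agent.DI (io ofC io_inj exists_io io_ofC ofC_io VP MP UP TP ex)

variable {n t : ℕ}

private theorem Ztm_one (ω : ℂ) : om ω (1 : OO n t) = 1 := by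
  unfold om
  rw [re_one, im_one, if_neg (by norm_num), if_pos (dvd_zero _)]

private theorem Ztm_a (ω : ℂ) {f : ℕ} (hf : Odd f) : om ω (⟨1 - f, f⟩ : OO n t) = ω := by
  obtain ⟨j, hj⟩ := hf
  unfold om
  have h1 : (2 : ℤ) ∣ (⟨1 - f, f⟩ : OO n t).re := by
    change (2 : ℤ) ∣ 1 - f
    omega
  have h2 : ¬ (2 : ℤ) ∣ (⟨1 - f, f⟩ : OO n t).im := by
    change ¬ (2 : ℤ) ∣ f
    omega
  rw [if_pos h1, if_neg h2]

private theorem Ztm_b (ω : ℂ) {f : ℕ} (hf : Odd f) : om ω (⟨1, f⟩ : OO n t) = ω ^ 2 := by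
  obtain ⟨j, hj⟩ := hf
  unfold om
  have h1 : ¬ (2 : ℤ) ∣ (⟨1, f⟩ : OO n t).re := by
    change ¬ (2 : ℤ) ∣ 1
    norm_num
  have h2 : ¬ (2 : ℤ) ∣ (⟨1, f⟩ : OO n t).im := by
    change ¬ (2 : ℤ) ∣ f
    omega
  rw [if_neg h1, if_neg h2]

/-- The values `1, ζ, ζ²` of `zt P` on `tm`. -/
private theorem Ztm_val (h0 : S_T0) [Ine n t] {P : Ideal ZZ} (hP : Ab2 P) {f : ℕ} (hf : Odd f) :
    ∃ ζ : Om, ζ ^ 2 + ζ + 1 = 0 ∧ zt P (1 : OO n t) = 1 ∧ zt P (⟨1 - f, f⟩ : OO n t) = ζ ∧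
      zt P (⟨1, f⟩ : OO n t) = ζ ^ 2 := by
  obtain ⟨-, -, hcop, -, hdvd, -⟩ := aO4 n t
  have ht : t = 1 := Ine.one n
  have hn : n % 2 = 1 := Ine.odd t
  obtain ⟨j, hj⟩ := hf
  obtain ⟨i, hi⟩ : ∃ i, n = 2 * i + 1 := ⟨n / 2, by omega⟩
  obtain ⟨a, ha⟩ : ∃ a : OO n t, a = ⟨1 - f, f⟩ := ⟨_, rfl⟩
  obtain ⟨b, hb⟩ : ∃ b : OO n t, b = ⟨1, f⟩ := ⟨_, rfl⟩
  have are : a.re = 1 - f := by rw [ha]
  have aim : a.im = f := by rw [ha]
  have bre : b.re = 1 := by rw [hb]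
  have bim : b.im = f := by rw [hb]
  have ca : Cop a 2 := by
    rw [hcop, hdvd, aim]
    omega
  have cb : Cop b 2 := by
    rw [hcop, hdvd, bim]
    omega
  have c1 : Cop (1 : OO n t) 2 := cop_one 2
  have hab : (2 : OO n t) ∣ a * a - b := by
    rw [hdvd, QuadraticAlgebra.re_sub, QuadraticAlgebra.im_sub, re_mul, im_mul, are, aim, bre, bim,
      hj, hi, ht]
    push_cast
    constructor
    · exact ⟨2 * j ^ 2 - (2 * i + 1) * (2 * j ^ 2 + 2 * j) - i - 1, by ring⟩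
    · exact ⟨-(4 * j ^ 2) - 2 * j + 2 * j ^ 2 + j, by ring⟩
  have ha1 : ¬ (2 : OO n t) ∣ a - 1 := by
    rw [hdvd, QuadraticAlgebra.im_sub, aim, im_one]
    omega
  obtain ⟨-, -, e1, -, e2, -⟩ := h0.2 n t P hP a a ca ca
  obtain ⟨-, -, -, e3, -, -⟩ := h0.2 n t P hP (a * a) b (cop_mul ca ca) cb
  obtain ⟨e4, -, e5, -, -, -⟩ := h0.2 n t P hP 1 1 c1 c1
  refine ⟨zt P a, e2 ha1, ?_, by rw [ha], ?_⟩
  · rw [mul_one] at e5
    have hne : zt P (1 : OO n t) ≠ 0 := by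
      intro h
      rw [h] at e4
      norm_num at e4
    have h1 : zt P (1 : OO n t) * (zt P (1 : OO n t) - 1) = 0 := by linear_combination -e5
    exact sub_eq_zero.1 ((mul_eq_zero.1 h1).resolve_left hne)
  · rw [← hb, ← e3.1 hab, e1, sq]

theorem tZtm (h0 : S_T0) : S_Ztm := by
  intro n t _ P hP f k hf hk
  obtain ⟨ζ, hζ, h1, h2, h3⟩ := Ztm_val h0 (n := n) (t := t) hP hf
  have hz : io ζ ^ 2 + io ζ + 1 = 0 := by
    have := congrArg io hζ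
    simpa using this
  have hz3 : io ζ ^ 3 = 1 := by linear_combination (io ζ - 1) * hz
  rcases hk with rfl | rfl
  · refine ⟨io ζ, hz, ?_⟩
    intro α hα
    simp only [tm, Finset.mem_insert, Finset.mem_singleton] at hα
    rcases hα with rfl | rfl | rfl
    · rw [h1, Ztm_one, one_pow, map_one]
    · rw [h2, Ztm_a _ hf, pow_one]
    · rw [h3, Ztm_b _ hf, pow_one, map_pow]
  · refine ⟨io ζ ^ 2, ?_, ?_⟩
    · linear_combination hz + io ζ * hz3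
    intro α hα
    simp only [tm, Finset.mem_insert, Finset.mem_singleton] at hα
    rcases hα with rfl | rfl | rfl
    · rw [h1, Ztm_one, one_pow, map_one]
    · rw [h2, Ztm_a _ hf, map_pow]
    · rw [h3, Ztm_b _ hf, map_pow, map_pow]

end Pool.Agent.DN.C
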