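import Pool.Agent.Lib.DN.O.All
import Pool.Agent.Lib.DN.B.All
import Pool.Agent.Lib.DK.C.Poi
import Pool.Agent.Lib.DK.C.Exp
import Pool.Agent.Lib.DK.C.Tt
import Pool.Agent.Lib.DN.C.L0
import Pool.Agent.Lib.DN.C.Bas
import Pool.Agent.Lib.DN.C.Sum
import Pool.Agent.Lib.DN.C.Tct
import Pool.Agent.Lib.DN.C.Tcc
import Pool.Agent.Lib.DN.C.Two
import Pool.Agent.Lib.DN.C.Res
import Pool.Agent.Lib.DN.C.Ech
import Pool.Agent.Lib.DN.C.Gau
import Pool.Agent.Lib.DN.C.Uni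
import Pool.Agent.Lib.DN.C.Gen
import Pool.Agent.Lib.DN.C.Gam
import Pool.Agent.Lib.DN.C.Kap
import Pool.Agent.Lib.DN.C.EpsA
import Pool.Agent.Lib.DN.C.Eps
import Pool.Agent.Lib.DN.C.Der
import Pool.Agent.Lib.DN.C.Phi
import Pool.Agent.Lib.DN.C.Cus
import Pool.Agent.Lib.DN.C.Lt
import Pool.Agent.Lib.DN.C.Red
import Pool.Agent.Lib.DN.C.Cnd
import Pool.Agent.Lib.DN.C.TrS
import Pool.Agent.Lib.DN.C.CuS
import Pool.Agent.Lib.DN.C.C3
import Pool.Agent.Lib.DN.C.Val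
import Pool.Agent.Lib.DN.C.Hom
import Pool.Agent.Lib.DN.C.Den
import Pool.Agent.Lib.DN.C.C1
import Pool.Agent.Lib.DN.C.C2
import Pool.Agent.Lib.DN.C.Spl
import Pool.Agent.Lib.DN.C.C4a
import Pool.Agent.Lib.DN.C.C4b
import Pool.Agent.Lib.DN.C.Usy
import Pool.Agent.Lib.DN.C.C4
import Pool.Agent.Lib.DN.C.Par
import Pool.Agent.Lib.DN.C.C6
import Pool.Agent.Lib.DN.C.C7a
import Pool.Agent.Lib.DN.C.C7b
import Pool.Agent.Lib.DN.C.C7
import Pool.Agent.Lib.DN.C.Om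
import Pool.Agent.Lib.DN.C.Fou
import Pool.Agent.Lib.DN.C.Inv
import Pool.Agent.Lib.DN.C.Hid
import Pool.Agent.Lib.DN.C.Hit
import Pool.Agent.Lib.DN.C.Rda
import Pool.Agent.Lib.DN.C.Etf
import Pool.Agent.Lib.DN.C.Sym
import Pool.Agent.Lib.DN.C.Vls
import Pool.Agent.Lib.DN.C.Ztm
import Pool.Agent.Lib.DN.C.C9

/-!
# Theorem DN, part C: assembly of `C1` - `C4`, `C6`, `C7`, `C9` (author helper33)

`aC1`, `aC2`, `aC4`, `aC6` from `S_R1` (part R); `aC3`, `aC7` without hypotheses; `aC9` from `S_R1`, `S_T0`.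
-/

set_option autoImplicit false

noncomputable section

namespace Pool.Agent.DN.C

open Pool.Agent.DN

theorem aPoi : S_Poi := Pool.Agent.DK.C.tPoi
theorem aExp : S_Exp := Pool.Agent.DK.C.tExp
theorem aTt : S_Tt := Pool.Agent.DK.C.tTt
theorem aBas : S_Bas := tBas
theorem aSum : S_Sum := tSum aBas
theorem aTwo : S_Two := tTwo aPoi aBas aSum
theorem aRes : S_Res := tRes
theorem aEch : S_Ech := tEch
theorem aGau : S_Gau := tGau
theorem aUni : S_Uni := tUni aBas aSum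
theorem aGen : S_Gen := tGen aTwo aRes aSum
theorem aGam : S_Gam := tGam aBas aRes
theorem aKap : S_Kap := tKap aGen aGam aSum
theorem aEpsA : S_EpsA := tEpsA aGen aGau aUni aRes aSum
theorem aEps : S_Eps := tEps aKap aEpsA aEch
theorem aDer : S_Der := tDer aBas aSum
theorem aPhi : S_Phi := tPhi aEps aDer
theorem aCus : S_Cus := tCus aGen aDer aSum aBas
theorem aLt : S_Lt := tLt aBas aSum aO2 aO3 (tL0 aO1) aL1
theorem aRed : S_Red := tRed aLt aTt aBas aDer aO2 aO3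
theorem aTct : S_Tct := tTct aPhi aRed aO2
theorem aTcc : S_Tcc := tTcc aCus aExp aRed aO2
theorem aCnd : S_Cnd := tCnd aO2 aO6 aL6 aB1
theorem aTrS : S_TrS := tTrS aTct aO2 aCnd
theorem aCuS : S_CuS := tCuS aTcc aExp aO2
theorem aC3 : S_C3 := tC3 aCuS
theorem aVal : S_Val := tVal aTrS aCuS aExp
theorem aDen : S_Den := tDen
theorem aHom : S_Hom := tHom aRed aTt aO2 aO6 aB7 aCnd
theorem aSpl : S_Spl := tSpl aLt aTt aRed
theorem aC4a : S_C4a := tC4a aSpl aLt aO2 aO6 aL5 aB10 aCnd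
theorem aUsy : S_Usy := tUsy aL6a
theorem aPar : S_Par := tPar aLt aRed aCnd
theorem aC7a : S_C7a := tC7a aLt aBas
theorem aC7b : S_C7b := tC7b aCnd aLt aC7a
theorem aC7 : S_C7 := tC7 aC7a aC7b aPar aLt aTt aRed aDer aO2

theorem aC4b (hR1 : S_R1) : S_C4b := tC4b aC4a aL3 hR1 aCnd
theorem aC4 (hR1 : S_R1) : S_C4 := tC4 (aC4b hR1) aUsy
theorem aC1 (hR1 : S_R1) : S_C1 := tC1 aVal aHom aDen (aC4 hR1) hR1 aCnd
theorem aC2 (hR1 : S_R1) : S_C2 := tC2 aTrS aVal aRed aDen (aC4 hR1) aEch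
theorem aC6 (hR1 : S_R1) : S_C6 := tC6 aHom aRed aTt (aC4 hR1) aVal aPar aO2 aO3 aL2 aB7 aCnd

theorem aOm : S_Om := tOm
theorem aFou : S_Fou := tFou aOm aRes
theorem aInv : S_Inv := tInv aGen aOm aFou
theorem aHid : S_Hid := tHid aOm aFou aInv
theorem aHit : S_Hit := tHit aOm aDer aHid
theorem aRda : S_Rda := tRda aLt aTt aDer aRed aO2 aO3 aO6 aOm
theorem aEtf : S_Etf := tEtf aRda aB7 aCnd aO6
theorem aSym : S_Sym := tSym aEtf aHit aRed aCnd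
theorem aVls : S_Vls := tVls aCuS aExp
theorem aZtm (hT0 : S_T0) : S_Ztm := tZtm hT0
theorem aC9 (hR1 : S_R1) (hT0 : S_T0) : S_C9 := tC9 aSym aVls (aZtm hT0) (aC4 hR1) aDen

end Pool.Agent.DN.C

namespace Pool.Agent.DN

theorem aC1 (hR1 : S_R1) : S_C1 := C.aC1 hR1
theorem aC2 (hR1 : S_R1) : S_C2 := C.aC2 hR1
theorem aC3 : S_C3 := C.aC3
theorem aC4 (hR1 : S_R1) : S_C4 := C.aC4 hR1
theorem aC6 (hR1 : S_R1) : S_C6 := C.aC6 hR1
theorem aC7 : S_C7 := C.aC7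
theorem aC9 (hR1 : S_R1) (hT0 : S_T0) : S_C9 := C.aC9 hR1 hT0

end Pool.Agent.DN
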