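import Pool.Agent.Lib.DN.C.Spec9

/-!
# THEOREM DN (MP_d0239a_nt), Part C, module Om: the cubic character modulo `2`
-/

set_option autoImplicit false

open Filter Topology
open scoped Pointwise

noncomputable section

namespace Pool.Agent.DN.C

open Pool.Agent.MuZ Pool.Agent.FW NumberField
open Pool.Agent.DI (io ofC io_inj exists_io io_ofC ofC_io VP MP UP TP ex)

private theorem Om_ex_int (j : ℤ) : ex j = 1 := by
  unfold ex
  rw [Complex.exp_eq_one_iff]
  exact ⟨j, by ring⟩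

private theorem Om_ex_half : ex (1 / 2) = -1 := by
  unfold ex
  rw [show 2 * (Real.pi : ℂ) * Complex.I * (1 / 2) = Real.pi * Complex.I by ring, Complex.exp_pi_mul_I]

private theorem Om_ex_even {j : ℤ} (h : (2 : ℤ) ∣ j) : ex ((-(j : ℤ) : ℂ) / 2) = 1 := by
  obtain ⟨i, rfl⟩ := h
  rw [← Om_ex_int (-i)]
  congr 1
  push_cast
  ring

private theorem Om_ex_odd {j : ℤ} (h : ¬ (2 : ℤ) ∣ j) : ex ((-(j : ℤ) : ℂ) / 2) = -1 := by
  obtain ⟨i, hi⟩ : ∃ i : ℤ, j = 2 * i + 1 := ⟨j / 2, by omega⟩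
  rw [hi]
  have e : ((-((2 * i + 1 : ℤ) : ℤ) : ℂ) / 2) = ((-i - 1 : ℤ) : ℂ) + 1 / 2 := by
    push_cast
    ring
  have e2 : ex (((-i - 1 : ℤ) : ℂ) + 1 / 2) = ex ((-i - 1 : ℤ) : ℂ) * ex (1 / 2) := by
    unfold ex
    rw [← Complex.exp_add]
    congr 1
    ring
  rw [e, e2, Om_ex_int, Om_ex_half, one_mul]

theorem tOm : S_Om := by
  intro n t hI ω hω
  have h1 : t = 1 := hI.one
  have hn : n % 2 = 1 := hI.odd
  subst h1
  have hdv : ∀ v u : OO n 1, (2 : OO n 1) ∣ v - u →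
      (2 : ℤ) ∣ v.re - u.re ∧ (2 : ℤ) ∣ v.im - u.im := by
    intro v u h
    have h2 : ((2 : ℕ) : OO n 1) ∣ v - u := by exact_mod_cast h
    rw [nat_dvd_iff, QuadraticAlgebra.re_sub, QuadraticAlgebra.im_sub] at h2
    exact_mod_cast h2
  refine ⟨?_, ?_, ?_, ?_⟩
  · intro v u h
    obtain ⟨h2, h3⟩ := hdv v u h
    have h4 : (2 : ℤ) ∣ v.re ↔ (2 : ℤ) ∣ u.re := by omega
    have h5 : (2 : ℤ) ∣ v.im ↔ (2 : ℤ) ∣ u.im := by omega
    unfold om
    simp only [h4, h5]
  · intro v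
    unfold om
    simp only [QuadraticAlgebra.re_neg, QuadraticAlgebra.im_neg, dvd_neg]
  · intro v
    by_cases h2 : (2 : ℤ) ∣ v.re
    · by_cases h3 : (2 : ℤ) ∣ v.im
      · left
        unfold om
        rw [if_pos h2, if_pos h3]
      · right
        obtain ⟨x, hx⟩ := h2
        obtain ⟨y, hy⟩ : ∃ y : ℤ, v.im = 2 * y + 1 := ⟨v.im / 2, by omega⟩
        obtain ⟨k, hk⟩ : ∃ k : ℤ, (n : ℤ) = 2 * k + 1 := ⟨(n : ℤ) / 2, by omega⟩
        have e : Nm v = 2 * (2 * x ^ 2 + x * (2 * y + 1) + k * (2 * y + 1) ^ 2 + 2 * y ^ 2 + 2 * y) + 1 := by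
          unfold Nm
          rw [hx, hy, hk]
          push_cast
          ring
        rw [e]
        omega
    · right
      obtain ⟨x, hx⟩ : ∃ x : ℤ, v.re = 2 * x + 1 := ⟨v.re / 2, by omega⟩
      obtain ⟨k, hk⟩ : ∃ k : ℤ, (n : ℤ) = 2 * k + 1 := ⟨(n : ℤ) / 2, by omega⟩
      by_cases h3 : (2 : ℤ) ∣ v.im
      · obtain ⟨y, hy⟩ := h3
        have e : Nm v = 2 * (2 * x ^ 2 + 2 * x + (2 * x + 1) * y + (2 * k + 1) * 2 * y ^ 2) + 1 := by
          unfold Nm
          rw [hx, hy, hk]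
          push_cast
          ring
        rw [e]
        omega
      · obtain ⟨y, hy⟩ : ∃ y : ℤ, v.im = 2 * y + 1 := ⟨v.im / 2, by omega⟩
        have e : Nm v = 2 * (2 * x ^ 2 + 2 * x + 2 * x * y + x + y + k * (2 * y + 1) ^ 2 + 2 * y ^ 2 + 2 * y + 1) + 1 := by
          unfold Nm
          rw [hx, hy, hk]
          push_cast
          ring
        rw [e]
        omega
  · intro u
    have him : ∀ β : OO n 1, (β * cjO u).im = β.im * u.re - β.re * u.im := by
      intro β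
      rw [im_mul]
      simp only [cjO]
      push_cast
      ring
    unfold rsum
    simp only [Finset.sum_range_succ, Finset.sum_range_zero, zero_add, him]
    have o1 : om ω (⟨((0 : ℕ) : ℤ), ((0 : ℕ) : ℤ)⟩ : OO n 1) = 0 := by
      unfold om
      norm_num
    have o2 : om ω (⟨((0 : ℕ) : ℤ), ((1 : ℕ) : ℤ)⟩ : OO n 1) = ω := by
      unfold om
      norm_num
    have o3 : om ω (⟨((1 : ℕ) : ℤ), ((0 : ℕ) : ℤ)⟩ : OO n 1) = 1 := by
      unfold om
      norm_num
    have o4 : om ω (⟨((1 : ℕ) : ℤ), ((1 : ℕ) : ℤ)⟩ : OO n 1) = ω ^ 2 := by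
      unfold om
      norm_num
    rw [o1, o2, o3, o4]
    have e1 : (((1 : ℕ) : ℤ) * u.re - ((0 : ℕ) : ℤ) * u.im) = u.re := by
      push_cast
      ring
    have e2 : (((0 : ℕ) : ℤ) * u.re - ((1 : ℕ) : ℤ) * u.im) = -u.im := by
      push_cast
      ring
    have e3 : (((1 : ℕ) : ℤ) * u.re - ((1 : ℕ) : ℤ) * u.im) = u.re - u.im := by
      push_cast
      ring
    rw [e1, e2, e3]
    by_cases h2 : (2 : ℤ) ∣ u.re
    · by_cases h3 : (2 : ℤ) ∣ u.im
      · rw [Om_ex_even h2, Om_ex_even (dvd_neg.2 h3), Om_ex_even (j := u.re - u.im) (dvd_sub h2 h3)]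
        unfold om
        rw [if_pos h2, if_pos h3]
        linear_combination hω
      · rw [Om_ex_even h2, Om_ex_odd (fun h => h3 (dvd_neg.1 h)), Om_ex_odd (j := u.re - u.im) (by omega)]
        unfold om
        rw [if_pos h2, if_neg h3]
        linear_combination -hω
    · by_cases h3 : (2 : ℤ) ∣ u.im
      · rw [Om_ex_odd h2, Om_ex_even (dvd_neg.2 h3), Om_ex_odd (j := u.re - u.im) (by omega)]
        unfold om
        rw [if_neg h2, if_pos h3]
        linear_combination -hω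
      · rw [Om_ex_odd h2, Om_ex_odd (fun h => h3 (dvd_neg.1 h)), Om_ex_even (j := u.re - u.im) (by omega)]
        unfold om
        rw [if_neg h2, if_neg h3]
        linear_combination -hω

end Pool.Agent.DN.C
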