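import Pool.Agent.Lib.DN.C.SpecR
import Pool.Agent.Lib.DN.IfaceC

/-!
# THEOREM DN (MP_d0239a_nt), Part C, second half: the smoothed theta series `ThM (2 f)` and its values

Author helper33. Every statement is an edit of the statement of the same name of `DK/C/Spec.lean` (there the
docstrings contain the proofs); the modulus is `F = 2 f`, the level is `4 M`.
-/

set_option autoImplicit false

open Filter Topology
open scoped Pointwise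

noncomputable section

namespace Pool.Agent.DN.C

open Pool.Agent.MuZ Pool.Agent.FW NumberField
open Pool.Agent.DI (io ofC io_inj exists_io io_ofC ofC_io VP MP UP TP ex)

section Defs

variable {n t : ℕ}

/-- `N(m) N(b) |x|²` (an integer for `x ∈ Lam (m b)`). -/
def qN (m b : Ideal (OO n t)) (x : ℂ) : ℤ := ⌊(NI m : ℝ) * NI b * ‖x‖ ^ 2⌋

/-- The smoothed theta series of the coset `s/F`; `ThS F m b 1 = ThM F m b`. -/
def ThS (F : ℕ) (m b : Ideal (OO n t)) (s : ℤ) (z : ℂ) : ℂ :=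
  (Tc F (m * b) s z - NI m * Tc F b s (NI m * z)) / fr b

/-- `lim ThS(r + i y)`; `hS F m b 1 = hM F m b`. -/
def hS (F : ℕ) (m b : Ideal (OO n t)) (s : ℤ) (r : ℚ) : ℂ :=
  limUnder (𝓝[>] (0 : ℝ)) (fun y => ThS F m b s (r + y * Complex.I))

/-- The constant of the transformation of `ThS`. -/
def PhS (F : ℕ) (m b : Ideal (OO n t)) (s : ℤ) (a b' c d : ℤ) : ℂ :=
  ThS F m b s (mob a b' c d Complex.I) - eps n t d * ThS F m b (a * s) Complex.I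

theorem ThS_one (F : ℕ) (m b : Ideal (OO n t)) : ThS F m b 1 = ThM F m b := rfl

theorem hS_one (F : ℕ) (m b : Ideal (OO n t)) : hS F m b 1 = hM F m b := rfl

end Defs

/-! ## III. The smoothed series -/

/-- (module C/Cnd; uses S_O2, S_O6, S_B1) **The consequences of the conditions.** -/
def S_Cnd : Prop := ∀ (n t : ℕ) [SqN n t] (f : ℕ) (m b : Ideal (OO n t)), FM f m → FB f b →
  15 ≤ f ∧ m * b ≠ ⊥ ∧ 0 < NI m ∧ 0 < NI b ∧ NI (m * b) = NI m * NI b ∧ Odd (NI m) ∧ Odd (NI b) ∧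
  PrI m 15 ∧ G15 b ∧ PrI b 2 ∧ PrI b f ∧ PrI (m * b) (2 * f) ∧ (NI (m * b)).Coprime (2 * f) ∧
  FB f (m * b) ∧ fr b ≠ 0 ∧ (1 / (2 * f : ℕ) : ℂ) ∉ Lam (m * b)

/-- (module C/TrS; edit of DK/C/TrS; uses S_Tct, S_O2) **Transformation of `ThS` under `Γ_0(4 M)`.** -/
def S_TrS : Prop := ∀ (n t : ℕ) [SqN n t] (f M : ℕ) (m b : Ideal (OO n t)), FM f m → FB f b →
  IsLv f m {b} M → ∀ a b' c d : ℤ, G0 (4 * M) a b' c d → ∀ (s : ℤ) (z : ℂ), 0 < z.im →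
    ThS (2 * f) m b s (mob a b' c d z) =
      eps n t d * ThS (2 * f) m b (a * s) z + PhS (2 * f) m b s a b' c d

/-- (module C/CuS; edit of DK/C/CuS; uses S_Tcc, S_Exp, S_O2) **Cusps of `ThS`.** -/
def S_CuS : Prop := ∀ (n t : ℕ) [SqN n t] (f M : ℕ) (m b : Ideal (OO n t)), FM f m → FB f b →
  IsLv f m {b} M → ∀ a b' c d : ℤ, a * d - b' * c = 1 → ∀ s : ℤ,
    ∃ k0 : ℂ, HasE (4 * M) (fun z => ThS (2 * f) m b s (mob a b' c d z)) k0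

/-- (module C/C3; edit of DK/C/C3; uses S_CuS) `S_C3`. -/
abbrev M_C3 : Prop := S_C3

/-- (module C/Val; edit of DK/C/Val; uses S_TrS, S_CuS, S_Exp) **The values `hS`.** -/
def S_Val : Prop := ∀ (n t : ℕ) [SqN n t] (f M : ℕ) (m b : Ideal (OO n t)), FM f m → FB f b →
  IsLv f m {b} M →
  (∀ (s : ℤ) (r : ℚ), Tendsto (fun y : ℝ => ThS (2 * f) m b s (r + y * Complex.I)) (𝓝[>] 0)
    (𝓝 (hS (2 * f) m b s r))) ∧
  ∀ a b' c d : ℤ, G0 (4 * M) a b' c d → ∀ s : ℤ,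
    (∀ r : ℚ, (c : ℚ) * r + d ≠ 0 →
      hS (2 * f) m b s (mobQ a b' c d r) =
        eps n t d * hS (2 * f) m b (a * s) r + PhS (2 * f) m b s a b' c d) ∧
    (d ≠ 0 → PhS (2 * f) m b s a b' c d =
      hS (2 * f) m b s (b' / d) - eps n t d * hS (2 * f) m b (a * s) 0)

/-- (module C/Hom; edit of DK/C/Hom; uses S_Red, S_Tt, S_O2, S_O6, S_B1, S_B7) **Homogeneity.** -/
def S_Hom : Prop := ∀ (n t : ℕ) [SqN n t] (f : ℕ), Odd f → 15 ∣ f →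
  (∀ b : Ideal (OO n t), b ≠ ⊥ → ∀ (a : ℤ) (z : ℂ), a ≠ 0 →
    Tc (2 * f) (sp (a : OO n t) * b) 1 z = a * Tc (2 * f) b a z) ∧
  (∀ b : Ideal (OO n t), b ≠ ⊥ → ∀ (α : OO n t) (z : ℂ), α ≠ 0 →
    ((2 * f : ℕ) : OO n t) ∣ α - 1 → Tc (2 * f) (sp α * b) 1 z = toC α * Tc (2 * f) b 1 z) ∧
  (∀ m b : Ideal (OO n t), FM f m → FB f b → ∀ (a : ℤ) (z : ℂ), a ≠ 0 →
    IsCoprime a ((2 * f : ℕ) : ℤ) → FB f (sp (a : OO n t) * b) ∧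
    ThS (2 * f) m b a z = fr (sp (a : OO n t) * b) / (a * fr b) *
      ThM (2 * f) m (sp (a : OO n t) * b) z) ∧
  ∀ m b : Ideal (OO n t), FM f m → FB f b → ∀ (α : OO n t) (z : ℂ), α ≠ 0 →
    ((2 * f : ℕ) : OO n t) ∣ α - 1 → ThM (2 * f) m (sp α * b) z = ThM (2 * f) m b z

/-- (module C/Den; edit of DK/C/Den; no dependence) **Denominators.** -/
def S_Den : Prop := ∀ (M : ℕ) (a b' c d : ℤ), 3 ≤ M → G0 M a b' c d →
  a ≠ 0 ∧ d ≠ 0 ∧ IsCoprime a (M : ℤ) ∧ IsCoprime d (M : ℤ) ∧ (M : ℤ) ∣ a * d - 1 ∧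
  (b' / d : ℚ).den.Coprime M ∧
  ∀ r : ℚ, r.den.Coprime M → (c : ℚ) * r + d ≠ 0 ∧
    ((a * r + b') / (c * r + d) : ℚ).den.Coprime M

/-- (module C/C1; edit of DK/C/C1; uses S_Val, S_Hom, S_Den, S_C4, S_R1, S_O2, S_O6) `S_C1`. -/
abbrev M_C1 : Prop := S_C1

/-- (module C/C2; edit of DK/C/C2; uses S_TrS, S_Val, S_Red, S_Den, S_C4, S_O2) `S_C2`. NEW: `ε(d) = 1` for `d = 1` modulo `4 M`
(`4 D ∣ 4 M`, `S_Ech` (2), (4)). -/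
abbrev M_C2 : Prop := S_C2

/-! ## IV. Values by Kronecker's series -/

/-- (module C/Spl; edit of DK/C/Spl; uses S_Lt, S_Tt, S_Red) **Splitting modulo `q`.** -/
def S_Spl : Prop := ∀ (n t : ℕ) [SqN n t] (F q g : ℕ) (b : Ideal (OO n t)) (c : ℤ) (U : Finset ℂ),
  0 < F → 0 < q → 0 < g → b ≠ ⊥ → IsSys (sp (q : OO n t)) b U → ∀ y : ℝ, 0 < y →
    Tc F b 1 (g * ((c : ℂ) / q + y * Complex.I)) = (q : ℂ)⁻¹ *
      ∑ u ∈ U, ex (c * (g * NI b * ‖1 + F * q * u‖ ^ 2) / q) *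
        KtC b (2 * Real.pi * y * F ^ 2 * NI b * g * q ^ 2) (1 / (F * q) + u)

/-- (module C/C4a; edit of DK/C/C4a; uses S_Spl, S_Lt, S_O2, S_O6, S_L5, S_B10) **The limits.** -/
def S_C4a : Prop := ∀ (n t : ℕ) [SqN n t] (f : ℕ) (m b : Ideal (OO n t)), FM f m → FB f b →
  ∀ (c : ℤ) (q : ℕ), 0 < q → q.Coprime (NI m) → ∀ U : Finset ℂ, IsSys (sp (q : OO n t)) b U →
    (∀ u ∈ U, (qN m b (1 + (2 * f : ℕ) * q * u) : ℝ) =
      (NI m : ℝ) * NI b * ‖1 + (2 * f : ℕ) * q * u‖ ^ 2) ∧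
    (∀ u ∈ U, 1 / ((2 * f : ℕ) * q) + u ∉ Lam (m * b) ∧ Tor n t (1 / ((2 * f : ℕ) * q) + u)) ∧
    Tendsto (fun y : ℝ => ThM (2 * f) m b (((c / q : ℚ) : ℂ) + y * Complex.I)) (𝓝[>] 0)
      (𝓝 ((q : ℂ)⁻¹ * ∑ u ∈ U, ex (c * qN m b (1 + (2 * f : ℕ) * q * u) / q) *
        gC m b (1 / ((2 * f : ℕ) * q) + u)))

/-- (module C/C4b; edit of DK/C/C4; uses S_C4a, S_L3, S_R1) **The values are algebraic**, with the formula for every system. -/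
def S_C4b : Prop :=
  ∀ (n t : ℕ) [Ine n t] (f : ℕ) (m b : Ideal (OO n t)), FM f m → FB f b → ∀ (c : ℤ) (q : ℕ), 0 < q →
    q.Coprime (NI m) →
    Tendsto (fun y : ℝ => ThM (2 * f) m b (((c / q : ℚ) : ℂ) + y * Complex.I)) (𝓝[>] 0)
      (𝓝 (hM (2 * f) m b (c / q))) ∧
    io (etaM (2 * f) m b (c / q)) = hM (2 * f) m b (c / q) ∧
    ∀ U : Finset ℂ, IsSys (sp (q : OO n t)) b U →
      (∀ u ∈ U, (qN m b (1 + (2 * f : ℕ) * q * u) : ℝ) =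
        (NI m : ℝ) * NI b * ‖1 + (2 * f : ℕ) * q * u‖ ^ 2) ∧
      etaM (2 * f) m b (c / q) = (q : Om)⁻¹ *
        ∑ u ∈ U, zet q ^ (c * qN m b (1 + (2 * f : ℕ) * q * u)) *
          gO m b (1 / ((2 * f : ℕ) * q) + u)

/-- (module C/Usy; NEW; uses S_L6, S_L2, S_O2, S_L3) **The system `γ/q`**, `γ ∈ O` modulo `q`, for `b` prime to `q`. -/
def S_Usy : Prop := ∀ (n t : ℕ) [SqN n t] (q : ℕ) (b : Ideal (OO n t)), 0 < q → b ≠ ⊥ → PrI b q →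
  ∃ U : Finset ℂ, IsSys (sp (q : OO n t)) b U ∧ ∀ G : ℂ → Om,
    ∑ u ∈ U, G u = ∑ x ∈ Finset.range q, ∑ y ∈ Finset.range q,
      G (toC (⟨x, y⟩ : OO n t) / q)

/-- (module C/C4; NEW; uses S_C4b, S_Usy) `S_C4`: `1/(2 f q) + γ/q = (1 + 2 f γ)/(2 f q)`, `1 + 2 f q u = toC (1 + 2 f γ)`,
`qN = N m N b Nm(1 + 2 f γ)`. -/
abbrev M_C4 : Prop := S_C4

/-! ## V. Class functions, coefficients -/

/-- (module C/Par; NEW; uses S_Lt, S_Cnd) **Parity**: for `v ∈ 1/(2 f) + Lam (m b)`: `4 f² N(m b) |v|²` is an odd integer. With `w = 2 f v = 1 + 2 f λ`,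
`n = N(m b)` (odd): `n |w|² = n + 2 f (n (|1 + λ|² - 1 - |λ|²)) + 4 f² n |λ|²` (`S_Lt` (4), (5)). -/
def S_Par : Prop := ∀ (n t : ℕ) [SqN n t] (f : ℕ) (m b : Ideal (OO n t)), FM f m → FB f b →
  (∀ v : ℂ, v - 1 / (2 * f : ℕ) ∈ Lam (m * b) →
    ∃ j : ℕ, j % 2 = 1 ∧ ((2 * f : ℕ) : ℝ) ^ 2 * NI (m * b) * ‖v‖ ^ 2 = j) ∧
  ∀ z : ℂ, 0 < z.im → ThM (2 * f) m b (z + 1 / 2) = -ThM (2 * f) m b z

/-- (module C/C6; edit of DK/C/C6; uses S_Hom, S_Red, S_Tt, S_C4, S_Val, S_Par, S_O2, S_O3, S_O6, S_L2, S_B7) `S_C6`.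
NEW: the half period: `S_Par` (2) and the limits (`S_Val` (1) for all `r`). -/
abbrev M_C6 : Prop := S_C6

/-- (module C/C7a; edit of DK/C/C7a; uses S_Lt, S_Bas, S_O2, S_O6) **The sets `vN`.** -/
def S_C7a : Prop := ∀ (n t : ℕ) [SqN n t] (f : ℕ) (m b : Ideal (OO n t)), FM f m → FB f b →
  (∀ (j : ℕ) (v : ℂ), v ∈ vN (2 * f) (m * b) j ↔
    v - 1 / (2 * f : ℕ) ∈ Lam (m * b) ∧ ((2 * f : ℕ) : ℝ) ^ 2 * NI (m * b) * ‖v‖ ^ 2 = j) ∧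
  ∃ C : ℝ, ∀ j : ℕ, ‖cM (2 * f) m b j‖ ≤ C * (j + 1) ^ 2

/-- (module C/C7b; NEW; uses S_Cnd, S_C7a, S_O2, S_O3, S_L0, S_Lt) **The coefficients are algebraic and divisible by `2`.** For `v ∈ 1/(2 f) + Lam (m b)`:
`v = toC x/(2 f ν)`, `ν = N(m b)` odd, `x = ν + 2 f w`, `Nm x` is odd and nonzero, `v⁻¹ = 2 f ν toC (cjO x)/Nm x`. -/
def S_C7b : Prop := ∀ (n t : ℕ) [SqN n t] (f : ℕ) (m b : Ideal (OO n t)), FM f m → FB f b →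
  ∀ j : ℕ, io (ofC (cM (2 * f) m b j)) = cM (2 * f) m b j ∧
    ∀ P : Ideal ZZ, Ab2 P → TP P 2 (ofC (cM (2 * f) m b j))

/-- (module C/C7; edit of DK/C/C7; uses S_C7a, S_C7b, S_Par, S_Lt, S_Tt, S_Red, S_Der, S_O2) `S_C7`. -/
abbrev M_C7 : Prop := S_C7

end Pool.Agent.DN.C
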