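import Pool.Agent.Lib.DN.C.Spec

/-!
# THEOREM DN (MP_d0239a_nt), Part C: the hidden symmetry `S_C9`

Author helper33, after note 4249 (helper36), sections 1 - 3. `ω` is a complex number with `ω² + ω + 1 = 0` (it will
be `ζ^k`); `F0` is odd; everything of modulus `2 F0` with the factor `om ω`, the cubic character modulo `2`.
-/

set_option autoImplicit false

open Filter Topology
open scoped Pointwise

noncomputable section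

namespace Pool.Agent.DN.C

open Pool.Agent.MuZ Pool.Agent.FW NumberField
open Pool.Agent.DI (io ofC io_inj exists_io io_ofC ofC_io VP MP UP TP ex)

section Defs

variable {n t : ℕ}

open Classical in
/-- `0, 1, ω, ω²` on the classes of `0, 1, w, 1 + w` modulo `2`. -/
def om (ω : ℂ) (v : OO n t) : ℂ :=
  if (2 : ℤ) ∣ v.re then (if (2 : ℤ) ∣ v.im then 0 else ω) else
    (if (2 : ℤ) ∣ v.im then 1 else ω ^ 2)

/-- The product `σ om`. -/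
def so (ω : ℂ) (σ : OO n t → ℂ) (v : OO n t) : ℂ := σ v * om ω v

/-- The finite Fourier transform of `a ↦ σ(2 a)` modulo `F0`. -/
def sg (F0 : ℕ) (σ : OO n t → ℂ) (u : OO n t) : ℂ :=
  rsum F0 fun a => σ (2 * a) * ex (-(a * cjO u).im / F0)

end Defs

/-- (module C/Om; no dependence) **The character modulo `2`** (`t = 1`, `n` odd: `SqN`, `Ine.one`, `Ine.odd`). (1) `2 ∣ v - u` in `O` iff the
coordinates are congruent modulo `2` (`nat_dvd_iff`, `Base`). (3) `Nm v = x² + x y + n y²` is odd unless `x`, `y` are even. (4) four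
terms; `(β * cjO u).im = β.im u.re - β.re u.im` for `t = 1`; `ex(j) = 1`, `ex(j + 1/2) = -1` for integers `j`; so the left side is `(-1)^(u.im) + ω (-1)^(u.re) + ω²
(-1)^(u.re - u.im)` (the terms `β = 1, w, 1 + w`): `1 + ω + ω² = 0`, `1 - ω - ω² = 2`, `-1 + ω - ω² = 2 ω`, `-1 - ω + ω² = 2 ω²`
for `u = 0, 1, w, 1 + w`. (5) `rsum 2`: unfold, `Finset.sum_range_succ`. -/
def S_Om : Prop := ∀ (n t : ℕ) [Ine n t] (ω : ℂ), ω ^ 2 + ω + 1 = 0 →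
  (∀ v u : OO n t, (2 : OO n t) ∣ v - u → om ω v = om ω u) ∧
  (∀ v : OO n t, om ω (-v) = om ω v) ∧
  (∀ v : OO n t, om ω v = 0 ∨ Nm v % 2 = 1) ∧
  ∀ u : OO n t, rsum 2 (fun β : OO n t => om ω β * ex (-(β * cjO u).im / 2)) = 2 * om ω u

/-- (module C/Fou; uses S_Om, S_Res) **The Fourier transform modulo `2 F0`.** (1) `ex` of an integer is `1`. (2) `BB (so ω σ) (2 F0) 0 0 1 u` is the `rsum`
over `2 F0 * 1` of `σ(v) om(v) ex(-(v ū).im/(2 F0))`, a function periodic modulo `2 F0 = F0 * 2` (`S_Om` (1)). `S_Res` (5) with `f = F0`, `p = 2`: `v = 2 α + F0 β`: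
`σ(v) = σ(2 α)` (period), `om(v) = om(F0 β) = om(β)` (`F0` odd, `S_Om` (1)), `(v ū).im/(2 F0) = (α ū).im/F0 + (β ū).im/2`. The sum over `β` is
`2 om(u)` (`S_Om` (4)). -/
def S_Fou : Prop := ∀ (n t : ℕ) [Ine n t] (ω : ℂ), ω ^ 2 + ω + 1 = 0 →
  ∀ (F0 : ℕ) (σ : OO n t → ℂ), Odd F0 → PerO F0 σ →
    PerO F0 (sg F0 σ) ∧ ∀ u : OO n t, BB (so ω σ) (2 * F0) 0 0 1 u = 2 * so ω (sg F0 σ) u

/-- (module C/Inv; uses S_Gen, S_Om, S_Fou) **(2.2).** `S_Gen` with modulus `2 F0`, `c = 1`, `(a, b, c, d) = (0, -1, 1, 0)`, `ρ = so ω σ` (periodic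
modulo `2 F0`), at the point `z' = -2/z`: `mob 0 (-1) 1 0 z' = -1/z' = z/2`; `-(z')²/(D (2 F0)³) = -1/(2 D F0³ z²)`, `Nm u z'/(D (2 F0)²) = Nm u (-1/(D F0² z))/2`;
`S_Fou` (2) gives the factor `2`. `Im z' > 0`. -/
def S_Inv : Prop := ∀ (n t : ℕ) [Ine n t] (ω : ℂ), ω ^ 2 + ω + 1 = 0 →
  ∀ (F0 : ℕ) (σ : OO n t → ℂ) (z : ℂ), Odd F0 → PerO F0 σ → 0 < z.im →
    Gt (so ω σ) (z / 2) = -1 / (Dk n t * F0 ^ 3 * z ^ 2) *
      Gt (so ω (sg F0 σ)) (-1 / (Dk n t * F0 ^ 2 * z) / 2)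

/-- (module C/Hid; uses S_Om, S_Fou, S_Inv) **(2.4), the hidden symmetry in weight 2.** Let `A = D F0²`, `z'' = z/(A c z + 1)` (`Im z'' > 0`), `z' = -1/(A z)`;
`-1/(A z'') = z' - c`. (i) `Gt (so ω τ) ((w - c)/2) = -Gt (so ω τ) (w/2)` for odd `c` and all `τ`: term by term, `om(v) = 0` or `Nm v` odd (`S_Om` (3)), and `ex(-Nm v c/2) = -1`.
(ii) `S_Inv` for `σ` at `z''` and at `z`: `Gt(z''/2) = -1/(D F0³ z''²) G^((z' - c)/2) = 1/(D F0³ z''²) G^(z'/2)`, `G^(z'/2) = -D F0³ z² Gt(z/2)`. So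
`Gt(z''/2) = -(z/z'')² Gt(z/2)`. -/
def S_Hid : Prop := ∀ (n t : ℕ) [Ine n t] (ω : ℂ), ω ^ 2 + ω + 1 = 0 →
  ∀ (F0 : ℕ) (c : ℤ) (σ : OO n t → ℂ) (z : ℂ), Odd F0 → Odd c → PerO F0 σ → 0 < z.im →
    Gt (so ω σ) (z / (Dk n t * F0 ^ 2 * c * z + 1) / 2) =
      -((Dk n t * F0 ^ 2 * c * z + 1) ^ 2 * Gt (so ω σ) (z / 2))

/-- (module C/Hit; uses S_Om, S_Der, S_Hid) **Section 3, weight 1.** `so ω σ` is periodic modulo `2 F0`. `S_Der` (1): the derivative of `z ↦ Th (so ω σ) (g z/2) + Th (so ω σ) (z/2)`,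
`g z = z/(N z + 1)`, `N = D F0² c`, is `π i (Gt(g z/2) (N z + 1)⁻² + Gt(z/2)) = 0` (`S_Hid`). The upper half plane is convex and open: the function is constant (as in
`DN/C/Phi.lean`). -/
def S_Hit : Prop := ∀ (n t : ℕ) [Ine n t] (ω : ℂ), ω ^ 2 + ω + 1 = 0 →
  ∀ (F0 : ℕ) (c : ℤ) (σ : OO n t → ℂ), Odd F0 → Odd c → PerO F0 σ → ∃ C : ℂ, ∀ z : ℂ, 0 < z.im →
    Th (so ω σ) (z / (Dk n t * F0 ^ 2 * c * z + 1) / 2) = -Th (so ω σ) (z / 2) + C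

/-- (module C/Rda; uses S_Lt, S_Tt, S_Der, S_Red, S_O2, S_O3, S_O6, S_Om; adapt DN/C/Red.lean and `Hom_main` of DN/C/Hom.lean) **(1.1).** Let `F = 2 f`, `ν = NI b` (odd, `S_O6`), `B = cjI b`, `ν ∈ B`. `Hom_main`: `Tc F (sp α * b) 1 z =
toC α * TT (cs (toC α/F) b) (F² ν) z`. As in `Red_cs`: `cs (toC α/F) b` is `(F ν)⁻¹` times the set of the `toC u`, `u - α ν ∈ sp F * B`; so `TT (cs (toC α/F) b) (F² ν) z =
F ν ∑' v, [v - α ν ∈ F B]/toC v * ex(Nm v z/ν)` (`Red_TT`). For `α ∈ tm` (so `f ∣ α - 1`): `v - α ν ∈ 2 f B` iff `v - ν ∈ f B` and `2 ∣ v - α` (if `x ∈ f B`, `x = 2 y`, then `(f ν) y ∈ f B`, `f ν = 2 j + 1`, so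
`y = f ν y - j x ∈ f B`, `x ∈ 2 f B`). So `∑_α om(α) [v - α ν ∈ 2 f B] = om(v) [v - ν ∈ f B]` (every odd class modulo `2` contains exactly one element of `tm`; `om(v) = 0` for even `v`).
`Th (so ω (rhS f b 1)) w = ∑' v, [v - ν ∈ f B] om(v)/toC v * ex(Nm v w)` (`v ↦ -v`, `S_Om` (2), as in `Red_Th`). -/
def S_Rda : Prop := ∀ (n t : ℕ) [Ine n t] (ω : ℂ), ω ^ 2 + ω + 1 = 0 →
  ∀ (f : ℕ) (b : Ideal (OO n t)) (z : ℂ), Odd f → b ≠ ⊥ → PrI b 2 → 0 < z.im →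
    ∑ α ∈ tm n t f, om ω α * ((toC α)⁻¹ * Tc (2 * f) (sp α * b) 1 z) =
      (2 * f * NI b : ℕ) * Th (so ω (rhS f b 1)) (z / NI b)

/-- (module C/Etf; uses S_Rda, S_B7, S_Cnd, S_O6) **(1.2).** `fr (sp α * b) = toC α * fr b` (`S_B7`: `α = 1` modulo `f`, `15 ∣ f`), `m * (sp α * b) = sp α * (m * b)`;
`S_Rda` for `m b` at `z` and for `b` at `N m z`. -/
def S_Etf : Prop := ∀ (n t : ℕ) [Ine n t] (ω : ℂ), ω ^ 2 + ω + 1 = 0 →
  ∀ (f : ℕ) (m b : Ideal (OO n t)) (z : ℂ), FM f m → FB f b → 0 < z.im →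
    fr b * ∑ α ∈ tm n t f, om ω α * ThM (2 * f) m (sp α * b) z =
      (2 * f * NI (m * b) : ℕ) * Th (so ω (rhS f (m * b) 1)) (z / NI (m * b)) -
        NI m * ((2 * f * NI b : ℕ) * Th (so ω (rhS f b 1)) (NI m * z / NI b))

/-- (module C/Sym; uses S_Etf, S_Hit, S_Red, S_Cnd) **Section 3.** `S_Etf` at `z/2` and at `z''/2`, `z'' = z/(M z + 1)`. First term: `S_Hit` with `F0 = f n₁`, `n₁ = NI (m b)`, `σ = rhS f (m b) 1`
(`S_Red` (1): periodic modulo `f n₁`), at `x = z/n₁`: `z''/n₁ = x/(M n₁ x + 1)`, `M n₁ = D F0² c`, `c = M/(D f² n₁)`, odd. Second term: `F0 = f ν`, `ν = NI b`, at `x = N m z/ν`: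
`N m z''/ν = x/((M ν/N m) x + 1)`, `M ν/N m = D F0² c`, `c = M/(D f² ν N m)`, odd. (`D f² (N m ν)³ ∣ M`, `M` odd.) `fr b ≠ 0` (`S_Cnd`). -/
def S_Sym : Prop := ∀ (n t : ℕ) [Ine n t] (ω : ℂ), ω ^ 2 + ω + 1 = 0 →
  ∀ (f M : ℕ) (m b : Ideal (OO n t)), FM f m → FB f b → IsLv f m {b} M → ∃ C : ℂ,
    ∀ z : ℂ, 0 < z.im →
      ∑ α ∈ tm n t f, om ω α * ThM (2 * f) m (sp α * b) (z / (M * z + 1) / 2) =
        -∑ α ∈ tm n t f, om ω α * ThM (2 * f) m (sp α * b) (z / 2) + C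

/-- (module C/Vls; uses S_CuS, S_Exp; adapt `Val_two` of DN/C/Val.lean) **The limits along `g (r + i y)`**, all `g` in `SL_2(ℤ)` (any level `M`, for instance
`3 lev f m {b}`). -/
def S_Vls : Prop := ∀ (n t : ℕ) [Ine n t] (f : ℕ) (m b : Ideal (OO n t)), FM f m → FB f b →
  ∀ a b' c d : ℤ, a * d - b' * c = 1 → ∀ r : ℚ, (c : ℚ) * r + d ≠ 0 →
    Tendsto (fun y : ℝ => ThM (2 * f) m b (mob a b' c d (r + y * Complex.I))) (𝓝[>] 0)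
      (𝓝 (hM (2 * f) m b (mobQ a b' c d r)))

/-- (module C/Ztm; uses S_T0, S_O4) **The character of the elements of `tm`.** `ζ = zt P w` satisfies `ζ² + ζ + 1 = 0` (`S_T0`: `2` does not divide `w - 1`); `zt P 1 = 1` (`zt(1 * 1) = zt(1)²`,
`zt(1)³ = 1`). `zt P` depends only on the class modulo `2`; `w² = w - n = 1 + w` modulo `2`, so `zt(1 + w) = ζ²`. `ω = io ζ` for `k = 1`, `ω = io ζ²` for `k = 2`. -/
def S_Ztm : Prop := ∀ (n t : ℕ) [Ine n t] (P : Ideal ZZ), Ab2 P → ∀ (f k : ℕ), Odd f →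
  (k = 1 ∨ k = 2) → ∃ ω : ℂ, ω ^ 2 + ω + 1 = 0 ∧ ∀ α ∈ tm n t f, io (zt P α ^ k) = om ω α

/-- (module C/C9; uses S_Sym, S_Vls, S_Ztm, S_C4, S_Den) `S_C9`. (3.1): the limit `y → 0` of `S_Sym` at `z = r + i y`; `z''/2 = mob 1 0 (2 M) 1 (z/2)`. -/
abbrev M_C9 : Prop := S_C9

end Pool.Agent.DN.C
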