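import Pool.Agent.Lib.DN.Iface
import Pool.Agent.Lib.DN.Base
import Pool.Agent.Lib.DK.C.Spec

/-!
# THEOREM DN (MP_d0239a_nt), Part C, first half: the ring part (theta series of the lattice `O`)

Author helper33. All imaginary quadratic fields (`SqN n t`), all even moduli `F ≥ 4`. Every `def S_.. : Prop` is a
statement, its proof is in the docstring or in the module of the same name of `DT/C`, `DK/C`.
Statements without the ring are reused from `DK/C` with their proofs: `S_Poi`, `S_Exp`, `S_Tt` (and `HasE`, `TT`,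
which are abbreviations here).
-/

set_option autoImplicit false

open Filter Topology
open scoped Pointwise

noncomputable section

namespace Pool.Agent.DN.C

open Pool.Agent.MuZ Pool.Agent.FW NumberField
open Pool.Agent.DI (io ofC io_inj exists_io io_ofC ofC_io VP MP UP TP ex)

/-! ## Definitions -/

/-- The Möbius transformation. -/
def mob (a b c d : ℤ) (z : ℂ) : ℂ := (a * z + b) / (c * z + d)

/-- The Möbius transformation of a rational number. -/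
def mobQ (a b c d : ℤ) (r : ℚ) : ℚ := (a * r + b) / (c * r + d)

/-- `G = k0 + ∑_(j ≥ 1) e_j e(j z/M)`, `e_j` of polynomial growth (the definition of `DK/C`). -/
abbrev HasE (M : ℕ) (G : ℂ → ℂ) (k0 : ℂ) : Prop := Pool.Agent.DK.C.HasE M G k0

/-- The sum of `v⁻¹ e(w |v|² z)` over the set `A` (the definition of `DK/C`). -/
abbrev TT (A : Set ℂ) (w : ℝ) (z : ℂ) : ℂ := Pool.Agent.DK.C.TT A w z

section Defs

variable {n t : ℕ}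

/-- `ρ` is odd. -/
def OddO (ρ : OO n t → ℂ) : Prop := ∀ v : OO n t, ρ (-v) = -ρ v

/-- `ρ` is periodic modulo `N`. -/
def PerO (N : ℕ) (ρ : OO n t → ℂ) : Prop := ∀ v u : OO n t, ρ (v + N * u) = ρ v

/-- `ρ_a(v) = ρ(a v)`. -/
def tw (ρ : OO n t → ℂ) (a : OO n t) (v : OO n t) : ℂ := ρ (a * v)

/-- The theta function of weight 1: `Th_ρ(z) = 1/2 ∑ ρ(v) v⁻¹ e(N v z)`. -/
def Th (ρ : OO n t → ℂ) (z : ℂ) : ℂ := 1 / 2 * ∑' v : OO n t, ρ v / toC v * ex (Nm v * z)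

/-- The theta function of weight 2: `G_ρ(z) = 1/2 ∑ ρ(v) v̄ e(N v z)`. -/
def Gt (ρ : OO n t → ℂ) (z : ℂ) : ℂ := 1 / 2 * ∑' v : OO n t, ρ v * toC (cjO v) * ex (Nm v * z)

/-- The sum over the residues modulo `m`. -/
def rsum (m : ℕ) (G : OO n t → ℂ) : ℂ :=
  ∑ x ∈ Finset.range m, ∑ y ∈ Finset.range m, G ⟨(x : ℤ), (y : ℤ)⟩

/-- The constant `Φ_ρ(g)`, defined by the value at `z = i`. -/
def PhC (ρ : OO n t → ℂ) (a b c d : ℤ) : ℂ :=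
  Th ρ (mob a b c d Complex.I) - eps n t d * Th (tw ρ (d : OO n t)) Complex.I

/-- The finite sum `B(u) = ∑ ρ(v) e(a N v / c - im(v ū) / (f c) + d N u / (D f² c))`. -/
def BB (ρ : OO n t → ℂ) (f : ℕ) (a d : ℤ) (c : ℕ) (u : OO n t) : ℂ :=
  rsum (f * c) fun v => ρ v * ex (a * Nm v / c - (v * cjO u).im / (f * c)
    + d * Nm u / (Dk n t * f ^ 2 * c))

/-- The Gauss sum: the sum of `e(a N x / c)` over the `x` in `f O` modulo `f c`. -/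
def GG (n t f : ℕ) (a : ℤ) (c : ℕ) : ℂ := by
  classical
  exact rsum (f * c) fun x : OO n t => if (f : OO n t) ∣ x then ex (a * Nm x / c) else 0

/-- The multiplier `κ`. -/
def KK (n t f : ℕ) (a : ℤ) (c : ℕ) : ℂ := -toC (sD n t) / (Dk n t * f ^ 2 * c) * GG n t f a c

/-- The coset `x + Lam b`. -/
def cs (x : ℂ) (b : Ideal (OO n t)) : Set ℂ := {v : ℂ | v - x ∈ Lam b}

open Classical in
/-- `ρ_s(u) = [u ∈ s N b + F b̄] - [-u ∈ s N b + F b̄]`. -/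
def rhS (F : ℕ) (b : Ideal (OO n t)) (s : ℤ) (u : OO n t) : ℂ :=
  (if u - ((s * NI b : ℤ) : OO n t) ∈ sp (F : OO n t) * cjI b then 1 else 0) -
    (if u + ((s * NI b : ℤ) : OO n t) ∈ sp (F : OO n t) * cjI b then 1 else 0)

end Defs

/-! ## Statements without the ring, proved in `DK/C` -/

/-- **Poisson summation in dimension 1**: proved, `Pool.Agent.DK.C.tPoi`. -/
abbrev S_Poi : Prop := Pool.Agent.DK.C.S_Poi

/-- **Rules for `HasE`**: proved, `Pool.Agent.DK.C.tExp`. -/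
abbrev S_Exp : Prop := Pool.Agent.DK.C.S_Exp

/-- **Rules for `TT`**: proved, `Pool.Agent.DK.C.tTt`. -/
abbrev S_Tt : Prop := Pool.Agent.DK.C.S_Tt

/-! ## I. The lattice `O` -/

/-- (module C/Bas) **The ring `O`.** Bound: `t = 0`: `x² + y² ≤ x² + n y²`; `t = 1`: `2 N v - (x² + y²) = (x + y)² +
(2n - 2) y²`. -/
def S_Bas : Prop := ∀ (n t : ℕ) [SqN n t],
  (∀ v : OO n t, ‖toC v‖ ^ 2 = (Nm v : ℝ)) ∧
  (∀ v : OO n t, toC (cjO v) = (starRingEnd ℂ) (toC v)) ∧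
  (∀ v u : OO n t, cjO (v * u) = cjO v * cjO u ∧ cjO (v + u) = cjO v + cjO u ∧ cjO (cjO v) = v) ∧
  (∀ v u : OO n t, Nm (v * u) = Nm v * Nm u) ∧
  (∀ v : OO n t, ((Nm v : ℤ) : OO n t) = v * cjO v ∧ Nm (cjO v) = Nm v ∧ Nm (-v) = Nm v) ∧
  (∀ v : OO n t, 0 ≤ Nm v ∧ (Nm v = 0 ↔ v = 0) ∧ (v.re ^ 2 + v.im ^ 2 ≤ 4 * Nm v)) ∧
  (∀ v u : OO n t, Nm (v + u) = Nm v + Nm u + (2 * (v * cjO u).re + t * (v * cjO u).im)) ∧
  (sD n t * cjO (sD n t) = (Dk n t : OO n t) ∧ cjO (sD n t) = -sD n t ∧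
    sD n t * sD n t = -(Dk n t : OO n t)) ∧
  (∀ v : OO n t, (sD n t * v).im = 2 * v.re + t * v.im ∧
    2 * (sD n t * v).re + t * (sD n t * v).im = -(Dk n t : ℤ) * v.im) ∧
  (∀ v : OO n t, toC v = 0 ↔ v = 0)

/-- (module C/Sum; uses S_Bas) **Convergence.** -/
def S_Sum : Prop := ∀ (n t : ℕ) [SqN n t],
  (∀ (y : ℝ) (j : ℕ), 0 < y →
    Summable fun v : OO n t => ((Nm v : ℝ) + 1) ^ j * Real.exp (-y * Nm v)) ∧
  (∀ z : ℂ, ‖ex z‖ = Real.exp (-2 * Real.pi * z.im)) ∧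
  (∀ (N : ℕ) (ρ : OO n t → ℂ), 0 < N → PerO N ρ → ∃ C : ℝ, 0 ≤ C ∧ ∀ v : OO n t, ‖ρ v‖ ≤ C)

/-- (module C/Two, edit of DT/C/Two; uses S_Poi, S_Bas, S_Sum) **Poisson summation in dimension 2.** CASE `t = 1`: as in
`DK/C/Two`, `DT/C/Two` (`D = 4n - 1`, `N = x² + x y + n y²`). CASE `t = 0`: `w = i √n`, `D = 4 n`, `O = ℤ + ℤ i √n` is a product lattice
(as the case `t = 4` of `DT/C/Two`, with `X = x`, `D' = n`). -/
def S_Two : Prop := ∀ (n t : ℕ) [SqN n t] (m : ℕ) (v₀ : OO n t) (τ : ℂ), 0 < m → 0 < τ.im →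
  ∑' u : OO n t, toC (cjO (v₀ + (m : OO n t) * u)) * ex (Nm (v₀ + (m : OO n t) * u) * τ)
    = -1 / (Dk n t * m ^ 3 * τ ^ 2) *
      ∑' u : OO n t, toC (cjO u) * ex (-(Nm u) / (Dk n t * m ^ 2 * τ) - (v₀ * cjO u).im / m)

/-- (module C/Res; no dependence) **Sums over the residues.** -/
def S_Res : Prop := ∀ (n t : ℕ) [SqN n t],
  (∀ (m : ℕ) (F : OO n t → ℂ), 0 < m → PerO m F → ∀ w : OO n t,
    rsum m (fun v => F (v + w)) = rsum m F) ∧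
  (∀ (m : ℕ) (F : OO n t → ℂ), 0 < m → Summable F →
    (∀ v : OO n t, Summable fun u : OO n t => F (v + (m : OO n t) * u)) ∧
    ∑' v : OO n t, F v = rsum m fun v => ∑' u : OO n t, F (v + (m : OO n t) * u)) ∧
  (∀ (m : ℕ) (F : OO n t → ℂ), 0 < m → PerO m F → ∀ a : ℤ, IsCoprime a (m : ℤ) →
    rsum m (fun v => F ((a : OO n t) * v)) = rsum m F) ∧
  (∀ (f : ℕ) (w : OO n t), 0 < f → ((f : OO n t) ∣ w →
      rsum f (fun u : OO n t => ex ((cjO u * w).im / f)) = (f : ℂ) ^ 2) ∧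
    (¬ (f : OO n t) ∣ w → rsum f (fun u : OO n t => ex ((cjO u * w).im / f)) = 0)) ∧
  (∀ (f p : ℕ) (F : OO n t → ℂ), 0 < f → 0 < p → Nat.Coprime f p → PerO (f * p) F →
    rsum (f * p) F = rsum f fun α => rsum p fun β => F ((p : OO n t) * α + (f : OO n t) * β))

/-- (module C/Ech; no dependence) **The quadratic character.** -/
def S_Ech : Prop := ∀ (n t : ℕ) [SqN n t],
  (∀ d : ℤ, Odd d → IsCoprime d (Dk n t : ℤ) → eps n t d = 1 ∨ eps n t d = -1) ∧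
  (∀ d d' : ℤ, Odd d → Odd d' → IsCoprime d (Dk n t : ℤ) → (4 * Dk n t : ℤ) ∣ d - d' →
    eps n t d = eps n t d') ∧
  (∀ d : ℤ, eps n t (-d) = -eps n t d) ∧ eps n t 1 = 1

/-- (module C/Gau; no dependence) **The Gauss sum of the norm form, and inert primes.** -/
def S_Gau : Prop := ∀ (n t : ℕ) [SqN n t] (p : ℕ), p.Prime → p ≠ 2 →
  jacobiSym (-(Dk n t : ℤ)) p = -1 →
  (∀ j : ℤ, ¬ (p : ℤ) ∣ j → rsum p (fun β : OO n t => ex (j * Nm β / p)) = -(p : ℂ)) ∧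
  (∀ u : OO n t, Nm u = (p : ℤ) ^ 2 → ∃ e : OO n t, Nm e = 1 ∧ u = (p : OO n t) * e)

/-- (module C/Uni; uses S_Bas, S_Sum) **Uniqueness of the coefficients.** -/
def S_Uni : Prop := ∀ (n t : ℕ) [SqN n t] (M : ℕ) (γ : OO n t → ℂ) (C : ℝ), 0 < M →
  (∀ u : OO n t, ‖γ u‖ ≤ C * (1 + Nm u)) →
  (∀ z : ℂ, 0 < z.im → ∑' u : OO n t, γ u * ex (Nm u * z / M) = 0) →
  ∀ (j : ℤ) (T : Finset (OO n t)), (∀ u : OO n t, u ∈ T ↔ Nm u = j) → ∑ u ∈ T, γ u = 0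

/-- (module C/Gen; uses S_Two, S_Res, S_Sum) **General `g`, `c > 0`.** -/
def S_Gen : Prop := ∀ (n t : ℕ) [SqN n t] (f c : ℕ) (a b d : ℤ) (ρ : OO n t → ℂ) (z : ℂ),
  0 < f → 0 < c → PerO f ρ → a * d - b * c = 1 → 0 < z.im →
  Gt ρ (mob a b c d z) = -((c : ℂ) * z + d) ^ 2 / (Dk n t * f ^ 3 * c) *
    (1 / 2 * ∑' u : OO n t, toC (cjO u) * ex (Nm u * z / (Dk n t * f ^ 2)) * BB ρ f a d c u)

/-- (module C/Gam; uses S_Bas, S_Res) **The finite sums for `D f² ∣ c`.** -/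
def S_Gam : Prop := ∀ (n t : ℕ) [SqN n t] (f c : ℕ) (a b d : ℤ) (ρ : OO n t → ℂ), 0 < f → 0 < c →
  PerO f ρ → a * d - b * c = 1 → Dk n t * f ^ 2 ∣ c →
  (∀ u : OO n t, ¬ (f * sD n t : OO n t) ∣ u → BB ρ f a d c u = 0) ∧
  (∀ v : OO n t, BB ρ f a d c (f * sD n t * v) = ρ (-(d * v)) * GG n t f a c)

/-- (module C/Kap; uses S_Gen, S_Gam, S_Sum) **`Γ_0(D f²)`, with an unknown multiplier.** -/
def S_Kap : Prop := ∀ (n t : ℕ) [SqN n t] (f : ℕ) (a b c d : ℤ), 0 < f → a * d - b * c = 1 →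
  (Dk n t * f ^ 2 : ℤ) ∣ c →
  ∃ κ : ℂ, ∀ ρ : OO n t → ℂ, OddO ρ → PerO f ρ → ∀ z : ℂ, 0 < z.im →
    Gt ρ (mob a b c d z) = κ * ((c : ℂ) * z + d) ^ 2 * Gt (tw ρ (d : OO n t)) z

/-- (module C/EpsA, edit of DT/C/EpsA; uses S_Gen, S_Gau, S_Uni, S_Res, S_Sum) **`κ = -1` for `d = p`**, `p` an odd prime with
`J(-D | p) = -1`. NEW because of the extra units (`D = 3, 4`): take `ρ(v) = e(im v/f) - e(-im v/f)`, odd and `f`-periodic. As in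
`DT/C/EpsA`: `∑_u ū (B₁(u) - p κ B₂(u)) e(N u z/(D f²)) = 0`, so the sum over the `u` with `N u = p²` vanishes (`S_Uni`); these are the `p e`,
`N e = 1` (`S_Gau` (2)). `B₂(p e) = S(e)`, `B₁(p e) = -p S(e)`, `S(e) = rsum f (ρ(p α) e(-p im(α ē)/f))` (as in `DT/C/EpsA` for `e = 1`: with
`v = p α + f β` the terms with `β` give the Gauss sum of `b f² N β / p`, the mixed terms are integers; note `N(p e) = p²`). With `im α = -im(cjO α)` and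
`im(α ē) = -im(cjO α e)`: `S(e) = rsum f (e(im(cjO α p (e - 1))/f)) - rsum f (e(im(cjO α p (e + 1))/f))`, `= f² [f ∣ e - 1] - f² [f ∣ e + 1]` (`S_Res` (4); `p` is
prime to `f`), and `f ∣ e - 1` iff `e = 1` (`N(e - 1) ≤ 4 < f²` for `f ≥ 3`: `f ∣ x`, `x ≠ 0` gives `N x ≥ f²`). So `0 = (-p - p κ) p f² (1 + 1)`: `κ = -1`. -/
def S_EpsA : Prop := ∀ (n t : ℕ) [SqN n t] (f : ℕ) (a b c : ℤ) (p : ℕ), 3 ≤ f → p.Prime →
  p ≠ 2 → jacobiSym (-(Dk n t : ℤ)) p = -1 → a * p - b * c = 1 → (Dk n t * f ^ 2 : ℤ) ∣ c → ∀ κ : ℂ,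
  (∀ ρ : OO n t → ℂ, OddO ρ → PerO f ρ → ∀ z : ℂ, 0 < z.im →
    Gt ρ (mob a b c p z) = κ * ((c : ℂ) * z + p) ^ 2 * Gt (tw ρ ((p : ℤ) : OO n t)) z) → κ = -1

/-- (module C/Eps; uses S_Kap, S_EpsA, S_Ech) **`κ = ε(d)`**, for every even modulus `f ≥ 4` (`4 D ∣ D f² ∣ c`, so `d` is odd). -/
def S_Eps : Prop := ∀ (n t : ℕ) [SqN n t] (f : ℕ) (a b c d : ℤ) (ρ : OO n t → ℂ) (z : ℂ), 3 ≤ f →
  2 ∣ f → a * d - b * c = 1 → (Dk n t * f ^ 2 : ℤ) ∣ c → OddO ρ → PerO f ρ → 0 < z.im →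
    Gt ρ (mob a b c d z) = eps n t d * ((c : ℂ) * z + d) ^ 2 * Gt (tw ρ (d : OO n t)) z

/-- (module C/Der; uses S_Bas, S_Sum) **Derivative and growth.** -/
def S_Der : Prop := ∀ (n t : ℕ) [SqN n t] (f : ℕ) (ρ : OO n t → ℂ), 0 < f → PerO f ρ →
  (∀ z : ℂ, 0 < z.im → HasDerivAt (Th ρ) (2 * Real.pi * Complex.I * Gt ρ z) z) ∧
  (∀ z : ℂ, 0 < z.im → Summable fun v : OO n t => ρ v / toC v * ex (Nm v * z)) ∧
  (∃ C : ℝ, ∀ z : ℂ, 1 ≤ z.im → ‖Th ρ z‖ ≤ C * Real.exp (-2 * Real.pi * z.im))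

/-- (module C/Phi; uses S_Eps, S_Der) -/
def S_Phi : Prop := ∀ (n t : ℕ) [SqN n t] (f : ℕ) (ρ : OO n t → ℂ), 3 ≤ f → 2 ∣ f → OddO ρ →
  PerO f ρ → ∀ a b c d : ℤ, a * d - b * c = 1 → (Dk n t * f ^ 2 : ℤ) ∣ c → ∀ z : ℂ, 0 < z.im →
    Th ρ (mob a b c d z) = eps n t d * Th (tw ρ (d : OO n t)) z + PhC ρ a b c d

/-- (module C/Cus; uses S_Gen, S_Der, S_Sum, S_Bas) **All cusps.** -/
def S_Cus : Prop := ∀ (n t : ℕ) [SqN n t] (f : ℕ) (a b c d : ℤ) (ρ : OO n t → ℂ), 0 < f →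
  a * d - b * c = 1 → PerO f ρ →
  ∃ k0 : ℂ, HasE (Dk n t * f ^ 2) (fun z => Th ρ (mob a b c d z)) k0

/-! ## II. Lattice sums -/

/-- (module C/L0; port of DT/O/L0; uses S_O1) **Inverse ideals.** -/
def S_L0 : Prop :=
  ∀ (n t : ℕ) [SqN n t] (I : Ideal (OO n t)), I ≠ ⊥ →
    (∃ j : ℕ, 0 < j ∧ (j : OO n t) ∈ I) ∧ (∀ j : ℕ, 0 < j → (j : OO n t) ∈ I →
      ∃ c : Ideal (OO n t), c ≠ ⊥ ∧ I * c = sp (j : OO n t)) ∧
    ∀ (j : ℕ) (c : Ideal (OO n t)), 0 < j → I * c = sp (j : OO n t) →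
      ∀ z : ℂ, z ∈ Lam I ↔ ∃ v ∈ c, z = toC v / j

/-- (module C/Lt; uses S_Bas, S_Sum, S_O2, S_O3, S_L0, S_L1) **Sums over `Lam b`.** As in `DK/C`. -/
def S_Lt : Prop := ∀ (n t : ℕ) [SqN n t] (b : Ideal (OO n t)), b ≠ ⊥ →
  0 < NI b ∧
  (∀ z : ℂ, z ∈ Lam b ↔ ∃ u ∈ cjI b, z = toC u / NI b) ∧
  (∀ (x : ℂ) (F : ℂ → ℂ), ∑' v : (LP b).lattice, F (x + v) = ∑' v : cs x b, F v) ∧
  (∀ x ∈ Lam b, ∃ j : ℕ, (NI b : ℝ) * ‖x‖ ^ 2 = j) ∧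
  (∀ x ∈ Lam b, ∀ y ∈ Lam b, ∃ j : ℤ, (NI b : ℝ) * (‖x + y‖ ^ 2 - ‖x‖ ^ 2 - ‖y‖ ^ 2) = j) ∧
  (∀ x : ℂ, Tor n t x → ∃ C : ℝ, ∀ v ∈ cs x b, ‖v⁻¹‖ ≤ C) ∧
  (∀ (x : ℂ) (w : ℝ) (z : ℂ), Tor n t x → 0 < w → 0 < z.im →
    Summable fun v : cs x b => (v : ℂ)⁻¹ * ex (w * ‖(v : ℂ)‖ ^ 2 * z))

/-- (module C/Red, edit of DK/C/Red; uses S_Lt, S_Tt, S_Bas, S_Der, S_O2, S_O3) **Reduction to the lattice `O`**, `F' = F N b`. -/
def S_Red : Prop := ∀ (n t : ℕ) [SqN n t] (F : ℕ) (b : Ideal (OO n t)), 0 < F → b ≠ ⊥ → ∀ s : ℤ,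
  (OddO (rhS F b s) ∧ PerO (F * NI b) (rhS F b s)) ∧
  (∀ z : ℂ, 0 < z.im → Tc F b s z = (F * NI b : ℕ) * Th (rhS F b s) (z / NI b)) ∧
  (∀ z : ℂ, Tc F b s z = TT (cs (s / F) b) (F ^ 2 * NI b) z) ∧
  (∀ (z : ℂ) (j : ℤ), Tc F b s (z + j) = Tc F b s z) ∧
  (∀ s' : ℤ, (F : ℤ) ∣ s - s' → ∀ z : ℂ, Tc F b s z = Tc F b s' z) ∧
  (∀ a d : ℤ, ((F * NI b : ℕ) : ℤ) ∣ a * d - 1 → ∀ u : OO n t,
    rhS F b s (d * u) = rhS F b (a * s) u) ∧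
  ∀ z : ℂ, Tc F b (-s) z = -Tc F b s z

/-- (module C/Tct, edit of DK/C/Tct; uses S_Phi, S_Red, S_O2) **Transformation of `Tc`** for `Γ_0(D F² N b)`, `F ≥ 4` even. -/
def S_Tct : Prop := ∀ (n t : ℕ) [SqN n t] (F : ℕ) (b : Ideal (OO n t)) (s : ℤ), 3 ≤ F → 2 ∣ F →
  b ≠ ⊥ → ∀ a b' c d : ℤ, a * d - b' * c = 1 → ((Dk n t * F ^ 2 * NI b : ℕ) : ℤ) ∣ c →
    ∃ Φ : ℂ, ∀ z : ℂ, 0 < z.im →
      Tc F b s (mob a b' c d z) = eps n t d * Tc F b (a * s) z + Φ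

/-- (module C/Tcc, edit of DK/C/Tcc; uses S_Cus, S_Exp, S_Red, S_O2) **Cusps of `Tc`.** -/
def S_Tcc : Prop := ∀ (n t : ℕ) [SqN n t] (F : ℕ) (b : Ideal (OO n t)) (s : ℤ), 0 < F → b ≠ ⊥ →
  ∀ a b' c d : ℤ, a * d - b' * c = 1 → ∀ q M : ℕ, 0 < q → 0 < M →
    q * (Dk n t * F ^ 2 * NI b ^ 3) ∣ M →
    ∃ k0 : ℂ, HasE M (fun z => Tc F b s (q * mob a b' c d z)) k0

end Pool.Agent.DN.C
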